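import Mathlib

/-!
Real analysis, large supports. With `z ≥ ε n / 3`, `m = n - z + 2`: `log (E m) + log 3 z (2 n - z) / 32` is at most
`(log 2 / 16) (n - z) ^ 2 + (log 3 / 32) z (2 n - z) + O(n (1 + log n) ^ 2)`, i.e.
`(log 2 / 16) n ^ 2 - (log 2 / 16 - log 3 / 32) z (2 n - z) + O(n (1 + log n) ^ 2)`, and `log 2 / 16 - log 3 / 32 > 0` (`3 < 4`),
`z (2 n - z) ≥ ε n ^ 2 / 3`. The other factors are `exp (O(n (1 + log n) ^ 2))`:
`(n !) ^ (log n + 1) ≤ exp (3 n (1 + log n) ^ 2)` (hypothesis `hf`), `(2 V) ^ n`, `3 ^ (2 n)`, `n` terms, and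
`E n ≥ exp (log 2 / 16 n ^ 2 - C (n + 1))`.
-/

set_option autoImplicit false

namespace Pool.Agent.SqA

open Filter Topology

private lemma abs_log3 : Real.log 3 < 2 * Real.log 2 := by
  have h4 : Real.log 4 = 2 * Real.log 2 := by
    rw [show (4 : ℝ) = 2 ^ 2 by norm_num, Real.log_pow]; norm_num
  have h : Real.log 3 < Real.log 4 := Real.log_lt_log (by norm_num) (by norm_num)
  linarith

private lemma abs_log3' : Real.log 3 ≤ 3 / 2 := by
  have h1 := abs_log3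
  have h2 := Real.log_two_lt_d9
  linarith

private lemma abs_term (E : ℕ → ℝ) (C : ℝ) (hC : 0 ≤ C)
    (hEu : ∀ n : ℕ, 1 ≤ n → E n ≤ Real.exp (Real.log 2 / 16 * n ^ 2 + C * n * (1 + Real.log n) ^ 2))
    (ε : ℝ) (n z : ℕ) (hn : 1 ≤ n) (hz1 : ε * (n : ℝ) / 3 ≤ (z : ℝ)) (hz2 : z ≤ n) :
    E (n - z + 2) * Real.exp (Real.log 3 * z * (2 * n - z) / 32) ≤
      Real.exp (Real.log 2 / 16 * (n : ℝ) ^ 2 - (Real.log 2 / 16 - Real.log 3 / 32) * ε / 3 * (n : ℝ) ^ 2
        + (1 + 27 * C) * (n * (1 + Real.log n) ^ 2)) := by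
  have hn1 : (1 : ℝ) ≤ (n : ℝ) := by exact_mod_cast hn
  have hz2' : (z : ℝ) ≤ (n : ℝ) := by exact_mod_cast hz2
  have hz0 : (0 : ℝ) ≤ (z : ℝ) := Nat.cast_nonneg z
  have hm : ((n - z + 2 : ℕ) : ℝ) = (n : ℝ) - z + 2 := by
    rw [Nat.cast_add, Nat.cast_sub hz2]; norm_num
  have hL : 0 ≤ Real.log n := Real.log_nonneg hn1
  have h1 := hEu (n - z + 2) (by omega)
  rw [hm] at h1
  have hm1 : (1 : ℝ) ≤ (n : ℝ) - z + 2 := by linarith
  have hm3 : (n : ℝ) - z + 2 ≤ 3 * n := by linarith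
  have hlm : Real.log ((n : ℝ) - z + 2) ≤ 2 + Real.log n := by
    have h := Real.log_le_log (by linarith : (0 : ℝ) < (n : ℝ) - z + 2) hm3
    rw [Real.log_mul (by norm_num) (by linarith)] at h
    have := abs_log3'
    linarith
  have hlm0 : 0 ≤ Real.log ((n : ℝ) - z + 2) := Real.log_nonneg hm1
  have hsq : (1 + Real.log ((n : ℝ) - z + 2)) ^ 2 ≤ 9 * (1 + Real.log n) ^ 2 := by
    have h3 : 1 + Real.log ((n : ℝ) - z + 2) ≤ 3 * (1 + Real.log n) := by linarith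
    have := pow_le_pow_left₀ (by linarith : (0 : ℝ) ≤ 1 + Real.log ((n : ℝ) - z + 2)) h3 2
    nlinarith
  have hT1 : C * ((n : ℝ) - z + 2) * (1 + Real.log ((n : ℝ) - z + 2)) ^ 2 ≤
      27 * C * (n * (1 + Real.log n) ^ 2) := by
    have ha : C * ((n : ℝ) - z + 2) ≤ C * (3 * n) := mul_le_mul_of_nonneg_left hm3 hC
    have hb : 0 ≤ C * (3 * (n : ℝ)) := by positivity
    calc C * ((n : ℝ) - z + 2) * (1 + Real.log ((n : ℝ) - z + 2)) ^ 2
        ≤ C * (3 * n) * (9 * (1 + Real.log n) ^ 2) :=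
          mul_le_mul ha hsq (by positivity) hb
      _ = 27 * C * (n * (1 + Real.log n) ^ 2) := by ring
  have hl2 : 0 ≤ Real.log 2 := Real.log_nonneg (by norm_num)
  have hl2' := Real.log_two_lt_d9
  have hT2 : Real.log 2 / 16 * ((n : ℝ) - z + 2) ^ 2 ≤ Real.log 2 / 16 * ((n : ℝ) - z) ^ 2 + n := by
    have e : ((n : ℝ) - z + 2) ^ 2 = ((n : ℝ) - z) ^ 2 + (4 * ((n : ℝ) - z) + 4) := by ring
    rw [e, mul_add]
    have h8 : 4 * ((n : ℝ) - z) + 4 ≤ 8 * n := by linarith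
    have := mul_le_mul_of_nonneg_left h8 (by positivity : 0 ≤ Real.log 2 / 16)
    nlinarith
  have hzz : ε / 3 * (n : ℝ) ^ 2 ≤ (z : ℝ) * (2 * n - z) := by
    have h2 : (z : ℝ) * n ≤ z * (2 * n - z) := mul_le_mul_of_nonneg_left (by linarith) hz0
    have h3 : ε * (n : ℝ) / 3 * n ≤ z * n := mul_le_mul_of_nonneg_right hz1 (by linarith)
    nlinarith
  have hd : 0 ≤ Real.log 2 / 16 - Real.log 3 / 32 := by
    have := abs_log3; linarith
  have hT3 := mul_le_mul_of_nonneg_left hzz hd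
  have hnL : (n : ℝ) ≤ n * (1 + Real.log n) ^ 2 := by
    have : (1 : ℝ) ≤ (1 + Real.log n) ^ 2 := by nlinarith
    nlinarith
  calc E (n - z + 2) * Real.exp (Real.log 3 * z * (2 * n - z) / 32)
      ≤ Real.exp (Real.log 2 / 16 * ((n : ℝ) - z + 2) ^ 2
          + C * ((n : ℝ) - z + 2) * (1 + Real.log ((n : ℝ) - z + 2)) ^ 2)
          * Real.exp (Real.log 3 * z * (2 * n - z) / 32) :=
        mul_le_mul_of_nonneg_right h1 (Real.exp_pos _).le
    _ = Real.exp (Real.log 2 / 16 * ((n : ℝ) - z + 2) ^ 2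
          + C * ((n : ℝ) - z + 2) * (1 + Real.log ((n : ℝ) - z + 2)) ^ 2
          + Real.log 3 * z * (2 * n - z) / 32) := (Real.exp_add _ _).symm
    _ ≤ _ := by
        apply Real.exp_le_exp.mpr
        have e : Real.log 2 / 16 * ((n : ℝ) - z) ^ 2 + Real.log 3 * z * (2 * n - z) / 32 =
            Real.log 2 / 16 * (n : ℝ) ^ 2 - (Real.log 2 / 16 - Real.log 3 / 32) * (z * (2 * n - z)) := by
          ring
        have e2 : (Real.log 2 / 16 - Real.log 3 / 32) * ε / 3 * (n : ℝ) ^ 2 =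
            (Real.log 2 / 16 - Real.log 3 / 32) * (ε / 3 * (n : ℝ) ^ 2) := by ring
        have e3 : (1 + 27 * C) * (n * (1 + Real.log n) ^ 2) =
            n * (1 + Real.log n) ^ 2 + 27 * C * (n * (1 + Real.log n) ^ 2) := by ring
        rw [e2, e3]
        linarith

theorem abs_ana (E V : ℕ → ℝ) (C : ℝ) (hC : 0 ≤ C)
    (hE0 : ∀ n, 0 ≤ E n)
    (hEu : ∀ n : ℕ, 1 ≤ n → E n ≤ Real.exp (Real.log 2 / 16 * n ^ 2 + C * n * (1 + Real.log n) ^ 2))
    (hEl : ∀ n : ℕ, Real.exp (Real.log 2 / 16 * n ^ 2 - C * (n + 1)) ≤ E n)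
    (hV1 : ∀ n, 1 ≤ V n) (hV : ∀ n : ℕ, 1 ≤ n → V n ≤ Real.exp (C * (1 + Real.log n) ^ 2))
    (hf : ∀ n : ℕ, 1 ≤ n → ((n.factorial : ℝ)) ^ (Nat.log 2 n + 1) ≤ Real.exp (3 * n * (1 + Real.log n) ^ 2))
    (ε : ℝ) (hε : 0 < ε) :
    Tendsto (fun n : ℕ => (n : ℝ) * ((n.factorial : ℝ) ^ (Nat.log 2 n + 1) * (2 * V n) ^ n * 3 ^ (2 * n) *
        ∑ z ∈ Finset.Icc ((⌊ε * (n : ℝ)⌋₊ + 1 + 2) / 3) n, E (n - z + 2) *
          Real.exp (Real.log 3 * z * (2 * n - z) / 32)) / E n)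
      atTop (𝓝 0) := by
  have hd : 0 < Real.log 2 / 16 - Real.log 3 / 32 := by
    have := abs_log3; linarith
  set a : ℝ := (Real.log 2 / 16 - Real.log 3 / 32) * ε / 3 with ha
  have ha0 : 0 < a := by positivity
  set b : ℝ := 11 + 30 * C with hb
  have hb0 : 0 < b := by positivity
  -- the pointwise bound
  have key : ∀ n : ℕ, 1 ≤ n →
      (n : ℝ) * ((n.factorial : ℝ) ^ (Nat.log 2 n + 1) * (2 * V n) ^ n * 3 ^ (2 * n) *
        ∑ z ∈ Finset.Icc ((⌊ε * (n : ℝ)⌋₊ + 1 + 2) / 3) n, E (n - z + 2) *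
          Real.exp (Real.log 3 * z * (2 * n - z) / 32)) / E n ≤
      Real.exp (-a * (n : ℝ) ^ 2 + b * (n * (1 + Real.log n) ^ 2)) := by
    intro n hn
    have hn1 : (1 : ℝ) ≤ (n : ℝ) := by exact_mod_cast hn
    have hL : 0 ≤ Real.log n := Real.log_nonneg hn1
    set S : ℝ := n * (1 + Real.log n) ^ 2 with hS
    have hLs : (1 : ℝ) ≤ (1 + Real.log n) ^ 2 := by nlinarith
    have hnS : (n : ℝ) ≤ S := by rw [hS]; nlinarith
    have hS0 : 0 ≤ S := by linarith
    -- the sum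
    have hsum : ∑ z ∈ Finset.Icc ((⌊ε * (n : ℝ)⌋₊ + 1 + 2) / 3) n, E (n - z + 2) *
          Real.exp (Real.log 3 * z * (2 * n - z) / 32) ≤
        (2 * n) * Real.exp (Real.log 2 / 16 * (n : ℝ) ^ 2 - a * (n : ℝ) ^ 2 + (1 + 27 * C) * S) := by
      have h1 : ∀ z ∈ Finset.Icc ((⌊ε * (n : ℝ)⌋₊ + 1 + 2) / 3) n, E (n - z + 2) *
          Real.exp (Real.log 3 * z * (2 * n - z) / 32) ≤
          Real.exp (Real.log 2 / 16 * (n : ℝ) ^ 2 - a * (n : ℝ) ^ 2 + (1 + 27 * C) * S) := by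
        intro z hz
        rw [Finset.mem_Icc] at hz
        have hk : ⌊ε * (n : ℝ)⌋₊ + 1 ≤ 3 * z := by omega
        have hk' : ((⌊ε * (n : ℝ)⌋₊ : ℕ) : ℝ) + 1 ≤ 3 * (z : ℝ) := by exact_mod_cast hk
        have hfl := Nat.lt_floor_add_one (ε * (n : ℝ))
        exact abs_term E C hC hEu ε n z hn (by linarith) hz.2
      have h2 := Finset.sum_le_card_nsmul _ _ _ h1
      rw [nsmul_eq_mul] at h2
      refine h2.trans (mul_le_mul_of_nonneg_right ?_ (Real.exp_pos _).le)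
      rw [Nat.card_Icc]
      have : n + 1 - (⌊ε * (n : ℝ)⌋₊ + 1 + 2) / 3 ≤ 2 * n := by omega
      calc ((n + 1 - (⌊ε * (n : ℝ)⌋₊ + 1 + 2) / 3 : ℕ) : ℝ) ≤ ((2 * n : ℕ) : ℝ) := by exact_mod_cast this
        _ = 2 * n := by push_cast; ring
    -- the factors
    have hF := hf n hn
    have hF' : ((n.factorial : ℝ)) ^ (Nat.log 2 n + 1) ≤ Real.exp (3 * S) := by
      refine hF.trans (le_of_eq ?_)
      rw [hS]; ring_nf
    have hVn : (2 * V n) ^ n ≤ Real.exp ((1 + C) * S) := by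
      have h2 : (2 : ℝ) * V n ≤ Real.exp (1 + C * (1 + Real.log n) ^ 2) := by
        rw [Real.exp_add]
        refine mul_le_mul ?_ (hV n hn) (by linarith [hV1 n]) (Real.exp_pos _).le
        have := Real.add_one_le_exp (1 : ℝ)
        linarith
      have h0 : (0 : ℝ) ≤ 2 * V n := by linarith [hV1 n]
      calc (2 * V n) ^ n ≤ (Real.exp (1 + C * (1 + Real.log n) ^ 2)) ^ n := pow_le_pow_left₀ h0 h2 n
        _ = Real.exp (n * (1 + C * (1 + Real.log n) ^ 2)) := (Real.exp_nat_mul _ _).symm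
        _ ≤ Real.exp ((1 + C) * S) := by
            apply Real.exp_le_exp.mpr
            have : (n : ℝ) * (1 + C * (1 + Real.log n) ^ 2) = n + C * S := by rw [hS]; ring
            rw [this]; linarith
    have h3 : (3 : ℝ) ^ (2 * n) ≤ Real.exp (3 * S) := by
      have h31 : (3 : ℝ) ≤ Real.exp (3 / 2) := by
        have := abs_log3'
        calc (3 : ℝ) = Real.exp (Real.log 3) := (Real.exp_log (by norm_num)).symm
          _ ≤ Real.exp (3 / 2) := Real.exp_le_exp.mpr this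
      calc (3 : ℝ) ^ (2 * n) ≤ (Real.exp (3 / 2)) ^ (2 * n) := pow_le_pow_left₀ (by norm_num) h31 _
        _ = Real.exp ((2 * n : ℕ) * (3 / 2)) := (Real.exp_nat_mul _ _).symm
        _ ≤ Real.exp (3 * S) := by
            apply Real.exp_le_exp.mpr
            push_cast
            linarith
    have hnn : (n : ℝ) * (2 * n) ≤ Real.exp (3 * S) := by
      have h1 : (n : ℝ) ≤ Real.exp n := by have := Real.add_one_le_exp (n : ℝ); linarith
      have h2 : 2 * (n : ℝ) ≤ Real.exp (2 * n) := by have := Real.add_one_le_exp (2 * (n : ℝ)); linarith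
      calc (n : ℝ) * (2 * n) ≤ Real.exp n * Real.exp (2 * n) :=
            mul_le_mul h1 h2 (by positivity) (Real.exp_pos _).le
        _ = Real.exp (n + 2 * n) := (Real.exp_add _ _).symm
        _ ≤ Real.exp (3 * S) := by apply Real.exp_le_exp.mpr; linarith
    have hElow : Real.exp (Real.log 2 / 16 * (n : ℝ) ^ 2 - 2 * C * S) ≤ E n := by
      refine le_trans (Real.exp_le_exp.mpr ?_) (hEl n)
      have : C * ((n : ℝ) + 1) ≤ C * (2 * S) := mul_le_mul_of_nonneg_left (by linarith) hC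
      linarith
    have hEpos : 0 < E n := lt_of_lt_of_le (Real.exp_pos _) hElow
    rw [div_le_iff₀ hEpos]
    have hfac0 : (0 : ℝ) ≤ ((n.factorial : ℝ)) ^ (Nat.log 2 n + 1) := by positivity
    have hV0 : (0 : ℝ) ≤ (2 * V n) ^ n := pow_nonneg (by linarith [hV1 n]) n
    set Q : ℝ := Real.exp (Real.log 2 / 16 * (n : ℝ) ^ 2 - a * (n : ℝ) ^ 2 + (1 + 27 * C) * S) with hQ
    have hQ0 : 0 ≤ Q := (Real.exp_pos _).le
    have hA : ((n.factorial : ℝ)) ^ (Nat.log 2 n + 1) * (2 * V n) ^ n * 3 ^ (2 * n) ≤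
        Real.exp (3 * S) * Real.exp ((1 + C) * S) * Real.exp (3 * S) := by
      refine mul_le_mul (mul_le_mul hF' hVn hV0 (Real.exp_pos _).le) h3 (by positivity) ?_
      positivity
    have hA0 : 0 ≤ ((n.factorial : ℝ)) ^ (Nat.log 2 n + 1) * (2 * V n) ^ n * 3 ^ (2 * n) :=
      mul_nonneg (mul_nonneg hfac0 hV0) (by positivity)
    calc (n : ℝ) * ((n.factorial : ℝ) ^ (Nat.log 2 n + 1) * (2 * V n) ^ n * 3 ^ (2 * n) *
        ∑ z ∈ Finset.Icc ((⌊ε * (n : ℝ)⌋₊ + 1 + 2) / 3) n, E (n - z + 2) *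
          Real.exp (Real.log 3 * z * (2 * n - z) / 32))
        ≤ (n : ℝ) * ((Real.exp (3 * S) * Real.exp ((1 + C) * S) * Real.exp (3 * S)) * ((2 * n) * Q)) := by
          refine mul_le_mul_of_nonneg_left ?_ (by linarith)
          refine (mul_le_mul_of_nonneg_left hsum hA0).trans ?_
          exact mul_le_mul_of_nonneg_right hA (by positivity)
      _ = ((n : ℝ) * (2 * n)) * (Real.exp (3 * S) * Real.exp ((1 + C) * S) * Real.exp (3 * S) * Q) := by ring
      _ ≤ Real.exp (3 * S) * (Real.exp (3 * S) * Real.exp ((1 + C) * S) * Real.exp (3 * S) * Q) :=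
          mul_le_mul_of_nonneg_right hnn (by positivity)
      _ = Real.exp (-a * (n : ℝ) ^ 2 + b * S) * Real.exp (Real.log 2 / 16 * (n : ℝ) ^ 2 - 2 * C * S) := by
          rw [hQ]
          simp only [← Real.exp_add]
          congr 1
          rw [hb]
          ring
      _ ≤ Real.exp (-a * (n : ℝ) ^ 2 + b * S) * E n :=
          mul_le_mul_of_nonneg_left hElow (Real.exp_pos _).le
  -- the limit
  have hlim : Tendsto (fun n : ℕ => Real.exp (-a * (n : ℝ) ^ 2 + b * (n * (1 + Real.log n) ^ 2))) atTop (𝓝 0) := by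
    apply Real.tendsto_exp_atBot.comp
    have hlog : ∀ᶠ x : ℝ in atTop, b * (1 + Real.log x) ^ 2 ≤ a / 2 * x := by
      have h1 : (fun x : ℝ => Real.log x ^ 2) =o[atTop] (id : ℝ → ℝ) := Real.isLittleO_pow_log_id_atTop
      have h2 := h1.def (by positivity : 0 < a / 2 / (4 * b))
      filter_upwards [h2, eventually_ge_atTop (Real.exp 1), eventually_gt_atTop 0] with x hx hxe hx0
      have hl1 : 1 ≤ Real.log x := by
        rw [← Real.log_exp 1]
        exact Real.log_le_log (Real.exp_pos 1) hxe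
      have hx' : Real.log x ^ 2 ≤ a / 2 / (4 * b) * x := by
        have : ‖Real.log x ^ 2‖ = Real.log x ^ 2 := Real.norm_of_nonneg (by positivity)
        rw [this] at hx
        simpa [abs_of_pos hx0] using hx
      have h4 : (1 + Real.log x) ^ 2 ≤ 4 * Real.log x ^ 2 := by nlinarith
      calc b * (1 + Real.log x) ^ 2 ≤ b * (4 * Real.log x ^ 2) := mul_le_mul_of_nonneg_left h4 hb0.le
        _ ≤ b * (4 * (a / 2 / (4 * b) * x)) := by
            refine mul_le_mul_of_nonneg_left (mul_le_mul_of_nonneg_left hx' (by norm_num)) hb0.le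
        _ = a / 2 * x := by field_simp
    have hlogN := tendsto_natCast_atTop_atTop.eventually hlog
    have hbot : Tendsto (fun n : ℕ => -(a / 2) * (n : ℝ)) atTop atBot :=
      tendsto_natCast_atTop_atTop.const_mul_atTop_of_neg (by linarith)
    refine tendsto_atBot_mono' _ ?_ hbot
    filter_upwards [hlogN, eventually_ge_atTop 1] with n hn hn1
    have hn1' : (1 : ℝ) ≤ (n : ℝ) := by exact_mod_cast hn1
    have h5 : (n : ℝ) * (b * (1 + Real.log n) ^ 2) ≤ n * (a / 2 * n) :=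
      mul_le_mul_of_nonneg_left hn (by linarith)
    have h6 : (n : ℝ) ≤ (n : ℝ) ^ 2 := by nlinarith
    have h7 : a / 2 * (n : ℝ) ≤ a / 2 * (n : ℝ) ^ 2 := mul_le_mul_of_nonneg_left h6 (by positivity)
    have e1 : (n : ℝ) * (b * (1 + Real.log n) ^ 2) = b * (n * (1 + Real.log n) ^ 2) := by ring
    have e2 : (n : ℝ) * (a / 2 * n) = a / 2 * (n : ℝ) ^ 2 := by ring
    rw [e1, e2] at h5
    have e3 : -a * (n : ℝ) ^ 2 = -(a / 2 * (n : ℝ) ^ 2) - a / 2 * (n : ℝ) ^ 2 := by ring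
    rw [e3]
    linarith
  refine squeeze_zero' ?_ ?_ hlim
  · filter_upwards [eventually_ge_atTop 1] with n hn
    have h1 : 0 ≤ ∑ z ∈ Finset.Icc ((⌊ε * (n : ℝ)⌋₊ + 1 + 2) / 3) n, E (n - z + 2) *
          Real.exp (Real.log 3 * z * (2 * n - z) / 32) :=
      Finset.sum_nonneg fun z _ => mul_nonneg (hE0 _) (Real.exp_pos _).le
    have h2 : 0 ≤ (2 * V n) ^ n := pow_nonneg (by linarith [hV1 n]) n
    have h3 := hE0 n
    positivity
  · filter_upwards [eventually_ge_atTop 1] with n hn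
    exact key n hn

end Pool.Agent.SqA
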