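import Mathlib

/-!
Real analysis, small supports. `E` = number of elementary abelian 2-subgroups, `G` = `nGe 3`, `V` = `W`.

(R1) For `2 u ≤ M`, `M` large: `E (2 M - 2 u) ≤ exp (- c M u) E (2 M)` (`u` steps of `hgrow`, each from an `m ≥ M`).
Even case `N = 2 M`: for `(d + 2) / 3 ≤ z ≤ d ≤ ε N` (`ε ≤ 1/4`) let `u = ⌈z / 2⌉`; `E (N - z) ≤ N E (2 M - 2 u)` (`hodd` if `z` is odd),
`u ≥ z / 2 ≥ d / 6`, `2 u ≤ z + 1 ≤ M`. Odd case `N = 2 M + 1`, `d ≥ 5`, `z ≥ 2`, `u = ⌊z / 2⌋ ≥ z / 3 ≥ d / 9`: again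
`E (N - z) ≤ N E (2 M - 2 u) ≤ N exp (- c M d / 9) E (2 M)`.
So each term is at most `exp (d ((2 C + 2) (1 + log N) ^ 2 + (log 3 / 36) ε N - c N / 27) + 2 log N)` (`M ≥ N / 3`), for small `ε` and large
`N` at most `exp (- c N / 54 + 2 log N)`, and there are at most `N` terms.
-/

set_option autoImplicit false

namespace Pool.Agent.SqA

open Filter Topology

/-- Repeated growth. -/
theorem rel_step (E : ℕ → ℝ) (c : ℝ) (hc : 0 < c) (hE1 : ∀ n, 1 ≤ E n) (m0 : ℕ)
    (hgrow : ∀ n : ℕ, m0 ≤ n → Real.exp (c * n) * E n ≤ E (n + 2)) (M : ℕ) (hM : m0 ≤ M) :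
    ∀ u : ℕ, 2 * u ≤ M → Real.exp (c * M * u) * E (2 * M - 2 * u) ≤ E (2 * M) := by
  intro u
  induction u with
  | zero => intro _; simp
  | succ u ih =>
    intro hu
    have h1 := ih (by omega)
    have h2 := hgrow (2 * M - 2 * (u + 1)) (by omega)
    have h3 : 2 * M - 2 * (u + 1) + 2 = 2 * M - 2 * u := by omega
    rw [h3] at h2
    have h4 : (M : ℝ) ≤ ((2 * M - 2 * (u + 1) : ℕ) : ℝ) := by
      have : M ≤ 2 * M - 2 * (u + 1) := by omega
      exact_mod_cast this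
    have hE0 : 0 ≤ E (2 * M - 2 * (u + 1)) := zero_le_one.trans (hE1 _)
    have h5 : Real.exp (c * M) * E (2 * M - 2 * (u + 1)) ≤ E (2 * M - 2 * u) := by
      refine le_trans (mul_le_mul_of_nonneg_right (Real.exp_le_exp.2 ?_) hE0) h2
      exact mul_le_mul_of_nonneg_left h4 hc.le
    calc Real.exp (c * M * ((u + 1 : ℕ) : ℝ)) * E (2 * M - 2 * (u + 1))
        = Real.exp (c * M * u) * (Real.exp (c * M) * E (2 * M - 2 * (u + 1))) := by
          rw [← mul_assoc, ← Real.exp_add]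
          congr 2
          push_cast
          ring
      _ ≤ Real.exp (c * M * u) * E (2 * M - 2 * u) :=
          mul_le_mul_of_nonneg_left h5 (Real.exp_pos _).le
      _ ≤ E (2 * M) := h1

/-- One value of `E`. -/
theorem rel_E (E : ℕ → ℝ) (c : ℝ) (hc : 0 < c) (hE1 : ∀ n, 1 ≤ E n)
    (hodd : ∀ n : ℕ, E (2 * n + 1) ≤ (2 * n + 1) * E (2 * n)) (m0 : ℕ)
    (hgrow : ∀ n : ℕ, m0 ≤ n → Real.exp (c * n) * E n ≤ E (n + 2)) (M N : ℕ) (hM : m0 ≤ M)
    (hM1 : 1 ≤ M) (hN : N = 2 * M ∨ N = 2 * M + 1) (z : ℕ) (hz1 : 1 ≤ z)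
    (hz2 : N = 2 * M + 1 → 2 ≤ z) (hz : 2 * z ≤ M) :
    E (N - z) ≤ N * (Real.exp (-(c / 9) * N * z) * E (2 * M)) := by
  obtain ⟨u, hu1, hu2, hu3⟩ : ∃ u : ℕ, 2 * u ≤ M ∧ z ≤ 3 * u ∧ E (N - z) ≤ N * E (2 * M - 2 * u) := by
    have key : ∀ u : ℕ, 2 * u ≤ M → (N - z = 2 * M - 2 * u ∨ (N - z = 2 * (M - u) + 1 ∧ 2 * (M - u) + 1 ≤ N)) →
        E (N - z) ≤ N * E (2 * M - 2 * u) := by
      intro u hu h
      have hN1 : (1 : ℝ) ≤ N := by
        have : 1 ≤ N := by omega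
        exact_mod_cast this
      have hE0 : 0 ≤ E (2 * M - 2 * u) := zero_le_one.trans (hE1 _)
      rcases h with h | ⟨h, h'⟩
      · rw [h]
        nlinarith
      · rw [h]
        have h1 := hodd (M - u)
        have h2 : 2 * (M - u) = 2 * M - 2 * u := by omega
        rw [h2] at h1 h' ⊢
        refine h1.trans (mul_le_mul_of_nonneg_right ?_ hE0)
        have h3 : ((2 * M - 2 * u + 1 : ℕ) : ℝ) ≤ N := by exact_mod_cast h'
        have h4 : ((2 * M - 2 * u + 1 : ℕ) : ℝ) = 2 * ((M - u : ℕ) : ℝ) + 1 := by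
          rw [← h2]
          push_cast
          ring
        rw [h4] at h3
        exact h3
    rcases hN with hN | hN
    · rcases Nat.even_or_odd' z with ⟨u, hu | hu⟩
      · exact ⟨u, by omega, by omega, key u (by omega) (Or.inl (by omega))⟩
      · exact ⟨u + 1, by omega, by omega, key (u + 1) (by omega) (Or.inr ⟨by omega, by omega⟩)⟩
    · have := hz2 hN
      rcases Nat.even_or_odd' z with ⟨u, hu | hu⟩
      · exact ⟨u, by omega, by omega, key u (by omega) (Or.inr ⟨by omega, by omega⟩)⟩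
      · exact ⟨u, by omega, by omega, key u (by omega) (Or.inl (by omega))⟩
  have h1 := rel_step E c hc hE1 m0 hgrow M hM u hu1
  refine hu3.trans (mul_le_mul_of_nonneg_left ?_ (Nat.cast_nonneg _))
  have h2 : E (2 * M - 2 * u) ≤ Real.exp (-(c * M * u)) * E (2 * M) := by
    rw [Real.exp_neg, inv_mul_eq_div, le_div_iff₀ (Real.exp_pos _), mul_comm]
    exact h1
  refine h2.trans (mul_le_mul_of_nonneg_right (Real.exp_le_exp.2 ?_) (zero_le_one.trans (hE1 _)))
  have h3 : (N : ℝ) ≤ 3 * M := by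
    have : N ≤ 3 * M := by omega
    exact_mod_cast this
  have h4 : (z : ℝ) ≤ 3 * u := by exact_mod_cast hu2
  have h5 : (N : ℝ) * z ≤ 9 * (M * u) := by
    have h6 : (N : ℝ) * z ≤ (3 * M) * (3 * u) :=
      mul_le_mul h3 h4 (Nat.cast_nonneg _) (by positivity)
    linarith
  have h7 : (c / 9) * ((N : ℝ) * z) ≤ (c / 9) * (9 * (M * u)) :=
    mul_le_mul_of_nonneg_left h5 (by positivity)
  nlinarith [h7]

/-- `(1 + log N) ^ 2` is small compared to `N`. -/
theorem log_sq_le (a b : ℝ) (hb : 0 < b) : ∃ N1 : ℕ, ∀ N : ℕ, N1 ≤ N → a * (1 + Real.log N) ^ 2 ≤ b * N := by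
  have h1 : Tendsto (fun x : ℝ => (1 + Real.log x) ^ 2 / x) atTop (𝓝 0) := by
    have e2 : Tendsto (fun x : ℝ => Real.log x ^ 2 / x) atTop (𝓝 0) :=
      (Real.isLittleO_pow_log_id_atTop (n := 2)).tendsto_div_nhds_zero
    have e1 : Tendsto (fun x : ℝ => Real.log x ^ 1 / x) atTop (𝓝 0) :=
      (Real.isLittleO_pow_log_id_atTop (n := 1)).tendsto_div_nhds_zero
    have e0 : Tendsto (fun x : ℝ => x⁻¹) atTop (𝓝 0) := tendsto_inv_atTop_zero
    have e3 := (e0.add (e1.const_mul 2)).add e2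
    refine Tendsto.congr (fun x => ?_) (by simpa using e3)
    ring
  have h2 : Tendsto (fun n : ℕ => a * ((1 + Real.log (n : ℝ)) ^ 2 / (n : ℝ))) atTop (𝓝 0) := by
    have := (h1.comp tendsto_natCast_atTop_atTop).const_mul a
    simpa using this
  obtain ⟨N1, hN1⟩ := ((h2.eventually (gt_mem_nhds hb)).and (eventually_ge_atTop 1)).exists_forall_of_atTop
  refine ⟨N1, fun N hN => ?_⟩
  obtain ⟨h3, h4⟩ := hN1 N hN
  have h5 : (0 : ℝ) < N := by exact_mod_cast h4
  have h6 : a * (1 + Real.log N) ^ 2 = (a * ((1 + Real.log (N : ℝ)) ^ 2 / (N : ℝ))) * N := by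
    field_simp
  rw [h6]
  exact mul_le_mul_of_nonneg_right h3.le h5.le

/-- One term of the sum. -/
theorem rel_term (E G V : ℕ → ℝ) (c C : ℝ) (hc : 0 < c) (hC : 0 ≤ C) (hE1 : ∀ n, 1 ≤ E n)
    (hodd : ∀ n : ℕ, E (2 * n + 1) ≤ (2 * n + 1) * E (2 * n))
    (hgrow : ∀ᶠ n : ℕ in atTop, Real.exp (c * n) * E n ≤ E (n + 2)) (hG0 : ∀ d, 0 ≤ G d)
    (hG : ∀ d : ℕ, 1 ≤ d → G d ≤ Real.exp (Real.log 3 / 36 * d ^ 2 + C * d * (1 + Real.log d) ^ 2))
    (hV1 : ∀ n, 1 ≤ V n) (hV : ∀ n : ℕ, 1 ≤ n → V n ≤ Real.exp (C * (1 + Real.log n) ^ 2)) :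
    ∃ ε : ℝ, 0 < ε ∧ ε ≤ 1 / 6 ∧ ∃ M0 : ℕ, ∀ M N : ℕ, M0 ≤ M → (N = 2 * M ∨ N = 2 * M + 1) →
      ∀ d : ℕ, 1 ≤ d → (N = 2 * M + 1 → 5 ≤ d) → (d : ℝ) ≤ ε * N → ∀ z : ℕ, (d + 2) / 3 ≤ z → z ≤ d →
      (2 * (N : ℝ) * V N) ^ d * G d * E (N - z) ≤ N * Real.exp (-(c / 54) * N) * E (2 * M) := by
  obtain ⟨m0, hm0⟩ := hgrow.exists_forall_of_atTop
  obtain ⟨N1, hN1⟩ := log_sq_le (3 + 2 * C) (c / 108) (by positivity)
  set ε : ℝ := min (1 / 6) (c / 6) with hε
  have hε0 : 0 < ε := lt_min (by norm_num) (by positivity)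
  have hε1 : ε ≤ 1 / 6 := min_le_left _ _
  have hε2 : ε ≤ c / 6 := min_le_right _ _
  refine ⟨ε, hε0, hε1, max m0 (max N1 1), ?_⟩
  intro M N hM hN d hd hd5 hdε z hz1 hz2
  have hMm : m0 ≤ M := (le_max_left _ _).trans hM
  have hMN1 : N1 ≤ M := ((le_max_left _ _).trans (le_max_right _ _)).trans hM
  have hM1 : 1 ≤ M := ((le_max_right _ _).trans (le_max_right _ _)).trans hM
  have hNpos : 1 ≤ N := by omega
  have hNR : (1 : ℝ) ≤ N := by exact_mod_cast hNpos
  have hdR : (1 : ℝ) ≤ d := by exact_mod_cast hd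
  have hdM : 2 * d ≤ M := by
    have h1 : (d : ℝ) ≤ 1 / 6 * N := hdε.trans (mul_le_mul_of_nonneg_right hε1 (by linarith))
    have h2 : (6 * d : ℝ) ≤ N := by linarith
    have h3 : 6 * d ≤ N := by exact_mod_cast h2
    omega
  have hzz : 2 * z ≤ M := by omega
  have h1 := rel_E E c hc hE1 hodd m0 hm0 M N hMm hM1 hN z (by omega)
    (fun h => by have := hd5 h; omega) hzz
  have hz3 : (d : ℝ) ≤ 3 * z := by
    have : d ≤ 3 * z := by omega
    exact_mod_cast this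
  have hE0 : 0 ≤ E (2 * M) := zero_le_one.trans (hE1 _)
  have hlogN : 0 ≤ Real.log N := Real.log_nonneg hNR
  have hlogd : 0 ≤ Real.log d := Real.log_nonneg hdR
  have hdN : (d : ℝ) ≤ N := by
    have : d ≤ N := by omega
    exact_mod_cast this
  have hlogdN : Real.log d ≤ Real.log N := Real.log_le_log (by linarith) hdN
  set L : ℝ := 1 + Real.log N with hL
  have hL1 : 1 ≤ L := by linarith
  -- the base
  have hbase : 2 * (N : ℝ) * V N ≤ Real.exp ((2 + C) * L ^ 2) := by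
    have e1 : (N : ℝ) = Real.exp (Real.log N) := (Real.exp_log (by linarith)).symm
    have e2 : (2 : ℝ) ≤ Real.exp 1 := by
      have := Real.add_one_le_exp (1 : ℝ)
      linarith
    have e3 := hV N hNpos
    calc 2 * (N : ℝ) * V N ≤ Real.exp 1 * Real.exp (Real.log N) * Real.exp (C * L ^ 2) := by
          refine mul_le_mul (mul_le_mul e2 e1.le (by linarith) (Real.exp_pos _).le) e3
            (zero_le_one.trans (hV1 _)) (by positivity)
      _ = Real.exp (1 + Real.log N + C * L ^ 2) := by rw [Real.exp_add, Real.exp_add]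
      _ ≤ Real.exp ((2 + C) * L ^ 2) := by
          apply Real.exp_le_exp.2
          nlinarith [sq_nonneg (L - 1)]
  have hb0 : 0 ≤ 2 * (N : ℝ) * V N := by
    have := hV1 N
    positivity
  have hpow : (2 * (N : ℝ) * V N) ^ d ≤ Real.exp (d * ((2 + C) * L ^ 2)) := by
    rw [Real.exp_nat_mul]
    exact pow_le_pow_left₀ hb0 hbase d
  have hGd : G d ≤ Real.exp (Real.log 3 / 36 * d ^ 2 + C * d * L ^ 2) := by
    refine (hG d hd).trans (Real.exp_le_exp.2 ?_)
    have e1 : (1 + Real.log d) ^ 2 ≤ L ^ 2 := by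
      apply pow_le_pow_left₀ (by linarith)
      linarith
    have e2 : C * d * (1 + Real.log d) ^ 2 ≤ C * d * L ^ 2 :=
      mul_le_mul_of_nonneg_left e1 (by positivity)
    linarith
  have hlog3 : Real.log 3 ≤ 1.1 := by
    have := Real.log_le_sub_one_of_pos (show (0 : ℝ) < 3 / Real.exp 1 by positivity)
    rw [Real.log_div (by norm_num) (Real.exp_pos 1).ne', Real.log_exp] at this
    have e1 := Real.exp_one_gt_d9
    have e2 : 3 / Real.exp 1 ≤ 1.11 := by
      rw [div_le_iff₀ (Real.exp_pos 1)]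
      linarith
    have e3 : Real.log 3 ≤ 1.11 := by linarith
    have e4 : Real.log 3 < 1.0987 := by
      have h9 : Real.log 3 = 2 * Real.log 2 + Real.log (3 / 4) := by
        rw [Real.log_div (by norm_num) (by norm_num)]
        have : (4 : ℝ) = 2 ^ 2 := by norm_num
        rw [this, Real.log_pow]
        push_cast
        ring
      have h10 := Real.log_two_lt_d9
      have h11 := Real.log_le_sub_one_of_pos (show (0 : ℝ) < 3 / 4 by norm_num)
      have h12 : Real.log (3 / 4) ≤ -0.2876 := by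
        have h13 : Real.log (3 / 4 : ℝ) = -Real.log (4 / 3) := by
          rw [← Real.log_inv]
          norm_num
        have h14 : (0.2876 : ℝ) ≤ Real.log (4 / 3) := by
          rw [Real.le_log_iff_exp_le (by norm_num)]
          have h15 := Real.exp_bound' (show (0 : ℝ) ≤ 0.2876 by norm_num) (show (0.2876 : ℝ) ≤ 1 by norm_num) (n := 6) (by norm_num)
          refine h15.trans ?_
          norm_num [Finset.sum_range_succ, Nat.factorial]
        linarith
      linarith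
    linarith
  have hlog30 : 0 ≤ Real.log 3 := Real.log_nonneg (by norm_num)
  have hN1' := hN1 N (by omega)
  have hEz : E (N - z) ≤ N * (Real.exp (-(c / 27) * N * d) * E (2 * M)) := by
    refine h1.trans (mul_le_mul_of_nonneg_left (mul_le_mul_of_nonneg_right (Real.exp_le_exp.2 ?_) hE0)
      (by linarith))
    have e1 : (c / 27) * N * d ≤ (c / 27) * N * (3 * z) :=
      mul_le_mul_of_nonneg_left hz3 (by positivity)
    linarith
  have hEz0 : 0 ≤ E (N - z) := zero_le_one.trans (hE1 _)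
  calc (2 * (N : ℝ) * V N) ^ d * G d * E (N - z)
      ≤ Real.exp (d * ((2 + C) * L ^ 2)) * Real.exp (Real.log 3 / 36 * d ^ 2 + C * d * L ^ 2) *
        (N * (Real.exp (-(c / 27) * N * d) * E (2 * M))) := by
        refine mul_le_mul (mul_le_mul hpow hGd (hG0 d) (Real.exp_pos _).le) hEz hEz0 (by positivity)
    _ = N * (Real.exp (d * ((2 + C) * L ^ 2) + (Real.log 3 / 36 * d ^ 2 + C * d * L ^ 2) +
        -(c / 27) * N * d)) * E (2 * M) := by
        simp only [Real.exp_add]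
        ring
    _ ≤ N * Real.exp (-(c / 54) * N) * E (2 * M) := by
        refine mul_le_mul_of_nonneg_right (mul_le_mul_of_nonneg_left (Real.exp_le_exp.2 ?_) (by linarith)) hE0
        have e1 : Real.log 3 / 36 * (d : ℝ) ^ 2 ≤ c / 108 * N * d := by
          have e2 : (d : ℝ) ≤ c / 6 * N := hdε.trans (mul_le_mul_of_nonneg_right hε2 (by linarith))
          have e3 : Real.log 3 / 36 * (d : ℝ) ≤ 1.1 / 36 * (c / 6 * N) :=
            mul_le_mul (by linarith) e2 (by linarith) (by norm_num)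
          have e4 : 1.1 / 36 * (c / 6 * N) ≤ c / 108 * N := by
            have : 0 ≤ c * N := by positivity
            nlinarith
          have e5 : Real.log 3 / 36 * (d : ℝ) ≤ c / 108 * N := e3.trans e4
          have e6 := mul_le_mul_of_nonneg_right e5 (show (0 : ℝ) ≤ d by linarith)
          calc Real.log 3 / 36 * (d : ℝ) ^ 2 = Real.log 3 / 36 * d * d := by ring
            _ ≤ _ := e6
        have e7 : (d : ℝ) * ((2 + C) * L ^ 2) + C * d * L ^ 2 ≤ c / 108 * N * d := by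
          have e8 : (2 + 2 * C) * L ^ 2 ≤ c / 108 * N := by
            have : 0 ≤ L ^ 2 := by positivity
            linarith
          have e9 := mul_le_mul_of_nonneg_right e8 (show (0 : ℝ) ≤ d by linarith)
          calc (d : ℝ) * ((2 + C) * L ^ 2) + C * d * L ^ 2 = (2 + 2 * C) * L ^ 2 * d := by ring
            _ ≤ _ := e9
        have e10 : (c / 54) * N ≤ (c / 54) * N * d := by
          have : 0 ≤ (c / 54) * N := by positivity
          nlinarith
        nlinarith [e1, e7, e10]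

theorem rel_lim (b : ℝ) (hb : 0 < b) :
    Tendsto (fun x : ℝ => x * x * (x + 1) * Real.exp (-b * x)) atTop (𝓝 0) := by
  have e1 := (isLittleO_pow_exp_pos_mul_atTop (k := 3) hb).tendsto_div_nhds_zero
  have e2 := (isLittleO_pow_exp_pos_mul_atTop (k := 2) hb).tendsto_div_nhds_zero
  refine Tendsto.congr (fun x => ?_) (by simpa using e1.add e2)
  rw [neg_mul, Real.exp_neg]
  have := (Real.exp_pos (b * x)).ne'
  field_simp
  try ring

theorem rel_ana (E G V : ℕ → ℝ) (c C : ℝ) (hc : 0 < c) (hC : 0 ≤ C) (hE1 : ∀ n, 1 ≤ E n) (hmono : Monotone E)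
    (hodd : ∀ n : ℕ, E (2 * n + 1) ≤ (2 * n + 1) * E (2 * n))
    (hgrow : ∀ᶠ n : ℕ in atTop, Real.exp (c * n) * E n ≤ E (n + 2)) (hG0 : ∀ d, 0 ≤ G d)
    (hG : ∀ d : ℕ, 1 ≤ d → G d ≤ Real.exp (Real.log 3 / 36 * d ^ 2 + C * d * (1 + Real.log d) ^ 2))
    (hV1 : ∀ n, 1 ≤ V n) (hV : ∀ n : ℕ, 1 ≤ n → V n ≤ Real.exp (C * (1 + Real.log n) ^ 2)) :
    ∃ ε : ℝ, 0 < ε ∧
      Tendsto (fun n : ℕ => (∑ d ∈ Finset.Icc 1 ⌊ε * ((2 * n : ℕ) : ℝ)⌋₊,
        (2 * ((2 * n : ℕ) : ℝ) * V (2 * n)) ^ d * G d * ∑ z ∈ Finset.Icc ((d + 2) / 3) d, E (2 * n - z)) / E (2 * n))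
        atTop (𝓝 0) ∧
      Tendsto (fun n : ℕ => (∑ d ∈ Finset.Icc 5 ⌊ε * ((2 * n + 1 : ℕ) : ℝ)⌋₊,
        (2 * ((2 * n + 1 : ℕ) : ℝ) * V (2 * n + 1)) ^ d * G d * ∑ z ∈ Finset.Icc ((d + 2) / 3) d, E (2 * n + 1 - z)) /
          E (2 * n))
        atTop (𝓝 0) := by
  obtain ⟨ε, hε0, hε1, M0, hterm⟩ := rel_term E G V c C hc hC hE1 hodd hgrow hG0 hG hV1 hV
  -- the sum for one `N`
  have hsum : ∀ M N a : ℕ, M0 ≤ M → (N = 2 * M ∨ N = 2 * M + 1) → 1 ≤ a → (N = 2 * M + 1 → 5 ≤ a) →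
      (∑ d ∈ Finset.Icc a ⌊ε * ((N : ℕ) : ℝ)⌋₊,
        (2 * ((N : ℕ) : ℝ) * V N) ^ d * G d * ∑ z ∈ Finset.Icc ((d + 2) / 3) d, E (N - z)) / E (2 * M) ≤
        N * N * (N + 1) * Real.exp (-(c / 54) * N) := by
    intro M N a hM hN ha ha5
    have hE0 : 0 < E (2 * M) := zero_lt_one.trans_le (hE1 _)
    rw [div_le_iff₀ hE0]
    have hB0 : 0 ≤ N * Real.exp (-(c / 54) * N) * E (2 * M) := by positivity
    have hfl : ⌊ε * (N : ℝ)⌋₊ ≤ N := by
      have h1 : ε * (N : ℝ) ≤ N := by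
        have h2 : (0 : ℝ) ≤ N := Nat.cast_nonneg _
        nlinarith
      exact (Nat.floor_le_floor h1).trans (by simp)
    have h1 : ∀ d ∈ Finset.Icc a ⌊ε * (N : ℝ)⌋₊,
        (2 * (N : ℝ) * V N) ^ d * G d * ∑ z ∈ Finset.Icc ((d + 2) / 3) d, E (N - z) ≤
          (N + 1) * (N * Real.exp (-(c / 54) * N) * E (2 * M)) := by
      intro d hd
      rw [Finset.mem_Icc] at hd
      have hdε : (d : ℝ) ≤ ε * N :=
        (Nat.le_floor_iff (by positivity)).1 hd.2
      rw [Finset.mul_sum]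
      have h2 : ∀ z ∈ Finset.Icc ((d + 2) / 3) d,
          (2 * (N : ℝ) * V N) ^ d * G d * E (N - z) ≤ N * Real.exp (-(c / 54) * N) * E (2 * M) := by
        intro z hz
        rw [Finset.mem_Icc] at hz
        exact hterm M N hM hN d (ha.trans hd.1) (fun h => (ha5 h).trans hd.1) hdε z hz.1 hz.2
      refine (Finset.sum_le_card_nsmul _ _ _ h2).trans ?_
      rw [nsmul_eq_mul]
      refine mul_le_mul_of_nonneg_right ?_ hB0
      have h3 : (Finset.Icc ((d + 2) / 3) d).card ≤ N + 1 := by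
        rw [Nat.card_Icc]
        have := hd.2.trans hfl
        omega
      exact_mod_cast h3
    refine (Finset.sum_le_card_nsmul _ _ _ h1).trans ?_
    rw [nsmul_eq_mul]
    have h4 : ((Finset.Icc a ⌊ε * (N : ℝ)⌋₊).card : ℝ) ≤ N := by
      have h5 : (Finset.Icc a ⌊ε * (N : ℝ)⌋₊).card ≤ N := by
        rw [Nat.card_Icc]
        omega
      exact_mod_cast h5
    calc ((Finset.Icc a ⌊ε * (N : ℝ)⌋₊).card : ℝ) * ((N + 1) * (N * Real.exp (-(c / 54) * N) * E (2 * M)))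
        ≤ N * ((N + 1) * (N * Real.exp (-(c / 54) * N) * E (2 * M))) :=
          mul_le_mul_of_nonneg_right h4 (by positivity)
      _ = N * N * (N + 1) * Real.exp (-(c / 54) * N) * E (2 * M) := by ring
  have hnn : ∀ M N a : ℕ, 0 ≤ (∑ d ∈ Finset.Icc a ⌊ε * ((N : ℕ) : ℝ)⌋₊,
        (2 * ((N : ℕ) : ℝ) * V N) ^ d * G d * ∑ z ∈ Finset.Icc ((d + 2) / 3) d, E (N - z)) / E (2 * M) := by
    intro M N a
    have hE0 : ∀ n, 0 ≤ E n := fun n => zero_le_one.trans (hE1 n)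
    have hV0 : 0 ≤ V N := zero_le_one.trans (hV1 N)
    refine div_nonneg (Finset.sum_nonneg fun d _ => mul_nonneg (mul_nonneg ?_ (hG0 d))
      (Finset.sum_nonneg fun z _ => hE0 _)) (hE0 _)
    positivity
  have hlim := rel_lim (c / 54) (by positivity)
  refine ⟨ε, hε0, ?_, ?_⟩
  · have h2n : Tendsto (fun n : ℕ => ((2 * n : ℕ) : ℝ)) atTop atTop := by
      refine tendsto_natCast_atTop_atTop.comp (tendsto_atTop_mono (fun n => ?_) tendsto_id)
      change n ≤ 2 * n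
      omega
    refine squeeze_zero' (Eventually.of_forall fun n => hnn n (2 * n) 1) ?_ (hlim.comp h2n)
    filter_upwards [eventually_ge_atTop M0] with n hn
    exact hsum n (2 * n) 1 hn (Or.inl rfl) le_rfl (fun h => by omega)
  · have h2n : Tendsto (fun n : ℕ => ((2 * n + 1 : ℕ) : ℝ)) atTop atTop := by
      refine tendsto_natCast_atTop_atTop.comp (tendsto_atTop_mono (fun n => ?_) tendsto_id)
      change n ≤ 2 * n + 1
      omega
    refine squeeze_zero' (Eventually.of_forall fun n => hnn n (2 * n + 1) 5) ?_ (hlim.comp h2n)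
    filter_upwards [eventually_ge_atTop M0] with n hn
    exact hsum n (2 * n + 1) 5 hn (Or.inr rfl) (by norm_num) (fun _ => le_rfl)

end Pool.Agent.SqA
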