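import Pool.Agent.SqA.Ch

/-!
The local lemma. `A` finite abelian of odd order, `M` an elementary abelian 2-group acting on `A`, `χ : M →* ℤˣ`.

Let `Ψ` be the set of the characters `ψ ≠ 1`, `ψ ≠ χ` with `E ψ ≠ 1`, `r = |Ψ|`, and choose `v_ψ ∈ E ψ`, `v_ψ ≠ 1`. If
`Ψ` is empty take `Y = {1}`, otherwise `Y = {v_ψ, v_ψ⁻¹ : ψ ∈ Ψ}` (`2 r` elements). For `z ∉ Y` let `z_ψ` be the components of
`z` (`exists_dec`); `m • z = z` iff `ψ m = 1` for all `ψ` with `z_ψ ≠ 1` (`dec_unique`, odd order). Take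
`b = (χ ≠ 1 and z_χ ≠ 1)` (or `b = (z_χ ≠ 1)`, the condition `χ m = 1` is empty for `χ = 1`), `Σ = {ψ ∈ Ψ : z_ψ ≠ 1}` and
`F = {v_ψ : ψ ∈ Σ}` if `Σ` is not empty (`m • v_ψ = v_ψ⁻¹` is not in `F`: `v_ψ⁻¹ = v_φ` gives `φ = ψ`, `v_ψ² = 1`),
`F = {v_ψ, v_ψ⁻¹}` for one `ψ ∈ Ψ` if `Σ` is empty and `Ψ` is not, `F = {1}` if `Ψ` is empty.
`|E χ| 3 ^ r ≤ |A|`: the products of an element of `E χ` and one element of each `E ψ`, `ψ ∈ Ψ`, `|E ψ| ≥ 3` (odd), are
different.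
-/

set_option autoImplicit false

namespace Pool.Agent.SqA

private theorem sq_one {A : Type} [CommGroup A] [Finite A] (hA : Odd (Nat.card A)) {a : A} (h : a * a = 1) :
    a = 1 := by
  have h1 : orderOf a ∣ 2 := orderOf_dvd_of_pow_eq_one (by rw [pow_two, h])
  have h2 : orderOf a ∣ Nat.card A := orderOf_dvd_natCard a
  have h3 : orderOf a ∣ Nat.gcd 2 (Nat.card A) := Nat.dvd_gcd h1 h2
  have h4 : Nat.gcd 2 (Nat.card A) = 1 := (Nat.coprime_two_left).2 hA
  rw [h4, Nat.dvd_one, orderOf_eq_one_iff] at h3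
  exact h3

private theorem units_cases (u : ℤˣ) : u = 1 ∨ u = -1 := Int.units_eq_one_or u

section
variable {M A : Type} [CommGroup M] [Finite M] [CommGroup A] [Finite A] [MulDistribMulAction M A]

private theorem smul_of_one {ψ : M →* ℤˣ} {a : A} (ha : a ∈ E M A ψ) {m : M} (h : ψ m = 1) : m • a = a := by
  rw [ha m, h, Units.val_one, zpow_one]

private theorem smul_of_neg {ψ : M →* ℤˣ} {a : A} (ha : a ∈ E M A ψ) {m : M} (h : ψ m = -1) : m • a = a⁻¹ := by
  rw [ha m, h, Units.val_neg, Units.val_one, zpow_neg, zpow_one]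

private theorem inv_ne (hA : Odd (Nat.card A)) {a : A} (ha : a ≠ 1) : a⁻¹ ≠ a := by
  intro h
  apply ha
  apply sq_one hA
  nth_rewrite 1 [← h]
  exact inv_mul_cancel a

private theorem smul_eq_iff (hA : Odd (Nat.card A)) {ψ : M →* ℤˣ} {a : A} (ha : a ∈ E M A ψ) (h1 : a ≠ 1)
    {m : M} : m • a = a ↔ ψ m = 1 := by
  constructor
  · intro h
    rcases units_cases (ψ m) with h2 | h2
    · exact h2
    · rw [smul_of_neg ha h2] at h
      exact absurd h (inv_ne hA h1)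
  · exact smul_of_one ha

private theorem char_unique (hA : Odd (Nat.card A)) {ψ φ : M →* ℤˣ} {a : A} (ha : a ∈ E M A ψ)
    (hb : a ∈ E M A φ) (h1 : a ≠ 1) : ψ = φ := by
  ext m
  have h2 := smul_eq_iff hA ha h1 (m := m)
  have h3 := smul_eq_iff hA hb h1 (m := m)
  rcases units_cases (ψ m) with h4 | h4 <;> rcases units_cases (φ m) with h5 | h5
  · rw [h4, h5]
  · have h6 := h3.1 (h2.2 h4)
    rw [h4, h6]
  · have h6 := h2.1 (h3.2 h5)
    rw [h5, h6]
  · rw [h4, h5]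

private theorem fix_iff [Fintype (M →* ℤˣ)] (hM : ∀ m : M, m * m = 1) (hA : Odd (Nat.card A))
    {f : (M →* ℤˣ) → A} (hf : ∀ ψ, f ψ ∈ E M A ψ) (m : M) :
    m • (∏ ψ, f ψ) = ∏ ψ, f ψ ↔ ∀ ψ, f ψ ≠ 1 → ψ m = 1 := by
  rw [Finset.smul_prod']
  constructor
  · intro h ψ h1
    have hg : ∀ ψ, m • f ψ ∈ E M A ψ := by
      intro ψ
      rw [hf ψ m]
      exact Subgroup.zpow_mem _ (hf ψ) _
    have h2 := congrFun (dec_unique M A hM hA (fun ψ => m • f ψ) f hg hf h) ψ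
    exact (smul_eq_iff hA (hf ψ) h1).1 h2
  · intro h
    refine Finset.prod_congr rfl fun ψ _ => ?_
    by_cases h1 : f ψ = 1
    · rw [h1, smul_one]
    · exact smul_of_one (hf ψ) (h ψ h1)

end

theorem loc (M A : Type) [CommGroup M] [Finite M] [CommGroup A] [Finite A] [MulDistribMulAction M A] [DecidableEq A]
    (hM : ∀ m : M, m * m = 1) (hA : Odd (Nat.card A)) (χ : M →* ℤˣ) :
    ∃ Y : Finset A, Y.Nonempty ∧ (∀ m : M, ∀ y ∈ Y, m • y ∈ Y) ∧
      (∀ z : A, z ∉ Y → ∃ F : Finset A, F ⊆ Y ∧ F.Nonempty ∧ ∃ b : Prop,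
        ∀ m : M, m • z = z ↔ (F.image (fun a => m • a) = F ∧ (b → χ m = 1))) ∧
      ∃ r : ℕ, Nat.card (E M A χ) * 3 ^ r ≤ Nat.card A ∧ Y.card ≤ max 1 (2 * r) := by
  classical
  have hfc : Finite (M →* ℤˣ) := finite_char M
  let _ : Fintype (M →* ℤˣ) := Fintype.ofFinite _
  let Ps : Finset (M →* ℤˣ) := Finset.univ.filter (fun ψ => ψ ≠ 1 ∧ ψ ≠ χ ∧ E M A ψ ≠ ⊥)
  have hPs : ∀ ψ, ψ ∈ Ps ↔ (ψ ≠ 1 ∧ ψ ≠ χ ∧ E M A ψ ≠ ⊥) := by
    intro ψ
    simp [Ps]
  -- the cardinality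
  have hcard : Nat.card (E M A χ) * 3 ^ Ps.card ≤ Nat.card A := by
    have h1 : ∏ ψ : M →* ℤˣ, Nat.card (E M A ψ) ≤ Nat.card A := by
      rw [← Nat.card_pi]
      refine Nat.card_le_card_of_injective (fun g : (∀ ψ : M →* ℤˣ, E M A ψ) => ∏ ψ, (g ψ : A)) ?_
      intro g g' hgg
      have h2 := dec_unique M A hM hA (fun ψ => (g ψ : A)) (fun ψ => (g' ψ : A)) (fun ψ => (g ψ).2)
        (fun ψ => (g' ψ).2) hgg
      funext ψ
      exact Subtype.ext (congrFun h2 ψ)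
    have h2 : χ ∉ Ps := fun h => ((hPs χ).1 h).2.1 rfl
    have h3 : ∏ ψ ∈ insert χ Ps, Nat.card (E M A ψ) ≤ ∏ ψ : M →* ℤˣ, Nat.card (E M A ψ) := by
      rw [← Finset.prod_sdiff (Finset.subset_univ (insert χ Ps))]
      exact Nat.le_mul_of_pos_left _ (Finset.prod_pos fun ψ _ => Nat.card_pos)
    rw [Finset.prod_insert h2] at h3
    have h4 : 3 ^ Ps.card ≤ ∏ ψ ∈ Ps, Nat.card (E M A ψ) := by
      rw [← Finset.prod_const]
      refine Finset.prod_le_prod (fun _ _ => Nat.zero_le _) fun ψ hψ => ?_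
      have h5 := ((hPs ψ).1 hψ).2.2
      have h6 : 1 < Nat.card (E M A ψ) := (Subgroup.one_lt_card_iff_ne_bot _).2 h5
      have h7 : Odd (Nat.card (E M A ψ)) := hA.of_dvd_nat (Subgroup.card_subgroup_dvd_card _)
      obtain ⟨k, hk⟩ := h7
      omega
    exact ((Nat.mul_le_mul_left _ h4).trans h3).trans h1
  -- the elements `v ψ`
  have hv : ∀ ψ : M →* ℤˣ, ψ ∈ Ps → ∃ v ∈ E M A ψ, v ≠ 1 := by
    intro ψ hψ
    obtain ⟨v, hv1, hv2⟩ := (E M A ψ).bot_or_exists_ne_one.resolve_left ((hPs ψ).1 hψ).2.2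
    exact ⟨v, hv1, hv2⟩
  choose! v hvE hv1 using hv
  -- decomposition
  have hdec : ∀ z : A, ∃ f : (M →* ℤˣ) → A, (∀ ψ, f ψ ∈ E M A ψ) ∧ ∏ ψ, f ψ = z :=
    fun z => exists_dec M A hM hA z
  have hmain : ∀ f : (M →* ℤˣ) → A, (∀ ψ, f ψ ∈ E M A ψ) → ∀ m : M, (∀ ψ, f ψ ≠ 1 → ψ m = 1) ↔
      ((∀ ψ ∈ Ps, f ψ ≠ 1 → ψ m = 1) ∧ (f χ ≠ 1 → χ m = 1)) := by
    intro f hf m
    constructor
    · intro h
      exact ⟨fun ψ _ => h ψ, h χ⟩
    · rintro ⟨h1, h2⟩ ψ h3
      by_cases h4 : ψ = 1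
      · rw [h4]; rfl
      by_cases h5 : ψ = χ
      · rw [h5] at h3 ⊢
        exact h2 h3
      · refine h1 ψ ((hPs ψ).2 ⟨h4, h5, ?_⟩) h3
        intro hbot
        have := hf ψ
        rw [hbot, Subgroup.mem_bot] at this
        exact h3 this
  rcases Ps.eq_empty_or_nonempty with hE | ⟨ψ0, hψ0⟩
  · refine ⟨{1}, Finset.singleton_nonempty 1, ?_, ?_, 0, ?_, ?_⟩
    · intro m y hy
      rw [Finset.mem_singleton] at hy ⊢
      rw [hy, smul_one]
    · intro z _
      obtain ⟨f, hf, rfl⟩ := hdec z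
      refine ⟨{1}, subset_rfl, Finset.singleton_nonempty 1, f χ ≠ 1, fun m => ?_⟩
      rw [fix_iff hM hA hf m, hmain f hf m, hE]
      simp
    · rw [hE, Finset.card_empty] at hcard
      exact hcard
    · simp
  · have hmem : ∀ x, x ∈ Ps.image v ∪ Ps.image (fun ψ => (v ψ)⁻¹) ↔
        (∃ ψ ∈ Ps, v ψ = x) ∨ ∃ ψ ∈ Ps, (v ψ)⁻¹ = x := by
      intro x
      rw [Finset.mem_union, Finset.mem_image, Finset.mem_image]
    refine ⟨Ps.image v ∪ Ps.image (fun ψ => (v ψ)⁻¹), ⟨v ψ0, (hmem _).2 (Or.inl ⟨ψ0, hψ0, rfl⟩)⟩, ?_, ?_,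
      Ps.card, hcard, ?_⟩
    · intro m y hy
      rw [hmem] at hy ⊢
      rcases hy with ⟨ψ, hψ, rfl⟩ | ⟨ψ, hψ, rfl⟩
      · rcases units_cases (ψ m) with h | h
        · exact Or.inl ⟨ψ, hψ, (smul_of_one (hvE ψ hψ) h).symm⟩
        · exact Or.inr ⟨ψ, hψ, (smul_of_neg (hvE ψ hψ) h).symm⟩
      · rcases units_cases (ψ m) with h | h
        · exact Or.inr ⟨ψ, hψ, (smul_of_one ((E M A ψ).inv_mem (hvE ψ hψ)) h).symm⟩
        · refine Or.inl ⟨ψ, hψ, ?_⟩
          rw [smul_of_neg ((E M A ψ).inv_mem (hvE ψ hψ)) h, inv_inv]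
    · intro z _
      obtain ⟨f, hf, rfl⟩ := hdec z
      rcases (Ps.filter (fun ψ => f ψ ≠ 1)).eq_empty_or_nonempty with hS | hS
      · refine ⟨{v ψ0, (v ψ0)⁻¹}, ?_, ⟨v ψ0, by simp⟩, f χ ≠ 1, fun m => ?_⟩
        · intro x hx
          rw [Finset.mem_insert, Finset.mem_singleton] at hx
          rw [hmem]
          rcases hx with rfl | rfl
          · exact Or.inl ⟨ψ0, hψ0, rfl⟩
          · exact Or.inr ⟨ψ0, hψ0, rfl⟩
        · rw [fix_iff hM hA hf m, hmain f hf m]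
          have h1 : ({v ψ0, (v ψ0)⁻¹} : Finset A).image (fun a => m • a) = {v ψ0, (v ψ0)⁻¹} := by
            rw [Finset.image_insert, Finset.image_singleton]
            rcases units_cases (ψ0 m) with h | h
            · rw [smul_of_one (hvE ψ0 hψ0) h, smul_of_one ((E M A ψ0).inv_mem (hvE ψ0 hψ0)) h]
            · rw [smul_of_neg (hvE ψ0 hψ0) h, smul_of_neg ((E M A ψ0).inv_mem (hvE ψ0 hψ0)) h, inv_inv,
                Finset.pair_comm]
          have h2 : ∀ ψ ∈ Ps, f ψ ≠ 1 → ψ m = 1 := by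
            intro ψ hψ h3
            have : ψ ∈ Ps.filter (fun ψ => f ψ ≠ 1) := Finset.mem_filter.2 ⟨hψ, h3⟩
            rw [hS] at this
            exact absurd this (Finset.notMem_empty ψ)
          exact ⟨fun h => ⟨h1, h.2⟩, fun h => ⟨h2, h.2⟩⟩
      · refine ⟨(Ps.filter (fun ψ => f ψ ≠ 1)).image v, ?_, hS.image v, f χ ≠ 1, fun m => ?_⟩
        · intro x hx
          rw [Finset.mem_image] at hx
          obtain ⟨ψ, hψ, rfl⟩ := hx
          rw [hmem]
          exact Or.inl ⟨ψ, (Finset.mem_filter.1 hψ).1, rfl⟩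
        · rw [fix_iff hM hA hf m, hmain f hf m]
          refine and_congr_left fun _ => ?_
          constructor
          · intro h
            ext x
            rw [Finset.mem_image]
            constructor
            · rintro ⟨y, hy, rfl⟩
              obtain ⟨ψ, hψ, rfl⟩ := Finset.mem_image.1 hy
              obtain ⟨h1, h2⟩ := Finset.mem_filter.1 hψ
              change m • v ψ ∈ _
              rw [smul_of_one (hvE ψ h1) (h ψ h1 h2)]
              exact hy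
            · intro hx
              obtain ⟨ψ, hψ, rfl⟩ := Finset.mem_image.1 hx
              obtain ⟨h1, h2⟩ := Finset.mem_filter.1 hψ
              exact ⟨v ψ, hx, smul_of_one (hvE ψ h1) (h ψ h1 h2)⟩
          · intro h ψ h1 h2
            have h3 : v ψ ∈ (Ps.filter (fun ψ => f ψ ≠ 1)).image v :=
              Finset.mem_image_of_mem v (Finset.mem_filter.2 ⟨h1, h2⟩)
            have h4 : m • v ψ ∈ (Ps.filter (fun ψ => f ψ ≠ 1)).image v := by
              have := Finset.mem_image_of_mem (fun a => m • a) h3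
              rw [h] at this
              exact this
            rcases units_cases (ψ m) with h5 | h5
            · exact h5
            · exfalso
              rw [smul_of_neg (hvE ψ h1) h5] at h4
              obtain ⟨φ, hφ, h6⟩ := Finset.mem_image.1 h4
              obtain ⟨h7, h8⟩ := Finset.mem_filter.1 hφ
              have h9 : φ = ψ := by
                refine char_unique hA (hvE φ h7) ?_ (hv1 φ h7)
                rw [h6]
                exact (E M A ψ).inv_mem (hvE ψ h1)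
              rw [h9] at h6
              exact inv_ne hA (hv1 ψ h1) h6.symm
    · refine (Finset.card_union_le _ _).trans (le_max_of_le_right ?_)
      have h1 : (Ps.image v).card ≤ Ps.card := Finset.card_image_le
      have h2 : (Ps.image (fun ψ => (v ψ)⁻¹)).card ≤ Ps.card := Finset.card_image_le
      omega

end Pool.Agent.SqA
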