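import Pool.Agent.SqA.Defs
import Pool.Agent.SqA.Loc
import Pool.Agent.AbS.HatA

/-!
One orbit of `O`. Let `B` be the orbit of `x` under `O`, `M = {l ∈ L : l x ∈ B}`.

`|B|` divides `|O|` (orbit - stabilizer), so it is odd, and the 2-group `M` has a fixed point `w ∈ B`
(`IsPGroup.nonempty_fixed_point_of_prime_not_dvd_card` or `IsPGroup.card_modEq_card_fixedPoints`). Let `A` be the group of
the `v ∈ hat O` with `v y = y` outside `B`: abelian (`hat_comm`), and `v ↦ v w` is a bijection of `A` onto `B` (injective by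
`hat_eq_on_orbit`; for `y = o w` take `v = o` on `B`, `v = 1` outside). `L` normalises `hat O` because it normalises `O`
(it permutes the orbits of `O`), so `M` acts on `A` by conjugation, and `(l v l⁻¹) w = l (v w)`. Apply `loc` to `M`, `A`,
`χ` restricted to `M`; `Y = {a w : a ∈ Y'}`; for `z = a w` take `F = {f w : f ∈ F'}`. If `l ∈ L` is not in `M`, neither
`l z = z` nor `F.image l = F` is possible (`F` is a nonempty subset of `B`).
-/

set_option autoImplicit false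

namespace Pool.Agent.SqA

open Equiv Pool.Agent.AbS

/-- The elements of `hat O` supported on the orbit of `x` on which the stabilizer of the orbit acts by `χ`. -/
def eigB {Ω : Type} (O L : Subgroup (Perm Ω)) (χ : L →* ℤˣ) (x : Ω) : Set (Perm Ω) :=
  {v | v ∈ hat O ∧ (∀ y, y ∉ MulAction.orbit O x → v y = y) ∧
    ∀ (l : Perm Ω) (hl : l ∈ L), l x ∈ MulAction.orbit O x → l * v * l⁻¹ = v ^ ((χ ⟨l, hl⟩ : ℤˣ) : ℤ)}

/-- What `Y` does for the orbit of `x`. -/
def BlockData {n : ℕ} (O L : Subgroup (Perm (Fin n))) (χ : L →* ℤˣ) (x : Fin n) (Y : Finset (Fin n)) : Prop :=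
  Y.Nonempty ∧ (∀ y ∈ Y, y ∈ MulAction.orbit O x) ∧
  (∀ l ∈ L, l x ∈ MulAction.orbit O x → ∀ y ∈ Y, l y ∈ Y) ∧
  (∀ z, z ∈ MulAction.orbit O x → z ∉ Y → ∃ F : Finset (Fin n), F ⊆ Y ∧ F.Nonempty ∧ ∃ b : Prop,
    ∀ (l : Perm (Fin n)) (hl : l ∈ L), l z = z ↔ (F.image (⇑l) = F ∧ (b → χ ⟨l, hl⟩ = 1))) ∧
  ∃ r : ℕ, Nat.card (eigB O L χ x) * 3 ^ r ≤ Nat.card (MulAction.orbit O x) ∧ Y.card ≤ max 1 (2 * r)

private theorem mem_orb {Ω : Type} {H : Subgroup (Perm Ω)} {x y : Ω} :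
    y ∈ MulAction.orbit H x ↔ ∃ k ∈ H, k x = y := by
  constructor
  · rintro ⟨⟨g, hg⟩, rfl⟩
    exact ⟨g, hg, rfl⟩
  · rintro ⟨k, hk, rfl⟩
    exact ⟨⟨k, hk⟩, rfl⟩

private theorem orb_self {Ω : Type} (H : Subgroup (Perm Ω)) (x : Ω) : x ∈ MulAction.orbit H x :=
  MulAction.mem_orbit_self x

private theorem orb_eq {Ω : Type} {H : Subgroup (Perm Ω)} {x y : Ω} (h : y ∈ MulAction.orbit H x) :
    MulAction.orbit H y = MulAction.orbit H x := MulAction.orbit_eq_iff.2 h

private theorem orb_apply {Ω : Type} {H : Subgroup (Perm Ω)} {x y : Ω} {k : Perm Ω} (hk : k ∈ H) :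
    k y ∈ MulAction.orbit H x ↔ y ∈ MulAction.orbit H x := by
  have h1 : k y ∈ MulAction.orbit H y := mem_orb.2 ⟨k, hk, rfl⟩
  constructor
  · intro h
    rw [← orb_eq h, orb_eq h1]
    exact orb_self H y
  · intro h
    rw [← orb_eq h]
    exact h1

private theorem hat_orb {Ω : Type} {H : Subgroup (Perm Ω)} {x y : Ω} {v : Perm Ω} (hv : v ∈ hat H) :
    v y ∈ MulAction.orbit H x ↔ y ∈ MulAction.orbit H x := by
  obtain ⟨k, hk, h1⟩ := hv y
  rw [h1 y (orb_self H y)]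
  exact orb_apply hk

private theorem orbit_image_aux {Ω : Type} {O L : Subgroup (Perm Ω)} (h : Nrm L O) {l : Perm Ω} (hl : l ∈ L)
    (x y : Ω) (hy : y ∈ MulAction.orbit O x) : l y ∈ MulAction.orbit O (l x) := by
  obtain ⟨k, hk, rfl⟩ := mem_orb.1 hy
  refine mem_orb.2 ⟨l * k * l⁻¹, h l hl k hk, ?_⟩
  simp

/-- `L` permutes the orbits of `O`. -/
theorem Pair.orbit_image {Ω : Type} [Finite Ω] {O L : Subgroup (Perm Ω)} (h : Pair O L) {l : Perm Ω} (hl : l ∈ L)
    (x y : Ω) : y ∈ MulAction.orbit O x ↔ l y ∈ MulAction.orbit O (l x) := by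
  constructor
  · exact orbit_image_aux h.2.2 hl x y
  · intro h1
    have h2 := orbit_image_aux h.2.2 (L.inv_mem hl) _ _ h1
    simpa using h2

theorem Pair.hat_nrm {Ω : Type} [Finite Ω] {O L : Subgroup (Perm Ω)} (h : Pair O L) : Nrm L (hat O) := by
  intro l hl v hv x
  obtain ⟨k, hk, h1⟩ := hv (l⁻¹ x)
  refine ⟨l * k * l⁻¹, h.2.2 l hl k hk, fun y hy => ?_⟩
  have h2 : l⁻¹ y ∈ MulAction.orbit O (l⁻¹ x) := (h.orbit_image (L.inv_mem hl) x y).1 hy
  simp only [Perm.mul_apply]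
  rw [h1 _ h2]

private theorem Pair.odd_card {Ω : Type} {O L : Subgroup (Perm Ω)} (h : Pair O L) : Odd (Nat.card O) := by
  rw [← Nat.not_even_iff_odd, even_iff_two_dvd]
  intro h2
  have := h.1.2 2 Nat.prime_two h2
  omega

private theorem card_orbit_dvd {Ω : Type} {H : Subgroup (Perm Ω)} (x : Ω) :
    Nat.card (MulAction.orbit H x) ∣ Nat.card H := by
  rw [Nat.card_congr (MulAction.orbitEquivQuotientStabilizer H x)]
  exact Subgroup.index_dvd_card _

/-- The orbits of `O` in the support have an odd number `≥ 3` of points. -/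
theorem Pair.orbit_odd {n : ℕ} {O L : Subgroup (Perm (Fin n))} (h : Pair O L) {x : Fin n} (hx : x ∈ supp O) :
    Odd (Nat.card (MulAction.orbit O x)) ∧ 3 ≤ Nat.card (MulAction.orbit O x) := by
  have h1 : Odd (Nat.card (MulAction.orbit O x)) := Odd.of_dvd_nat h.odd_card (card_orbit_dvd x)
  refine ⟨h1, ?_⟩
  obtain ⟨o, ho, hox⟩ := mem_supp.1 hx
  have h2 : 1 < Nat.card (MulAction.orbit O x) := by
    rw [Finite.one_lt_card_iff_nontrivial]
    refine ⟨⟨x, orb_self O x⟩, ⟨o x, mem_orb.2 ⟨o, ho, rfl⟩⟩, fun h3 => hox ?_⟩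
    exact (congrArg Subtype.val h3).symm
  obtain ⟨k, hk⟩ := h1
  omega

/-- The stabilizer of an orbit. -/
private def stb {Ω : Type} (O L : Subgroup (Perm Ω)) (x : Ω) : Subgroup (Perm Ω) where
  carrier := {l | l ∈ L ∧ ∀ y, l y ∈ MulAction.orbit O x ↔ y ∈ MulAction.orbit O x}
  mul_mem' := by
    rintro a b ⟨ha, ha'⟩ ⟨hb, hb'⟩
    refine ⟨L.mul_mem ha hb, fun y => ?_⟩
    rw [Perm.mul_apply, ha', hb']
  one_mem' := ⟨L.one_mem, fun _ => Iff.rfl⟩
  inv_mem' := by
    rintro a ⟨ha, ha'⟩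
    refine ⟨L.inv_mem ha, fun y => ?_⟩
    rw [← ha' (a⁻¹ y)]
    simp

/-- The elements of `hat O` supported on one orbit. -/
private def lcl {Ω : Type} (O : Subgroup (Perm Ω)) (x : Ω) : Subgroup (Perm Ω) where
  carrier := {v | v ∈ hat O ∧ ∀ y, y ∉ MulAction.orbit O x → v y = y}
  mul_mem' := by
    rintro a b ⟨ha, ha'⟩ ⟨hb, hb'⟩
    refine ⟨(hat O).mul_mem ha hb, fun y hy => ?_⟩
    rw [Perm.mul_apply, hb' y hy, ha' y hy]
  one_mem' := ⟨(hat O).one_mem, fun _ _ => rfl⟩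
  inv_mem' := by
    rintro a ⟨ha, ha'⟩
    refine ⟨(hat O).inv_mem ha, fun y hy => ?_⟩
    rw [Perm.inv_eq_iff_eq, ha' y hy]

private theorem mem_stb {Ω : Type} [Finite Ω] {O L : Subgroup (Perm Ω)} (h : Pair O L) {x y : Ω} {l : Perm Ω} (hl : l ∈ L)
    (hy : y ∈ MulAction.orbit O x) (hly : l y ∈ MulAction.orbit O x) : l ∈ stb O L x := by
  refine ⟨hl, fun z => ?_⟩
  rw [h.orbit_image hl x z, ← orb_eq hly, ← orb_eq ((h.orbit_image hl x y).1 hy)]

private theorem conj_mem {Ω : Type} [Finite Ω] {O L : Subgroup (Perm Ω)} (h : Pair O L) {x : Ω} {l v : Perm Ω}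
    (hl : l ∈ stb O L x) (hv : v ∈ lcl O x) : l * v * l⁻¹ ∈ lcl O x := by
  refine ⟨h.hat_nrm l hl.1 v hv.1, fun y hy => ?_⟩
  have h1 : l⁻¹ y ∉ MulAction.orbit O x := by
    intro h2
    apply hy
    have := (hl.2 (l⁻¹ y)).2 h2
    simpa using this
  simp only [Perm.mul_apply]
  rw [hv.2 _ h1]
  simp

/-- A subgroup with commuting elements. -/
private abbrev cg {G : Type} [Group G] (K : Subgroup G) (hK : ∀ a ∈ K, ∀ b ∈ K, a * b = b * a) : CommGroup K :=
  { (inferInstance : Group K) with mul_comm := fun a b => Subtype.ext (hK a a.2 b b.2) }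

private theorem el_comm {Ω : Type} {L : Subgroup (Perm Ω)} (h : El L) : ∀ a ∈ L, ∀ b ∈ L, a * b = b * a := by
  intro a ha b hb
  have h1 := h _ (L.mul_mem ha hb)
  have h2 : a⁻¹ = a := inv_eq_of_mul_eq_one_right (h a ha)
  have h3 : b⁻¹ = b := inv_eq_of_mul_eq_one_right (h b hb)
  have h4 : (a * b)⁻¹ = a * b := inv_eq_of_mul_eq_one_right h1
  rw [← h4, mul_inv_rev, h2, h3]

private theorem exists_fixed {n : ℕ} {O L : Subgroup (Perm (Fin n))} (h : Pair O L) {x : Fin n} (hx : x ∈ supp O) :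
    ∃ w ∈ MulAction.orbit O x, ∀ l ∈ stb O L x, l w = w := by
  let _ : MulAction (stb O L x) {y // y ∈ MulAction.orbit O x} :=
    { smul := fun l y => ⟨(l : Perm (Fin n)) y, (l.2.2 y).2 y.2⟩
      one_smul := fun _ => rfl
      mul_smul := fun _ _ _ => rfl }
  have hp : IsPGroup 2 (stb O L x) := by
    intro l
    refine ⟨1, Subtype.ext ?_⟩
    rw [pow_one, pow_two]
    exact h.2.1 l l.2.1
  have hnd : ¬ 2 ∣ Nat.card {y // y ∈ MulAction.orbit O x} := by
    rw [← even_iff_two_dvd, Nat.not_even_iff_odd]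
    exact (h.orbit_odd hx).1
  have _ : Fact (Nat.Prime 2) := ⟨Nat.prime_two⟩
  obtain ⟨w, hw⟩ := hp.nonempty_fixed_point_of_prime_not_dvd_card {y // y ∈ MulAction.orbit O x} hnd
  exact ⟨w.1, w.2, fun l hl => congrArg Subtype.val (hw ⟨l, hl⟩)⟩

private theorem exists_lcl {Ω : Type} {O : Subgroup (Perm Ω)} {x w y : Ω} (hw : w ∈ MulAction.orbit O x)
    (hy : y ∈ MulAction.orbit O x) : ∃ v ∈ lcl O x, v w = y := by
  classical
  rw [← orb_eq hw] at hy
  obtain ⟨o, ho, rfl⟩ := mem_orb.1 hy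
  have ho' : ∀ z, o z ∈ MulAction.orbit O x ↔ z ∈ MulAction.orbit O x := fun z => orb_apply ho
  have hz1 : ∀ z, z ∈ MulAction.orbit O x →
      Perm.ofSubtype (o.subtypePerm (p := fun z => z ∈ MulAction.orbit O x) ho') z = o z := by
    intro z hz
    rw [Perm.ofSubtype_apply_of_mem _ hz]
    rfl
  have hz2 : ∀ z, z ∉ MulAction.orbit O x →
      Perm.ofSubtype (o.subtypePerm (p := fun z => z ∈ MulAction.orbit O x) ho') z = z := by
    intro z hz
    rw [Perm.ofSubtype_apply_of_not_mem _ hz]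
  refine ⟨Perm.ofSubtype (o.subtypePerm (p := fun z => z ∈ MulAction.orbit O x) ho'), ⟨fun z => ?_, hz2⟩, hz1 w hw⟩
  by_cases hz : z ∈ MulAction.orbit O x
  · exact ⟨o, ho, fun t ht => hz1 t (by rw [← orb_eq hz]; exact ht)⟩
  · refine ⟨1, O.one_mem, fun t ht => ?_⟩
    rw [hz2 t]
    · rfl
    · intro ht'
      apply hz
      rw [← orb_eq ht', orb_eq ht]
      exact orb_self O z

private theorem lcl_inj {Ω : Type} {O : Subgroup (Perm Ω)} (hab : ∀ a ∈ O, ∀ b ∈ O, a * b = b * a) {x w : Ω}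
    (hw : w ∈ MulAction.orbit O x) {u v : Perm Ω} (hu : u ∈ lcl O x) (hv : v ∈ lcl O x) (h : u w = v w) : u = v := by
  ext y
  by_cases hy : y ∈ MulAction.orbit O x
  · exact hat_eq_on_orbit hab hu.1 hv.1 h y (by rw [orb_eq hw]; exact hy)
  · rw [hu.2 y hy, hv.2 y hy]

theorem block {n : ℕ} {O L : Subgroup (Perm (Fin n))} (h : Pair O L) (χ : L →* ℤˣ) {x : Fin n} (hx : x ∈ supp O) :
    ∃ Y : Finset (Fin n), BlockData O L χ x Y := by
  classical
  obtain ⟨w, hw, hfix⟩ := exists_fixed h hx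
  let _ : CommGroup (stb O L x) := cg _ (fun a ha b hb => el_comm h.2.1 a ha.1 b hb.1)
  let _ : CommGroup (lcl O x) := cg _ (fun a ha b hb => hat_comm h.1.1 a ha.1 b hb.1)
  let _ : MulDistribMulAction (stb O L x) (lcl O x) :=
    { smul := fun l v => ⟨l * v * (l : Perm (Fin n))⁻¹, conj_mem h l.2 v.2⟩
      one_smul := fun v => Subtype.ext (by
        change (1 : Perm (Fin n)) * v * (1 : Perm (Fin n))⁻¹ = v
        simp)
      mul_smul := fun a b v => Subtype.ext (by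
        change ((a : Perm (Fin n)) * b) * v * ((a : Perm (Fin n)) * b)⁻¹ =
          a * (b * v * (b : Perm (Fin n))⁻¹) * (a : Perm (Fin n))⁻¹
        group)
      smul_mul := fun a u v => Subtype.ext (by
        change (a : Perm (Fin n)) * (u * v) * (a : Perm (Fin n))⁻¹ =
          (a * u * (a : Perm (Fin n))⁻¹) * (a * v * (a : Perm (Fin n))⁻¹)
        group)
      smul_one := fun a => Subtype.ext (by
        change (a : Perm (Fin n)) * 1 * (a : Perm (Fin n))⁻¹ = 1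
        group) }
  have hsm : ∀ (l : stb O L x) (v : lcl O x), ((l • v : lcl O x) : Perm (Fin n)) =
      l * v * (l : Perm (Fin n))⁻¹ := fun _ _ => rfl
  set ev : lcl O x → Fin n := fun v => (v : Perm (Fin n)) w with hev
  have evinj : Function.Injective ev := fun u v huv => Subtype.ext (lcl_inj h.1.1 hw u.2 v.2 huv)
  have evmem : ∀ v : lcl O x, ev v ∈ MulAction.orbit O x := fun v => (hat_orb v.2.1).2 hw
  have evsurj : ∀ y ∈ MulAction.orbit O x, ∃ v : lcl O x, ev v = y := by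
    intro y hy
    obtain ⟨v, hv, hvy⟩ := exists_lcl hw hy
    exact ⟨⟨v, hv⟩, hvy⟩
  have evsm : ∀ (l : stb O L x) (v : lcl O x), ev (l • v) = (l : Perm (Fin n)) (ev v) := by
    intro l v
    have h1 : ((l : Perm (Fin n))⁻¹) w = w := hfix _ ((stb O L x).inv_mem l.2)
    simp only [hev, hsm, Perm.mul_apply]
    rw [h1]
  have hcard : Nat.card (lcl O x) = Nat.card (MulAction.orbit O x) := by
    refine Nat.card_congr (Equiv.ofBijective (fun v => (⟨ev v, evmem v⟩ : MulAction.orbit O x)) ⟨?_, ?_⟩)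
    · intro u v huv
      exact evinj (congrArg Subtype.val huv)
    · rintro ⟨y, hy⟩
      obtain ⟨v, hv⟩ := evsurj y hy
      exact ⟨v, Subtype.ext hv⟩
  have hodd : Odd (Nat.card (lcl O x)) := by
    rw [hcard]
    exact (h.orbit_odd hx).1
  set χ' : stb O L x →* ℤˣ :=
    { toFun := fun l => χ ⟨l, l.2.1⟩
      map_one' := map_one χ
      map_mul' := fun a b => map_mul χ ⟨a, a.2.1⟩ ⟨b, b.2.1⟩ } with hχ'
  have hχ'a : ∀ l : stb O L x, χ' l = χ ⟨l, l.2.1⟩ := fun _ => rfl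
  obtain ⟨Y', hY1, hY2, hY3, r, hr1, hr2⟩ := loc (stb O L x) (lcl O x)
    (fun m => Subtype.ext (h.2.1 m m.2.1)) hodd χ'
  refine ⟨Y'.image ev, hY1.image ev, ?_, ?_, ?_, r, ?_, ?_⟩
  · intro y hy
    obtain ⟨v, _, rfl⟩ := Finset.mem_image.1 hy
    exact evmem v
  · intro l hl hlx y hy
    obtain ⟨v, hv, rfl⟩ := Finset.mem_image.1 hy
    have hlm : l ∈ stb O L x := mem_stb h hl (orb_self O x) hlx
    exact Finset.mem_image.2 ⟨(⟨l, hlm⟩ : stb O L x) • v, hY2 ⟨l, hlm⟩ v hv, evsm ⟨l, hlm⟩ v⟩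
  · intro z hz hzY
    obtain ⟨a, rfl⟩ := evsurj z hz
    have haY : a ∉ Y' := fun ha => hzY (Finset.mem_image_of_mem ev ha)
    obtain ⟨F', hF1, hF2, b, hF3⟩ := hY3 a haY
    refine ⟨F'.image ev, Finset.image_subset_image hF1, hF2.image ev, b, fun l hl => ?_⟩
    by_cases hlm : l ∈ stb O L x
    · have h1 := hF3 ⟨l, hlm⟩
      have h2 : l (ev a) = ev a ↔ (⟨l, hlm⟩ : stb O L x) • a = a := by
        rw [← evinj.eq_iff, evsm]
      have h3 : (F'.image ev).image (⇑l) = F'.image ev ↔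
          F'.image (fun a => (⟨l, hlm⟩ : stb O L x) • a) = F' := by
        rw [← (Finset.image_injective evinj).eq_iff]
        have h4 : (F'.image (fun a => (⟨l, hlm⟩ : stb O L x) • a)).image ev = (F'.image ev).image (⇑l) := by
          rw [Finset.image_image, Finset.image_image]
          exact Finset.image_congr (fun v _ => evsm ⟨l, hlm⟩ v)
        rw [h4]
      rw [h2, h3, h1]
      exact Iff.rfl
    · constructor
      · intro hlz
        exact absurd (mem_stb h hl hz (by rw [hlz]; exact hz)) hlm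
      · rintro ⟨hFl, _⟩
        exfalso
        apply hlm
        obtain ⟨f, hf⟩ := hF2
        have h1 : l (ev f) ∈ F'.image ev := by
          rw [← hFl]
          exact Finset.mem_image_of_mem _ (Finset.mem_image_of_mem ev hf)
        obtain ⟨g, _, hg⟩ := Finset.mem_image.1 h1
        exact mem_stb h hl (evmem f) (by rw [← hg]; exact evmem g)
  · rw [← hcard]
    refine le_trans (Nat.mul_le_mul_right _ ?_) hr1
    have hmem : ∀ v : eigB O L χ x, (⟨v.1, v.2.1, v.2.2.1⟩ : lcl O x) ∈ E (stb O L x) (lcl O x) χ' := by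
      intro v m
      apply Subtype.ext
      rw [hsm, hχ'a]
      have h1 := v.2.2.2 m m.2.1 ((m.2.2 x).2 (orb_self O x))
      rw [Subgroup.coe_zpow]
      exact h1
    refine Nat.card_le_card_of_injective (fun v => (⟨⟨v.1, v.2.1, v.2.2.1⟩, hmem v⟩ : E (stb O L x) (lcl O x) χ')) ?_
    intro u v huv
    exact Subtype.ext (congrArg (fun t => ((t : lcl O x) : Perm (Fin n))) (congrArg Subtype.val huv))
  · exact le_trans Finset.card_image_le hr2

end Pool.Agent.SqA
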