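import Mathlib

/-!
Coprime action of an elementary abelian 2-group `M` on a finite abelian group `A` of odd order: `A` is the direct product
of the subgroups `E ψ = {a | m • a = a ^ ψ(m)}` over the characters `ψ : M →* ℤˣ`.

Proof. `P_ψ a = ∏ m, (m • a) ^ ψ(m)` lies in `E ψ` (substitute `m → m m'`, `ψ(m') = ψ(m')⁻¹`), and
`∏ ψ, P_ψ a = ∏ m, (m • a) ^ (∑ ψ, ψ(m)) = a ^ |M|`, as `∑ ψ, ψ(m) = 0` for `m ≠ 1` (there is a character with
`ψ(m) = - 1`; `M` is a vector space over `ZMod 2`) and there are `|M|` characters. `|M|` is a power of two, prime to `|A|`,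
so with `k |M| = 1 mod |A|` the elements `(P_ψ a) ^ k` do it. Uniqueness: for `f ψ ∈ E ψ`, `P_φ (∏ ψ, f ψ) = f φ ^ |M|`
because `∑ m, ψ(m) φ(m) = 0` for `ψ ≠ φ`. (If it is easier, replace the number of characters and `∑ ψ` by an induction
over a basis of `M`; only `exists_dec` and `dec_unique` are used.)
-/

set_option autoImplicit false

namespace Pool.Agent.SqA

/-- The `ψ`-part. -/
def E (M A : Type) [CommGroup M] [CommGroup A] [MulDistribMulAction M A] (ψ : M →* ℤˣ) : Subgroup A where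
  carrier := {a | ∀ m : M, m • a = a ^ ((ψ m : ℤˣ) : ℤ)}
  mul_mem' := by
    intro a b ha hb m
    rw [smul_mul', ha m, hb m, mul_zpow]
  one_mem' := by
    intro m
    simp
  inv_mem' := by
    intro a ha m
    rw [smul_inv', ha m, inv_zpow]

theorem mem_E {M A : Type} [CommGroup M] [CommGroup A] [MulDistribMulAction M A] {ψ : M →* ℤˣ} {a : A} :
    a ∈ E M A ψ ↔ ∀ m : M, m • a = a ^ ((ψ m : ℤˣ) : ℤ) := Iff.rfl

theorem finite_char (M : Type) [CommGroup M] [Finite M] : Finite (M →* ℤˣ) := DFunLike.finite _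

private theorem prod_zpow_sum {ι A : Type} [CommGroup A] (s : Finset ι) (f : ι → ℤ) (a : A) :
    ∏ i ∈ s, a ^ f i = a ^ (∑ i ∈ s, f i) := by
  classical
  induction s using Finset.induction_on with
  | empty => simp
  | insert i s hi ih => rw [Finset.prod_insert hi, Finset.sum_insert hi, ih, zpow_add]

private theorem coprime_of_sq {G A : Type} [Group G] [Finite G] (hG : ∀ g : G, g * g = 1)
    (hA : Odd (Nat.card A)) : (Nat.card A).Coprime (Nat.card G) := by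
  rw [Nat.coprime_iff_gcd_eq_one]
  by_contra hne
  obtain ⟨p, hp, hpd⟩ := Nat.exists_prime_and_dvd hne
  have hpA := hpd.trans (Nat.gcd_dvd_left _ _)
  have hpG := hpd.trans (Nat.gcd_dvd_right _ _)
  have : Fact p.Prime := ⟨hp⟩
  obtain ⟨g, hg⟩ := exists_prime_orderOf_dvd_card' p hpG
  have h2 : orderOf g ∣ 2 := orderOf_dvd_of_pow_eq_one (by rw [pow_two, hG g])
  rw [hg] at h2
  have hp2 : p = 2 := (Nat.prime_dvd_prime_iff_eq hp Nat.prime_two).1 h2
  rw [hp2] at hpA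
  exact (Nat.not_even_iff_odd.2 hA) (even_iff_two_dvd.2 hpA)

private theorem exists_char (M : Type) [CommGroup M] [Finite M] (hM : ∀ m : M, m * m = 1) (m : M)
    (hm : m ≠ 1) : ∃ ψ : M →* ℤˣ, ψ m ≠ 1 := by
  have hexp : Monoid.exponent M ∣ 2 := Monoid.exponent_dvd_of_forall_pow_eq_one
    (fun g => by rw [pow_two, hM g])
  have : HasEnoughRootsOfUnity ℤ (Monoid.exponent M) := by
    rcases (Nat.dvd_prime Nat.prime_two).1 hexp with h | h
    · rw [h]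
      exact { prim := ⟨1, IsPrimitiveRoot.one⟩
              cyc := inferInstance }
    · rw [h]
      exact { prim := ⟨-1, IsPrimitiveRoot.neg_one 0 (by norm_num)⟩
              cyc := inferInstance }
  exact CommGroup.exists_apply_ne_one_of_hasEnoughRootsOfUnity M ℤ hm

private theorem char_mul_self {M : Type} [CommGroup M] (ψ : M →* ℤˣ) : ψ * ψ = 1 := by
  ext m
  simp

private theorem sum_char (M : Type) [CommGroup M] [Fintype M] (φ : M →* ℤˣ) (hφ : φ ≠ 1) :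
    ∑ m : M, ((φ m : ℤˣ) : ℤ) = 0 := by
  obtain ⟨m0, hm0⟩ : ∃ m0, φ m0 ≠ 1 := by
    by_contra h
    push Not at h
    exact hφ (MonoidHom.ext h)
  have h1 : φ m0 = -1 := (Int.units_eq_one_or (φ m0)).resolve_left hm0
  have h2 : ∑ m : M, ((φ (m0 * m) : ℤˣ) : ℤ) = ∑ m : M, ((φ m : ℤˣ) : ℤ) :=
    Equiv.sum_comp (Equiv.mulLeft m0) (fun m => ((φ m : ℤˣ) : ℤ))
  simp only [map_mul, h1, Units.val_mul, Units.val_neg, Units.val_one, neg_mul, one_mul,
    Finset.sum_neg_distrib] at h2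
  linarith

private theorem sum_char' (M : Type) [CommGroup M] [Finite M] [Fintype (M →* ℤˣ)]
    (hM : ∀ m : M, m * m = 1) (m : M) (hm : m ≠ 1) :
    ∑ ψ : M →* ℤˣ, ((ψ m : ℤˣ) : ℤ) = 0 := by
  obtain ⟨ψ0, h0⟩ := exists_char M hM m hm
  have h1 : ψ0 m = -1 := (Int.units_eq_one_or (ψ0 m)).resolve_left h0
  have h2 : ∑ ψ : M →* ℤˣ, (((ψ0 * ψ) m : ℤˣ) : ℤ) = ∑ ψ : M →* ℤˣ, ((ψ m : ℤˣ) : ℤ) :=
    Equiv.sum_comp (Equiv.mulLeft ψ0) (fun ψ : M →* ℤˣ => ((ψ m : ℤˣ) : ℤ))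
  simp only [MonoidHom.mul_apply, h1, Units.val_mul, Units.val_neg, Units.val_one, neg_mul,
    one_mul, Finset.sum_neg_distrib] at h2
  linarith

private def PP (M A : Type) [CommGroup M] [Fintype M] [CommGroup A] [MulDistribMulAction M A]
    (φ : M →* ℤˣ) : A →* A where
  toFun a := ∏ m : M, (m • a) ^ ((φ m : ℤˣ) : ℤ)
  map_one' := by simp
  map_mul' a b := by
    simp only [smul_mul', mul_zpow]
    exact Finset.prod_mul_distrib

private theorem PP_mem (M A : Type) [CommGroup M] [Fintype M] [CommGroup A]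
    [MulDistribMulAction M A] (φ : M →* ℤˣ) (a : A) : PP M A φ a ∈ E M A φ := by
  intro m0
  show m0 • (∏ m : M, (m • a) ^ ((φ m : ℤˣ) : ℤ)) =
    (∏ m : M, (m • a) ^ ((φ m : ℤˣ) : ℤ)) ^ ((φ m0 : ℤˣ) : ℤ)
  rw [Finset.smul_prod', ← Finset.prod_zpow]
  rw [← Equiv.prod_comp (Equiv.mulLeft m0)
    (fun m => ((m • a) ^ ((φ m : ℤˣ) : ℤ)) ^ ((φ m0 : ℤˣ) : ℤ))]
  refine Finset.prod_congr rfl fun m _ => ?_
  show m0 • ((m • a) ^ ((φ m : ℤˣ) : ℤ)) =
    (((m0 * m) • a) ^ ((φ (m0 * m) : ℤˣ) : ℤ)) ^ ((φ m0 : ℤˣ) : ℤ)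
  rw [← zpow_mul, map_mul, Units.val_mul, smul_zpow', mul_smul]
  congr 1
  have : ((φ m0 : ℤˣ) : ℤ) * ((φ m0 : ℤˣ) : ℤ) = 1 := by
    rw [← Units.val_mul]
    simp
  linear_combination (-((φ m : ℤˣ) : ℤ)) * this

private theorem PP_of_mem (M A : Type) [CommGroup M] [Fintype M] [CommGroup A]
    [MulDistribMulAction M A] (φ ψ : M →* ℤˣ) (a : A) (ha : a ∈ E M A ψ) :
    PP M A φ a = if ψ = φ then a ^ Nat.card M else 1 := by
  show (∏ m : M, (m • a) ^ ((φ m : ℤˣ) : ℤ)) = _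
  have h1 : ∀ m : M, (m • a) ^ ((φ m : ℤˣ) : ℤ) = a ^ (((ψ * φ) m : ℤˣ) : ℤ) := by
    intro m
    rw [ha m, ← zpow_mul, MonoidHom.mul_apply, Units.val_mul]
  rw [Finset.prod_congr rfl fun m _ => h1 m]
  have h2 : (∏ m : M, a ^ (((ψ * φ) m : ℤˣ) : ℤ)) = a ^ (∑ m : M, (((ψ * φ) m : ℤˣ) : ℤ)) :=
    prod_zpow_sum _ _ _
  rw [h2]
  split_ifs with h
  · subst h
    rw [char_mul_self]
    simp [Nat.card_eq_fintype_card]
  · have h3 : ψ * φ ≠ 1 := by
      intro h4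
      apply h
      have h5 := char_mul_self φ
      calc ψ = ψ * (φ * φ) := by rw [h5, mul_one]
        _ = (ψ * φ) * φ := by rw [mul_assoc]
        _ = φ := by rw [h4, one_mul]
    rw [sum_char M _ h3, zpow_zero]

theorem exists_dec (M A : Type) [CommGroup M] [Finite M] [CommGroup A] [Finite A] [MulDistribMulAction M A]
    [Fintype (M →* ℤˣ)] (hM : ∀ m : M, m * m = 1) (hA : Odd (Nat.card A)) (a : A) :
    ∃ f : (M →* ℤˣ) → A, (∀ ψ, f ψ ∈ E M A ψ) ∧ ∏ ψ, f ψ = a := by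
  classical
  let _ : Fintype M := Fintype.ofFinite M
  have hc : (Nat.card A).Coprime (Nat.card (M →* ℤˣ)) := coprime_of_sq char_mul_self hA
  obtain ⟨b, hb⟩ := (powCoprime hc).surjective a
  have hb' : b ^ Nat.card (M →* ℤˣ) = a := hb
  refine ⟨fun ψ => PP M A ψ b, fun ψ => PP_mem M A ψ b, ?_⟩
  show (∏ ψ : M →* ℤˣ, ∏ m : M, (m • b) ^ ((ψ m : ℤˣ) : ℤ)) = a
  rw [Finset.prod_comm]
  have h1 : ∀ m : M, (∏ ψ : M →* ℤˣ, (m • b) ^ ((ψ m : ℤˣ) : ℤ)) =
      if m = 1 then b ^ Nat.card (M →* ℤˣ) else 1 := by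
    intro m
    have h2 : (∏ ψ : M →* ℤˣ, (m • b) ^ ((ψ m : ℤˣ) : ℤ)) =
        (m • b) ^ (∑ ψ : M →* ℤˣ, ((ψ m : ℤˣ) : ℤ)) := prod_zpow_sum _ _ _
    rw [h2]
    split_ifs with h
    · subst h
      simp [Nat.card_eq_fintype_card]
    · rw [sum_char' M hM m h, zpow_zero]
  rw [Finset.prod_congr rfl fun m _ => h1 m, Finset.prod_ite_eq' Finset.univ (1 : M), if_pos (Finset.mem_univ _), hb']

theorem dec_unique (M A : Type) [CommGroup M] [Finite M] [CommGroup A] [Finite A] [MulDistribMulAction M A]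
    [Fintype (M →* ℤˣ)] (hM : ∀ m : M, m * m = 1) (hA : Odd (Nat.card A)) (f g : (M →* ℤˣ) → A)
    (hf : ∀ ψ, f ψ ∈ E M A ψ) (hg : ∀ ψ, g ψ ∈ E M A ψ) (h : ∏ ψ, f ψ = ∏ ψ, g ψ) : f = g := by
  classical
  let _ : Fintype M := Fintype.ofFinite M
  have hc : (Nat.card A).Coprime (Nat.card M) := coprime_of_sq hM hA
  have key : ∀ f : (M →* ℤˣ) → A, (∀ ψ, f ψ ∈ E M A ψ) → ∀ φ,
      PP M A φ (∏ ψ, f ψ) = f φ ^ Nat.card M := by
    intro f hf φ
    rw [map_prod, Finset.prod_congr rfl fun ψ _ => PP_of_mem M A φ ψ (f ψ) (hf ψ),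
      Finset.prod_ite_eq' Finset.univ φ (fun ψ => f ψ ^ Nat.card M), if_pos (Finset.mem_univ _)]
  funext φ
  apply (powCoprime hc).injective
  show f φ ^ Nat.card M = g φ ^ Nat.card M
  rw [← key f hf φ, ← key g hg φ, h]

end Pool.Agent.SqA
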