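import Pool.Agent.SqA.ElLow

/-!
Encoding. `L` elementary abelian with `Good ℓ Z L χ`. On every `L`-orbit in `Z` choose a representative `z₀` and `F₀`, `b₀` for
it, and put for `z = l z₀`: `λ z = z₀`, `ρ z = F₀.image l`, `β z = b₀`, `σ z = χ l` if `b₀` holds and `1` if not (well defined: if
`l z₀ = l' z₀` then `l⁻¹ l'` fixes `z₀`). So `ρ (l z) = (ρ z).image l`, `λ (l z) = λ z`, `β (l z) = β z`, `σ (l z) = χ l σ z` if `β z`,
and `z`, `z'` in `Z` with the same `λ, ρ, β, σ` are equal (they are in one orbit, `z' = g z`, and `g` satisfies the right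
side of the condition for `z`, which is the one for `z₀` as `L` is abelian).
Hence `L` is determined by `λ, ρ, β, σ` and the group `L⁺` of the permutations of `Zᶜ ⊕ Fin 2` given by `l` on `Zᶜ` and the
swap of `Fin 2` if `χ l = - 1`: for `l ∈ L₁`, take `l' ∈ L₂` with the same image; `ρ (l z) = l ρ z = l' ρ z = ρ (l' z)` etc., so
`l z = l' z` for `z ∈ Z`, `l = l' ∈ L₂`. `L⁺` is `El` on `n - |Z| + 2` points. The number of finite sets with at most `ℓ` elements
is at most `(n + 1) ^ ℓ` (images of maps `Fin ℓ → Option (Fin n)`), so the number of data is at most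
`((n + 1) ^ ℓ · (n + 1) · 2 · 2) ^ |Z|`. For `χ = 1` (`enc0`) forget `b`, `σ`, `Fin 2`.
-/

set_option autoImplicit false

namespace Pool.Agent.SqA

open Equiv Pool.Agent.AbS

private theorem card_fin_sets (n ℓ : ℕ) : Nat.card {F : Finset (Fin n) // F.card ≤ ℓ} ≤ (n + 1) ^ ℓ := by
  have hc : Nat.card (Fin ℓ → Option (Fin n)) = (n + 1) ^ ℓ := by
    rw [Nat.card_fun, Nat.card_eq_fintype_card, Nat.card_eq_fintype_card, Fintype.card_option, Fintype.card_fin,
      Fintype.card_fin]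
  rw [← hc]
  have key : ∀ F G : {F : Finset (Fin n) // F.card ≤ ℓ},
      (fun i : Fin ℓ => F.1.toList[(i : ℕ)]?) = (fun i : Fin ℓ => G.1.toList[(i : ℕ)]?) →
      ∀ x, x ∈ F.1 → x ∈ G.1 := by
    intro F G h x hx
    rw [← Finset.mem_toList, List.mem_iff_getElem?] at hx ⊢
    obtain ⟨i, hi⟩ := hx
    have hlt : i < ℓ := by
      have h1 : i < F.1.toList.length := by
        by_contra hcon
        rw [List.getElem?_eq_none (not_lt.mp hcon)] at hi
        exact absurd hi (by simp)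
      rw [Finset.length_toList] at h1
      exact lt_of_lt_of_le h1 F.2
    have h2 := congrFun h ⟨i, hlt⟩
    refine ⟨i, ?_⟩
    rw [← hi]
    exact h2.symm
  refine Nat.card_le_card_of_injective
    (fun F : {F : Finset (Fin n) // F.card ≤ ℓ} => (fun i : Fin ℓ => F.1.toList[(i : ℕ)]?)) ?_
  intro F G h
  apply Subtype.ext
  ext x
  exact ⟨key F G h x, key G F h.symm x⟩

/-- The data for one point. -/
private abbrev Dt (n ℓ : ℕ) : Type := Fin n × {F : Finset (Fin n) // F.card ≤ ℓ} × Prop × ℤˣ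

private theorem card_Dt (n ℓ : ℕ) : Nat.card (Dt n ℓ) ≤ 4 * (n + 1) ^ (ℓ + 1) := by
  have h1 := card_fin_sets n ℓ
  have hP : Nat.card Prop = 2 := by
    rw [Nat.card_eq_fintype_card]; rfl
  have hU : Nat.card ℤˣ = 2 := by
    rw [Nat.card_eq_fintype_card]; exact Fintype.card_units_int
  rw [Nat.card_prod, Nat.card_prod, Nat.card_prod, hP, hU, Nat.card_eq_fintype_card, Fintype.card_fin]
  calc n * (Nat.card {F : Finset (Fin n) // F.card ≤ ℓ} * (2 * 2))
      ≤ (n + 1) * ((n + 1) ^ ℓ * (2 * 2)) :=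
        Nat.mul_le_mul (Nat.le_succ n) (Nat.mul_le_mul_right _ h1)
    _ = 4 * (n + 1) ^ (ℓ + 1) := by ring

private theorem inv_iff {n : ℕ} {Z : Finset (Fin n)} {L : Subgroup (Perm (Fin n))}
    (h : ∀ l ∈ L, ∀ z ∈ Z, l z ∈ Z) {l : Perm (Fin n)} (hl : l ∈ L) (x : Fin n) : l x ∉ Z ↔ x ∉ Z := by
  refine not_congr ⟨fun hx => ?_, fun hx => h l hl x hx⟩
  have h1 := h l⁻¹ (L.inv_mem hl) (l x) hx
  simpa using h1

/-- The properties of the data. -/
private structure IsD {n ℓ : ℕ} (Z : Finset (Fin n)) (L : Subgroup (Perm (Fin n))) (χ : L →* ℤˣ)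
    (d : Z → Dt n ℓ) : Prop where
  inv : ∀ l ∈ L, ∀ z ∈ Z, l z ∈ Z
  dis : ∀ z, ∀ x ∈ (d z).2.1.1, x ∉ Z
  lam : ∀ (l : L) (z w : Z), (w : Fin n) = (l : Perm (Fin n)) z → (d w).1 = (d z).1
  rho : ∀ (l : L) (z w : Z), (w : Fin n) = (l : Perm (Fin n)) z →
    (d w).2.1.1 = (d z).2.1.1.image (⇑(l : Perm (Fin n)))
  bet : ∀ (l : L) (z w : Z), (w : Fin n) = (l : Perm (Fin n)) z → (d w).2.2.1 = (d z).2.2.1
  sig : ∀ (l : L) (z w : Z), (w : Fin n) = (l : Perm (Fin n)) z →
    (((d z).2.2.1 → (d w).2.2.2 = χ l * (d z).2.2.2) ∧ (¬ (d z).2.2.1 → (d w).2.2.2 = 1))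
  inj : ∀ z w : Z, d z = d w → z = w

private theorem exists_dat {n ℓ : ℕ} {Z : Finset (Fin n)} {L : Subgroup (Perm (Fin n))} {χ : L →* ℤˣ}
    (h : Good ℓ Z L χ) : ∃ d : Z → Dt n ℓ, IsD Z L χ d := by
  classical
  obtain ⟨hinv, hst⟩ := h
  choose! F hFd hFc b hb using hst
  -- the representatives
  have hr : ∃ r : Fin n → Fin n, (∀ (l : L) (z : Fin n), r ((l : Perm (Fin n)) z) = r z) ∧
      ∀ z, ∃ l : L, (l : Perm (Fin n)) (r z) = z := by
    refine ⟨fun z => Quotient.out (Quotient.mk (MulAction.orbitRel L (Fin n)) z), ?_, ?_⟩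
    · intro l z
      have : Quotient.mk (MulAction.orbitRel L (Fin n)) ((l : Perm (Fin n)) z) =
          Quotient.mk (MulAction.orbitRel L (Fin n)) z := by
        apply Quotient.sound
        exact ⟨l, rfl⟩
      exact congrArg Quotient.out this
    · intro z
      have h1 := Quotient.mk_out (s := MulAction.orbitRel L (Fin n)) z
      obtain ⟨g, hg⟩ := h1
      have hg' : (g : Perm (Fin n)) z =
        Quotient.out (Quotient.mk (MulAction.orbitRel L (Fin n)) z) := hg
      refine ⟨g⁻¹, ?_⟩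
      beta_reduce
      rw [← hg']
      simp
  obtain ⟨r, hr1, hr2⟩ := hr
  choose t ht using hr2
  have hrZ : ∀ z ∈ Z, r z ∈ Z := by
    intro z hz
    have h1 := hinv _ (L.inv_mem (t z).2) z hz
    have h2 : ((t z : Perm (Fin n)))⁻¹ z = r z := by
      rw [Equiv.Perm.inv_eq_iff_eq]
      exact (ht z).symm
    rwa [h2] at h1
  -- images under the inverse
  have himg : ∀ (g : Perm (Fin n)) (A B : Finset (Fin n)), A.image (⇑g) = B ↔ A = B.image (⇑g⁻¹) := by
    intro g A B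
    constructor
    · intro h1
      rw [← h1, Finset.image_image, ← Equiv.Perm.coe_mul, inv_mul_cancel, Equiv.Perm.coe_one, Finset.image_id]
    · intro h1
      rw [h1, Finset.image_image, ← Equiv.Perm.coe_mul, mul_inv_cancel, Equiv.Perm.coe_one, Finset.image_id]
  refine ⟨fun z => (r z, ⟨(F (r z)).image (⇑(t z : Perm (Fin n))), (Finset.card_image_le).trans (hFc _ (hrZ z z.2))⟩,
    b (r z), if b (r z) then χ (t z) else 1), ?_⟩
  -- the key: two elements of `L` moving `r z` to the same point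
  have key : ∀ (g g' : L) (z₀ : Fin n), z₀ ∈ Z → (g : Perm (Fin n)) z₀ = (g' : Perm (Fin n)) z₀ →
      (F z₀).image (⇑(g : Perm (Fin n))) = (F z₀).image (⇑(g' : Perm (Fin n))) ∧ (b z₀ → χ g = χ g') := by
    intro g g' z₀ hz₀ hg
    have h1 : ((g'⁻¹ * g : L) : Perm (Fin n)) z₀ = z₀ := by
      rw [Subgroup.coe_mul, Equiv.Perm.mul_apply, hg]
      simp
    have h2 := (hb z₀ hz₀ _ (g'⁻¹ * g).2).1 h1
    constructor
    · have h3 := h2.1
      rw [Subgroup.coe_mul, Equiv.Perm.coe_mul, ← Finset.image_image] at h3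
      rw [Subgroup.coe_inv] at h3
      rw [himg] at h3
      rw [inv_inv] at h3
      exact h3
    · intro hbz
      have h3 := h2.2 hbz
      have h4 : χ (g'⁻¹ * g) = 1 := h3
      rw [map_mul, map_inv, inv_mul_eq_one] at h4
      exact h4.symm
  constructor
  · exact hinv
  · intro z x hx
    simp only [Finset.mem_image] at hx
    obtain ⟨y, hy, rfl⟩ := hx
    rw [inv_iff hinv (t z).2]
    intro hyZ
    exact (Finset.disjoint_left.mp (hFd _ (hrZ z z.2))) hy hyZ
  · intro l z w hw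
    change r w = r z
    rw [hw, hr1]
  · intro l z w hw
    change (F (r w)).image (⇑(t w : Perm (Fin n))) = ((F (r z)).image (⇑(t z : Perm (Fin n)))).image (⇑(l : Perm (Fin n)))
    have hrw : r w = r z := by rw [hw, hr1]
    have h1 : ((t w : L) : Perm (Fin n)) (r z) = ((l * t z : L) : Perm (Fin n)) (r z) := by
      rw [Subgroup.coe_mul, Equiv.Perm.mul_apply, ht z, ← hrw, ht w, hw]
    have h2 := (key (t w) (l * t z) (r z) (hrZ z z.2) h1).1
    rw [hrw, h2, Finset.image_image, Subgroup.coe_mul, Equiv.Perm.coe_mul]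
  · intro l z w hw
    change b (r w) = b (r z)
    rw [hw, hr1]
  · intro l z w hw
    change ((b (r z) → (if b (r w) then χ (t w) else 1) = χ l * (if b (r z) then χ (t z) else 1)) ∧
      (¬ b (r z) → (if b (r w) then χ (t w) else 1) = 1))
    have hrw : r w = r z := by rw [hw, hr1]
    rw [hrw]
    constructor
    · intro hbz
      rw [if_pos hbz, if_pos hbz]
      have h1 : ((t w : L) : Perm (Fin n)) (r z) = ((l * t z : L) : Perm (Fin n)) (r z) := by
        rw [Subgroup.coe_mul, Equiv.Perm.mul_apply, ht z, ← hrw, ht w, hw]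
      have h2 := (key (t w) (l * t z) (r z) (hrZ z z.2) h1).2 hbz
      rw [h2, map_mul]
    · intro hbz
      rw [if_neg hbz]
  · intro z w hzw
    have h1 : r z = r w := congrArg Prod.fst hzw
    have h2 : (F (r z)).image (⇑(t z : Perm (Fin n))) = (F (r w)).image (⇑(t w : Perm (Fin n))) :=
      congrArg (fun d : Dt n ℓ => d.2.1.1) hzw
    have h3 : (if b (r z) then χ (t z) else 1) = (if b (r w) then χ (t w) else 1) :=
      congrArg (fun d : Dt n ℓ => d.2.2.2) hzw
    rw [← h1] at h2 h3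
    have h4 : (((t z)⁻¹ * t w : L) : Perm (Fin n)) (r z) = r z := by
      rw [hb (r z) (hrZ z z.2) _ ((t z)⁻¹ * t w).2]
      constructor
      · rw [Subgroup.coe_mul, Equiv.Perm.coe_mul, ← Finset.image_image, ← h2, Subgroup.coe_inv]
        exact ((himg _ _ _).1 rfl).symm
      · intro hbz
        rw [if_pos hbz, if_pos hbz] at h3
        have : χ ((t z)⁻¹ * t w) = 1 := by
          rw [map_mul, map_inv, h3, inv_mul_cancel]
        exact this
    rw [Subgroup.coe_mul, Equiv.Perm.mul_apply, Subgroup.coe_inv, Equiv.Perm.inv_eq_iff_eq] at h4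
    apply Subtype.ext
    have h5 := ht w
    have h6 := ht z
    rw [← h1] at h5
    exact h6.symm.trans (h4.symm.trans h5)

private theorem le_of_dat {n ℓ : ℕ} {Z : Finset (Fin n)} {L M : Subgroup (Perm (Fin n))} {χ : L →* ℤˣ}
    {ψ : M →* ℤˣ} {d : Z → Dt n ℓ} (hL : IsD Z L χ d) (hM : IsD Z M ψ d)
    (hm : ∀ l : L, ∃ m : M, (∀ x, x ∉ Z → (l : Perm (Fin n)) x = (m : Perm (Fin n)) x) ∧ χ l = ψ m) : L ≤ M := by
  intro l hl
  obtain ⟨m, hm1, hm2⟩ := hm ⟨l, hl⟩
  have : l = m := by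
    ext x
    by_cases hx : x ∈ Z
    · have e : (⟨l x, hL.inv l hl x hx⟩ : Z) = ⟨(m : Perm (Fin n)) x, hM.inv m m.2 x hx⟩ := by
        apply hL.inj
        have a1 := hL.lam ⟨l, hl⟩ ⟨x, hx⟩ ⟨l x, hL.inv l hl x hx⟩ rfl
        have a2 := hM.lam m ⟨x, hx⟩ ⟨(m : Perm (Fin n)) x, hM.inv m m.2 x hx⟩ rfl
        have b1 := hL.rho ⟨l, hl⟩ ⟨x, hx⟩ ⟨l x, hL.inv l hl x hx⟩ rfl
        have b2 := hM.rho m ⟨x, hx⟩ ⟨(m : Perm (Fin n)) x, hM.inv m m.2 x hx⟩ rfl
        have c1 := hL.bet ⟨l, hl⟩ ⟨x, hx⟩ ⟨l x, hL.inv l hl x hx⟩ rfl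
        have c2 := hM.bet m ⟨x, hx⟩ ⟨(m : Perm (Fin n)) x, hM.inv m m.2 x hx⟩ rfl
        have d1 := hL.sig ⟨l, hl⟩ ⟨x, hx⟩ ⟨l x, hL.inv l hl x hx⟩ rfl
        have d2 := hM.sig m ⟨x, hx⟩ ⟨(m : Perm (Fin n)) x, hM.inv m m.2 x hx⟩ rfl
        refine Prod.ext (a1.trans a2.symm) (Prod.ext (Subtype.ext ?_) (Prod.ext (c1.trans c2.symm) ?_))
        · rw [b1, b2]
          apply Finset.image_congr
          intro y hy
          exact hm1 y (hL.dis ⟨x, hx⟩ y hy)
        · by_cases hbx : (d ⟨x, hx⟩).2.2.1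
          · rw [d1.1 hbx, d2.1 hbx, hm2]
          · rw [d1.2 hbx, d2.2 hbx]
      exact congrArg (fun z : Z => ((z : Fin n) : ℕ)) e
    · exact congrArg Fin.val (hm1 x hx)
  rw [this]
  exact m.2

/-- The action outside `Z`. -/
private def resHom {n : ℕ} {Z : Finset (Fin n)} {L : Subgroup (Perm (Fin n))}
    (h : ∀ l ∈ L, ∀ z ∈ Z, l z ∈ Z) : L →* Perm {x : Fin n // x ∉ Z} where
  toFun l := (l : Perm (Fin n)).subtypePerm (fun x => inv_iff h l.2 x)
  map_one' := by
    ext x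
    rfl
  map_mul' l m := by
    ext x
    rfl

private theorem resHom_apply {n : ℕ} {Z : Finset (Fin n)} {L : Subgroup (Perm (Fin n))}
    (h : ∀ l ∈ L, ∀ z ∈ Z, l z ∈ Z) (l : L) (x : {x : Fin n // x ∉ Z}) :
    ((resHom h l x : {x : Fin n // x ∉ Z}) : Fin n) = (l : Perm (Fin n)) x := rfl

/-- The sign as a permutation of two points. -/
private def sgHom : ℤˣ →* Perm (Fin 2) where
  toFun u := if u = 1 then 1 else Equiv.swap 0 1
  map_one' := by simp
  map_mul' := by decide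

private theorem sgHom_inj : Function.Injective sgHom := by
  intro u v h
  rcases Int.units_eq_one_or u with rfl | rfl <;> rcases Int.units_eq_one_or v with rfl | rfl
  · rfl
  · exact absurd h (by decide)
  · exact absurd h (by decide)
  · rfl

private theorem El.range {n : ℕ} {Ω : Type} {L : Subgroup (Perm (Fin n))} (hL : El L) (f : L →* Perm Ω) :
    El f.range := by
  rintro _ ⟨l, rfl⟩
  rw [← map_mul]
  have : l * l = 1 := Subtype.ext (hL l.1 l.2)
  rw [this, map_one]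

private theorem card_El_le {Ω : Type} [Fintype Ω] {k : ℕ} (hk : Fintype.card Ω = k) :
    Nat.card {K : Subgroup (Perm Ω) // El K} ≤ nEl k := by
  classical
  obtain ⟨e⟩ : Nonempty (Ω ≃ Fin k) := ⟨Fintype.equivFinOfCardEq hk⟩
  have hinj : Function.Injective (Perm.viaEmbeddingHom e.toEmbedding) := Perm.viaEmbeddingHom_injective _
  refine Nat.card_le_card_of_injective
    (fun K : {K : Subgroup (Perm Ω) // El K} => (⟨K.1.map (Perm.viaEmbeddingHom e.toEmbedding), by
      rintro _ ⟨a, ha, rfl⟩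
      rw [← map_mul, K.2 a ha, map_one]⟩ : {K : Subgroup (Perm (Fin k)) // El K})) ?_
  intro H K h
  have h2 := congrArg Subtype.val h
  exact Subtype.ext (Subgroup.map_injective hinj h2)

private theorem card_compl {n : ℕ} (Z : Finset (Fin n)) :
    Fintype.card {x : Fin n // x ∉ Z} = n - Z.card := by
  rw [Fintype.card_subtype_compl, Fintype.card_fin, Fintype.card_coe]

private theorem card_fun_Dt (n ℓ : ℕ) (Z : Finset (Fin n)) :
    Nat.card (Z → Dt n ℓ) ≤ (4 * (n + 1) ^ (ℓ + 1)) ^ Z.card := by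
  rw [Nat.card_fun, Nat.card_eq_fintype_card (α := Z), Fintype.card_coe]
  exact Nat.pow_le_pow_left (card_Dt n ℓ) _

theorem enc0 (n ℓ : ℕ) (Z : Finset (Fin n)) :
    Nat.card {L : Subgroup (Perm (Fin n)) // El L ∧ Good ℓ Z L 1} ≤
      (4 * (n + 1) ^ (ℓ + 1)) ^ Z.card * nEl (n - Z.card) := by
  classical
  have hd : ∀ L : {L : Subgroup (Perm (Fin n)) // El L ∧ Good ℓ Z L 1}, ∃ d : Z → Dt n ℓ, IsD Z L.1 1 d :=
    fun L => exists_dat L.2.2
  choose d hd using hd
  have h1 : Nat.card {L : Subgroup (Perm (Fin n)) // El L ∧ Good ℓ Z L 1} ≤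
      Nat.card ((Z → Dt n ℓ) × {K : Subgroup (Perm {x : Fin n // x ∉ Z}) // El K}) := by
    refine Nat.card_le_card_of_injective
      (fun L : {L : Subgroup (Perm (Fin n)) // El L ∧ Good ℓ Z L 1} =>
        ((d L, ⟨(resHom (hd L).inv).range, L.2.1.range _⟩) :
          (Z → Dt n ℓ) × {K : Subgroup (Perm {x : Fin n // x ∉ Z}) // El K})) ?_
    have key : ∀ L M : {L : Subgroup (Perm (Fin n)) // El L ∧ Good ℓ Z L 1}, d L = d M →
        (resHom (hd L).inv).range = (resHom (hd M).inv).range → L.1 ≤ M.1 := by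
      intro L M h2 h3
      have h4 := hd L
      rw [h2] at h4
      refine le_of_dat h4 (hd M) ?_
      intro l
      have h5 : resHom (hd L).inv l ∈ (resHom (hd M).inv).range := by
        rw [← h3]; exact ⟨l, rfl⟩
      obtain ⟨m, hm⟩ := h5
      refine ⟨m, ?_, rfl⟩
      intro x hx
      have h6 := congrArg (fun σ : Perm {x : Fin n // x ∉ Z} => ((σ ⟨x, hx⟩ : {x : Fin n // x ∉ Z}) : Fin n)) hm
      exact h6.symm
    intro L M h
    have h2 : d L = d M := congrArg Prod.fst h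
    have h3 : (resHom (hd L).inv).range = (resHom (hd M).inv).range := congrArg Subtype.val (congrArg Prod.snd h)
    exact Subtype.ext (le_antisymm (key L M h2 h3) (key M L h2.symm h3.symm))
  refine h1.trans ?_
  rw [Nat.card_prod]
  exact Nat.mul_le_mul (card_fun_Dt n ℓ Z) (card_El_le (card_compl Z))

theorem enc2 (n ℓ : ℕ) (Z : Finset (Fin n)) :
    Nat.card {L : Subgroup (Perm (Fin n)) // El L ∧ ∃ χ : L →* ℤˣ, Good ℓ Z L χ} ≤
      (4 * (n + 1) ^ (ℓ + 1)) ^ Z.card * nEl (n - Z.card + 2) := by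
  classical
  have hd : ∀ L : {L : Subgroup (Perm (Fin n)) // El L ∧ ∃ χ : L →* ℤˣ, Good ℓ Z L χ},
      ∃ (χ : L.1 →* ℤˣ) (d : Z → Dt n ℓ), IsD Z L.1 χ d := by
    intro L
    obtain ⟨χ, hχ⟩ := L.2.2
    exact ⟨χ, exists_dat hχ⟩
  choose χ d hd using hd
  have h1 : Nat.card {L : Subgroup (Perm (Fin n)) // El L ∧ ∃ χ : L →* ℤˣ, Good ℓ Z L χ} ≤
      Nat.card ((Z → Dt n ℓ) × {K : Subgroup (Perm ({x : Fin n // x ∉ Z} ⊕ Fin 2)) // El K}) := by
    refine Nat.card_le_card_of_injective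
      (fun L : {L : Subgroup (Perm (Fin n)) // El L ∧ ∃ χ : L →* ℤˣ, Good ℓ Z L χ} =>
        ((d L, ⟨((Equiv.Perm.sumCongrHom {x : Fin n // x ∉ Z} (Fin 2)).comp
          ((resHom (hd L).inv).prod (sgHom.comp (χ L)))).range, L.2.1.range _⟩) :
          (Z → Dt n ℓ) × {K : Subgroup (Perm ({x : Fin n // x ∉ Z} ⊕ Fin 2)) // El K})) ?_
    have key : ∀ L M : {L : Subgroup (Perm (Fin n)) // El L ∧ ∃ χ : L →* ℤˣ, Good ℓ Z L χ}, d L = d M →
        ((Equiv.Perm.sumCongrHom {x : Fin n // x ∉ Z} (Fin 2)).comp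
          ((resHom (hd L).inv).prod (sgHom.comp (χ L)))).range =
        ((Equiv.Perm.sumCongrHom {x : Fin n // x ∉ Z} (Fin 2)).comp
          ((resHom (hd M).inv).prod (sgHom.comp (χ M)))).range → L.1 ≤ M.1 := by
      intro L M h2 h3
      have h4 := hd L
      rw [h2] at h4
      refine le_of_dat h4 (hd M) ?_
      intro l
      have h5 : ((Equiv.Perm.sumCongrHom {x : Fin n // x ∉ Z} (Fin 2)).comp
          ((resHom (hd L).inv).prod (sgHom.comp (χ L)))) l ∈
          ((Equiv.Perm.sumCongrHom {x : Fin n // x ∉ Z} (Fin 2)).comp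
          ((resHom (hd M).inv).prod (sgHom.comp (χ M)))).range := by
        rw [← h3]; exact ⟨l, rfl⟩
      obtain ⟨m, hm⟩ := h5
      have hm' : ((resHom (hd M).inv m, sgHom (χ M m)) : Perm {x : Fin n // x ∉ Z} × Perm (Fin 2)) =
          (resHom (hd L).inv l, sgHom (χ L l)) := Equiv.Perm.sumCongrHom_injective hm
      have e1 : resHom (hd M).inv m = resHom (hd L).inv l := congrArg Prod.fst hm'
      have e2 : sgHom (χ M m) = sgHom (χ L l) := congrArg Prod.snd hm'
      refine ⟨m, ?_, (sgHom_inj e2).symm⟩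
      intro x hx
      have h6 := congrArg (fun σ : Perm {x : Fin n // x ∉ Z} => ((σ ⟨x, hx⟩ : {x : Fin n // x ∉ Z}) : Fin n)) e1
      exact h6.symm
    intro L M h
    have h2 : d L = d M := congrArg Prod.fst h
    have h3 := congrArg Subtype.val (congrArg Prod.snd h)
    exact Subtype.ext (le_antisymm (key L M h2 h3) (key M L h2.symm h3.symm))
  refine h1.trans ?_
  rw [Nat.card_prod]
  refine Nat.mul_le_mul (card_fun_Dt n ℓ Z) (card_El_le ?_)
  rw [Fintype.card_sum, card_compl, Fintype.card_fin]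

end Pool.Agent.SqA
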