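import Pool.Agent.SqA.Defs
import Pool.Agent.SqA.Ch
import Pool.Agent.AbS.SubB

/-!
The number of `L`-invariant subgroups of `V`.

`L` acts on the abelian group `V` of odd order by conjugation; `V_χ = eig V L χ` are its `E χ` (`Ch.lean`). An `L`-invariant
subgroup `O` is determined by the subgroups `O ∩ V_χ` of `V_χ` (`exists_dec` in `O`). So their number is at most the product of
`Nat.card (Subgroup V_χ)` over the `χ` with `V_χ ≠ 1` (`card_subgroup_le` with `t = 3`: the order of `V_χ` is odd). With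
`x_χ = log |V_χ| / log 3 ≥ 1` (odd order), `(x_χ + 1) ^ 2 ≤ x_χ ^ 2 + 3 x_χ`, `∑ x_χ = log |V| / log 3` (`exists_dec`, `dec_unique`) and
`∑ x_χ ^ 2 ≤ max x_χ ∑ x_χ`: at most `exp (2 log |V| + (3/4) log |V| + (log 3 / 4) max x_χ ∑ x_χ)`.
-/

set_option autoImplicit false

namespace Pool.Agent.SqA

open Equiv Pool.Agent.AbS

/-- The action restricted to an invariant subgroup. -/
@[reducible]
private def resAct {M A : Type} [CommGroup M] [CommGroup A] [MulDistribMulAction M A] (O : Subgroup A)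
    (hO : ∀ m : M, ∀ o ∈ O, m • o ∈ O) : MulDistribMulAction M O where
  smul m o := ⟨m • (o : A), hO m o o.2⟩
  one_smul o := Subtype.ext (one_smul M (o : A))
  mul_smul m m' o := Subtype.ext (mul_smul m m' (o : A))
  smul_mul m o o' := Subtype.ext (smul_mul' m (o : A) (o' : A))
  smul_one m := Subtype.ext (smul_one m)

private theorem inv_le {M A : Type} [CommGroup M] [Finite M] [CommGroup A] [Finite A]
    [MulDistribMulAction M A] (hM : ∀ m : M, m * m = 1) (hA : Odd (Nat.card A)) (O O' : Subgroup A)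
    (hO : ∀ m : M, ∀ o ∈ O, m • o ∈ O)
    (h : ∀ ψ : M →* ℤˣ, O.subgroupOf (E M A ψ) ≤ O'.subgroupOf (E M A ψ)) : O ≤ O' := by
  classical
  intro a ha
  let _ : MulDistribMulAction M O := resAct O hO
  have _ := finite_char M
  let _ : Fintype (M →* ℤˣ) := Fintype.ofFinite _
  have hOo : Odd (Nat.card O) := hA.of_dvd_nat (Subgroup.card_subgroup_dvd_card O)
  obtain ⟨f, hf, hfa⟩ := exists_dec M O hM hOo ⟨a, ha⟩
  have h1 : ∀ ψ, (f ψ : A) ∈ O' := by
    intro ψ
    have h2 : (f ψ : A) ∈ E M A ψ := by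
      rw [mem_E]
      intro m
      have h3 := hf ψ
      rw [mem_E] at h3
      have h4 : m • ((f ψ : O) : A) = ((f ψ ^ ((ψ m : ℤˣ) : ℤ) : O) : A) :=
        congrArg (fun z : O => (z : A)) (h3 m)
      rw [h4, Subgroup.coe_zpow]
    have h5 : (⟨(f ψ : A), h2⟩ : E M A ψ) ∈ O.subgroupOf (E M A ψ) :=
      Subgroup.mem_subgroupOf.mpr (f ψ).2
    exact Subgroup.mem_subgroupOf.mp (h ψ h5)
  have h6 : a = ∏ ψ, (f ψ : A) := by
    have := congrArg O.subtype hfa
    rw [map_prod] at this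
    exact this.symm
  rw [h6]
  exact Subgroup.prod_mem _ fun ψ _ => h1 ψ

private theorem card_inv_le {M A : Type} [CommGroup M] [Finite M] [CommGroup A] [Finite A]
    [MulDistribMulAction M A] [Fintype (M →* ℤˣ)] (hM : ∀ m : M, m * m = 1)
    (hA : Odd (Nat.card A)) :
    Nat.card {O : Subgroup A // ∀ m : M, ∀ o ∈ O, m • o ∈ O} ≤
      ∏ ψ : M →* ℤˣ, Nat.card (Subgroup (E M A ψ)) := by
  rw [← Nat.card_pi]
  refine Nat.card_le_card_of_injective
    (fun O ψ => (O : Subgroup A).subgroupOf (E M A ψ)) fun O O' h => ?_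
  apply Subtype.ext
  exact le_antisymm
    (inv_le hM hA O O' O.2 fun ψ => (congrFun h ψ).le)
    (inv_le hM hA O' O O'.2 fun ψ => (congrFun h ψ).ge)

private theorem prod_card_le {M A : Type} [CommGroup M] [Finite M] [CommGroup A] [Finite A]
    [MulDistribMulAction M A] [Fintype (M →* ℤˣ)] (hM : ∀ m : M, m * m = 1)
    (hA : Odd (Nat.card A)) : ∏ ψ : M →* ℤˣ, Nat.card (E M A ψ) ≤ Nat.card A := by
  rw [← Nat.card_pi]
  refine Nat.card_le_card_of_injective (fun f => ∏ ψ, (f ψ : A)) fun f g h => ?_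
  have := dec_unique M A hM hA (fun ψ => (f ψ : A)) (fun ψ => (g ψ : A)) (fun ψ => (f ψ).2)
    (fun ψ => (g ψ).2) h
  funext ψ
  exact Subtype.ext (congrFun this ψ)

private theorem card_sub_le (B : Type) [CommGroup B] [Finite B] (hB : Odd (Nat.card B)) :
    (Nat.card (Subgroup B) : ℝ) ≤ Real.exp (11 / 4 * Real.log (Nat.card B) +
      Real.log (Nat.card B) ^ 2 / (4 * Real.log 3)) := by
  have h3 : 0 < Real.log 3 := Real.log_pos (by norm_num)
  have hpos : 0 < Nat.card B := Nat.card_pos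
  by_cases h1 : Nat.card B = 1
  · rw [h1]
    have : Subsingleton B := (Nat.card_eq_one_iff_unique.mp h1).1
    have h2 : Nat.card (Subgroup B) = 1 := by
      rw [Nat.card_eq_one_iff_unique]
      refine ⟨⟨fun a b => ?_⟩, ⟨⊥⟩⟩
      ext x
      rw [Subsingleton.elim x 1]
      exact ⟨fun _ => b.one_mem, fun _ => a.one_mem⟩
    rw [h2]
    simp
  · have h4 : 3 ≤ Nat.card B := by
      rcases hB with ⟨k, hk⟩
      omega
    have h5 := card_subgroup_le 3 (by norm_num) B fun p hp hpd => by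
      have h6 : p ≠ 2 := by
        rintro rfl
        exact (Nat.not_even_iff_odd.mpr hB) (even_iff_two_dvd.mpr hpd)
      have := hp.two_le
      omega
    refine h5.trans ?_
    have hB0 : (0 : ℝ) < Nat.card B := by exact_mod_cast hpos
    rw [← Real.exp_log hB0, ← Real.exp_nat_mul, ← Real.exp_add, Real.exp_log hB0, Real.exp_le_exp]
    set y := Real.log (Nat.card B) with hy
    have h7 : Real.log 3 ≤ y := Real.log_le_log (by norm_num) (by exact_mod_cast h4)
    have h8 : Real.log (3 : ℕ) = Real.log 3 := by norm_num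
    rw [h8]
    have h9 : Real.log 3 * (y / Real.log 3 + 1) ^ 2 / 4 =
        y ^ 2 / (4 * Real.log 3) + y / 2 + Real.log 3 / 4 := by
      field_simp
      ring
    rw [h9]
    push_cast
    linarith

private theorem abs_ocount {M A : Type} [CommGroup M] [Finite M] [CommGroup A] [Finite A]
    [MulDistribMulAction M A] (hM : ∀ m : M, m * m = 1) (hA : Odd (Nat.card A)) :
    ∃ χ : M →* ℤˣ, (Nat.card {O : Subgroup A // ∀ m : M, ∀ o ∈ O, m • o ∈ O} : ℝ) ≤
      (Nat.card A : ℝ) ^ 3 * Real.exp (Real.log (Nat.card (E M A χ)) * Real.log (Nat.card A) /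
        (4 * Real.log 3)) := by
  classical
  have _ := finite_char M
  let _ : Fintype (M →* ℤˣ) := Fintype.ofFinite _
  obtain ⟨χ, -, hχ⟩ := Finset.exists_max_image (Finset.univ : Finset (M →* ℤˣ))
    (fun ψ => Real.log (Nat.card (E M A ψ))) ⟨1, Finset.mem_univ _⟩
  refine ⟨χ, ?_⟩
  have h3 : 0 < Real.log 3 := Real.log_pos (by norm_num)
  have hA0 : (0 : ℝ) < Nat.card A := by exact_mod_cast (Nat.card_pos : 0 < Nat.card A)
  have hE0 : ∀ ψ : M →* ℤˣ, (0 : ℝ) < Nat.card (E M A ψ) := fun ψ => by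
    exact_mod_cast (Nat.card_pos : 0 < Nat.card (E M A ψ))
  have hE1 : ∀ ψ : M →* ℤˣ, 0 ≤ Real.log (Nat.card (E M A ψ)) := fun ψ =>
    Real.log_natCast_nonneg _
  have hsum : ∑ ψ : M →* ℤˣ, Real.log (Nat.card (E M A ψ)) ≤ Real.log (Nat.card A) := by
    rw [← Real.log_prod (fun ψ _ => (hE0 ψ).ne')]
    apply Real.log_le_log (Finset.prod_pos fun ψ _ => hE0 ψ)
    exact_mod_cast prod_card_le (A := A) hM hA
  have h1 : (Nat.card {O : Subgroup A // ∀ m : M, ∀ o ∈ O, m • o ∈ O} : ℝ) ≤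
      ∏ ψ : M →* ℤˣ, Real.exp (11 / 4 * Real.log (Nat.card (E M A ψ)) +
        Real.log (Nat.card (E M A ψ)) ^ 2 / (4 * Real.log 3)) := by
    have h2 : (Nat.card {O : Subgroup A // ∀ m : M, ∀ o ∈ O, m • o ∈ O} : ℝ) ≤
        ∏ ψ : M →* ℤˣ, (Nat.card (Subgroup (E M A ψ)) : ℝ) := by
      exact_mod_cast card_inv_le (A := A) hM hA
    refine h2.trans (Finset.prod_le_prod (fun ψ _ => Nat.cast_nonneg _) fun ψ _ => ?_)
    exact card_sub_le _ (hA.of_dvd_nat (Subgroup.card_subgroup_dvd_card _))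
  refine h1.trans ?_
  rw [← Real.exp_sum, Finset.sum_add_distrib, ← Finset.mul_sum, ← Finset.sum_div]
  have h4 : ∑ ψ : M →* ℤˣ, Real.log (Nat.card (E M A ψ)) ^ 2 ≤
      Real.log (Nat.card (E M A χ)) * Real.log (Nat.card A) := by
    calc ∑ ψ : M →* ℤˣ, Real.log (Nat.card (E M A ψ)) ^ 2
        ≤ ∑ ψ : M →* ℤˣ, Real.log (Nat.card (E M A χ)) * Real.log (Nat.card (E M A ψ)) := by
          refine Finset.sum_le_sum fun ψ _ => ?_
          rw [pow_two]
          exact mul_le_mul_of_nonneg_right (hχ ψ (Finset.mem_univ _)) (hE1 ψ)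
      _ = Real.log (Nat.card (E M A χ)) * ∑ ψ : M →* ℤˣ, Real.log (Nat.card (E M A ψ)) := by
          rw [Finset.mul_sum]
      _ ≤ _ := mul_le_mul_of_nonneg_left hsum (hE1 χ)
  rw [Real.exp_add]
  have h5 : Real.exp (11 / 4 * ∑ ψ : M →* ℤˣ, Real.log (Nat.card (E M A ψ))) ≤
      (Nat.card A : ℝ) ^ 3 := by
    rw [← Real.exp_log hA0, ← Real.exp_nat_mul, Real.exp_le_exp]
    have : 0 ≤ Real.log (Nat.card A) := Real.log_natCast_nonneg _
    push_cast
    linarith
  refine mul_le_mul h5 ?_ (Real.exp_pos _).le (by positivity)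
  rw [Real.exp_le_exp]
  gcongr

theorem ocount {n : ℕ} (V L : Subgroup (Perm (Fin n))) (hV : AbGe 3 V) (hL : El L) (hN : Nrm L V) :
    ∃ χ : L →* ℤˣ,
      (Nat.card {O : Subgroup (Perm (Fin n)) // O ≤ V ∧ Nrm L O} : ℝ) ≤ (Nat.card V : ℝ) ^ 3 *
        Real.exp (Real.log (Nat.card (eig V L χ)) * Real.log (Nat.card V) / (4 * Real.log 3)) := by
  classical
  let _ : CommGroup V :=
    { (inferInstance : Group V) with
      mul_comm := fun a b => Subtype.ext (hV.1 a a.2 b b.2) }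
  let _ : CommGroup L :=
    { (inferInstance : Group L) with
      mul_comm := fun a b => by
        have h1 : ∀ l : L, l * l = 1 := fun l => Subtype.ext (hL l l.2)
        have h2 : ∀ l : L, l⁻¹ = l := fun l => inv_eq_of_mul_eq_one_left (h1 l)
        calc a * b = (a * b)⁻¹ := (h2 _).symm
          _ = b⁻¹ * a⁻¹ := mul_inv_rev a b
          _ = b * a := by rw [h2, h2] }
  let _ : MulDistribMulAction L V :=
    { smul := fun l v => ⟨(l : Perm (Fin n)) * v * (l : Perm (Fin n))⁻¹, hN l l.2 v v.2⟩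
      one_smul := fun v => Subtype.ext (by
        show (1 : Perm (Fin n)) * v * (1 : Perm (Fin n))⁻¹ = v
        simp)
      mul_smul := fun l l' v => Subtype.ext (by
        show ((l : Perm (Fin n)) * l') * v * ((l : Perm (Fin n)) * l')⁻¹ =
          l * (l' * v * (l' : Perm (Fin n))⁻¹) * (l : Perm (Fin n))⁻¹
        group)
      smul_mul := fun l v w => Subtype.ext (by
        show (l : Perm (Fin n)) * (v * w) * (l : Perm (Fin n))⁻¹ =
          (l * v * (l : Perm (Fin n))⁻¹) * (l * w * (l : Perm (Fin n))⁻¹)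
        group)
      smul_one := fun l => Subtype.ext (by
        show (l : Perm (Fin n)) * (1 : Perm (Fin n)) * (l : Perm (Fin n))⁻¹ = 1
        simp) }
  have hsm : ∀ (l : L) (v : V), ((l • v : V) : Perm (Fin n)) =
      (l : Perm (Fin n)) * v * (l : Perm (Fin n))⁻¹ := fun _ _ => rfl
  have hodd : Odd (Nat.card V) := by
    rw [← Nat.not_even_iff_odd]
    intro h
    have := hV.2 2 Nat.prime_two (even_iff_two_dvd.mp h)
    omega
  obtain ⟨χ, hχ⟩ := abs_ocount (M := L) (A := V) (fun l => Subtype.ext (hL l l.2)) hodd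
  refine ⟨χ, ?_⟩
  have h1 : Nat.card {O : Subgroup (Perm (Fin n)) // O ≤ V ∧ Nrm L O} ≤
      Nat.card {O : Subgroup V // ∀ m : L, ∀ o ∈ O, m • o ∈ O} := by
    refine Nat.card_le_card_of_injective (fun O => ⟨(O : Subgroup (Perm (Fin n))).subgroupOf V,
      fun m o ho => ?_⟩) fun O O' h => ?_
    · rw [Subgroup.mem_subgroupOf] at ho ⊢
      rw [hsm]
      exact O.2.2 m m.2 o ho
    · apply Subtype.ext
      have h2 := congrArg Subtype.val h
      simp only at h2
      have h3 := (Subgroup.subgroupOf_inj (H₁ := (O : Subgroup (Perm (Fin n))))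
        (H₂ := (O' : Subgroup (Perm (Fin n)))) (K := V)).mp h2
      rwa [inf_eq_left.mpr O.2.1, inf_eq_left.mpr O'.2.1] at h3
  have h2 : Nat.card (E L V χ) = Nat.card (eig V L χ) := by
    refine Nat.card_congr ⟨fun v => ⟨((v : V) : Perm (Fin n)), (v : V).2, fun l => ?_⟩,
      fun v => ⟨⟨(v : Perm (Fin n)), v.2.1⟩, fun l => ?_⟩, fun _ => rfl, fun _ => rfl⟩
    · have h3 := mem_E.mp v.2 l
      have h4 := congrArg (fun z : V => (z : Perm (Fin n))) h3
      simpa [hsm] using h4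
    · apply Subtype.ext
      rw [hsm]
      have := v.2.2 l
      simpa using this
  rw [h2] at hχ
  refine le_trans ?_ hχ
  exact_mod_cast h1

end Pool.Agent.SqA
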