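import Pool.Agent.SqA.Str
import Pool.Agent.SqA.Enc
import Pool.Agent.SqA.OCount
import Pool.Agent.AbS.SplitB
import Pool.Agent.AbS.HatC

/-!
Counting the pairs `(O, L)`.

`rel_count`: `D = supp O` is one of at most `n ^ d` sets; `O` fixes all points outside `D`: at most `nGe 3 d` groups
(`nGe_support`); `Z` from `str` with `χ = 1` is one of the `2 ^ d` subsets of `D`, `3 |Z| ≥ d`; then `enc0`.
`abs_count`: `hat O` is the hat of the group generated by one of the `(n !) ^ (log n + 1)` maps (`exists_gen`). Fix `V`. For the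
`L` which occur together with some `O`, `hat O = V` (then `L` normalises `V`: `Pair.hat_nrm`, `AbGe.hat`), take `χ` from
`ocount V L` and `Z` from `str`: there are `2 ^ n` sets `Z`, `3 |Z| ≥ d`, and the number of `L` is bounded by `enc2`. For given
`V`, `L` the number of `O` with `hat O = V` (so `O ≤ V`, `le_hat`) is by `ocount` at most
`|V| ^ 3 exp (log |eig| log |V| / (4 log 3))`, and `|V| ^ 4 ≤ 3 ^ (2 n - |Z|)`, `|eig| ^ 2 ≤ 3 ^ |Z|`.
-/

set_option autoImplicit false

namespace Pool.Agent.SqA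

open Equiv Pool.Agent.AbS

/-- Counting with labels. -/
private theorem fiber_le {α ι : Type} [Finite α] (I : Finset ι) (lab : α → ι) (h : ∀ a, lab a ∈ I)
    (c : ι → ℝ) (hc : ∀ i ∈ I, (Nat.card {a : α // lab a = i} : ℝ) ≤ c i) :
    (Nat.card α : ℝ) ≤ ∑ i ∈ I, c i := by
  classical
  let _ : Fintype α := Fintype.ofFinite α
  have h1 : Nat.card α = ∑ i ∈ I, Nat.card {a : α // lab a = i} := by
    rw [Nat.card_eq_fintype_card, ← Finset.card_univ,
      Finset.card_eq_sum_card_fiberwise (f := lab) (t := I) (fun a _ => h a)]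
    refine Finset.sum_congr rfl fun i _ => ?_
    rw [Nat.card_eq_fintype_card, Fintype.card_subtype]
  rw [h1]
  push_cast
  exact Finset.sum_le_sum hc

private theorem sum_card_le {β : Type} (J : Finset (Finset β)) (I : Finset ℕ) (hJ : ∀ Z ∈ J, Z.card ∈ I)
    (N : ℝ) (hN : (J.card : ℝ) ≤ N) (h : ℕ → ℝ) (h0 : ∀ z, 0 ≤ h z) :
    ∑ Z ∈ J, h Z.card ≤ N * ∑ z ∈ I, h z := by
  classical
  rw [← Finset.sum_fiberwise_of_maps_to (t := I) (g := Finset.card) hJ, Finset.mul_sum]
  refine Finset.sum_le_sum fun z _ => ?_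
  have h1 : ∑ Z ∈ J.filter (fun Z => Z.card = z), h Z.card =
      ((J.filter (fun Z => Z.card = z)).card : ℝ) * h z := by
    rw [← nsmul_eq_mul, ← Finset.sum_const]
    refine Finset.sum_congr rfl fun Z hZ => ?_
    rw [(Finset.mem_filter.1 hZ).2]
  rw [h1]
  refine mul_le_mul_of_nonneg_right (le_trans ?_ hN) (h0 z)
  exact_mod_cast Finset.card_filter_le _ _

private theorem W_pos (n : ℕ) : 1 ≤ W n := by
  unfold W
  have : 1 ≤ (n + 1) ^ (ell n + 1) := Nat.one_le_pow _ _ (Nat.succ_pos n)
  omega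

theorem rel_count (n d : ℕ) :
    Nat.card {p : Subgroup (Perm (Fin n)) × Subgroup (Perm (Fin n)) // Pair p.1 p.2 ∧ (supp p.1).card = d} ≤
      (2 * n * W n) ^ d * nGe 3 d * ∑ z ∈ Finset.Icc ((d + 2) / 3) d, nEl (n - z) := by
  classical
  have key : (Nat.card {p : Subgroup (Perm (Fin n)) × Subgroup (Perm (Fin n)) //
      Pair p.1 p.2 ∧ (supp p.1).card = d} : ℝ) ≤
      (2 * n * W n) ^ d * nGe 3 d * ∑ z ∈ Finset.Icc ((d + 2) / 3) d, (nEl (n - z) : ℝ) := by
    have hZ : ∀ p : {p : Subgroup (Perm (Fin n)) × Subgroup (Perm (Fin n)) //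
        Pair p.1 p.2 ∧ (supp p.1).card = d}, ∃ Z : Finset (Fin n), Z ⊆ supp p.1.1 ∧
        d ≤ 3 * Z.card ∧ Good (ell n) Z p.1.2 1 := by
      intro p
      obtain ⟨Z, h1, h2, h3, -, -⟩ := str p.2.1 1
      exact ⟨Z, h1, p.2.2 ▸ h2, h3⟩
    choose Zf hZ1 hZ2 hZ3 using hZ
    set M : ℝ := 2 ^ d * ∑ z ∈ Finset.Icc ((d + 2) / 3) d, ((nGe 3 d : ℝ) * ((W n : ℝ) ^ d * nEl (n - z)))
      with hM
    have h1 := fiber_le (Finset.powersetCard d Finset.univ)
      (fun p : {p : Subgroup (Perm (Fin n)) × Subgroup (Perm (Fin n)) //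
        Pair p.1 p.2 ∧ (supp p.1).card = d} => supp p.1.1)
      (fun p => Finset.mem_powersetCard.2 ⟨Finset.subset_univ _, p.2.2⟩) (fun _ => M) (by
        intro D hD
        have hDc : D.card = d := (Finset.mem_powersetCard.1 hD).2
        refine le_trans (fiber_le (D.powerset.filter fun Z => d ≤ 3 * Z.card) (fun a => Zf a.1)
          (fun a => ?_) (fun Z => (nGe 3 d : ℝ) * ((W n : ℝ) ^ d * nEl (n - Z.card))) ?_) ?_
        · rw [Finset.mem_filter, Finset.mem_powerset]
          exact ⟨(hZ1 a.1).trans a.2.le, hZ2 a.1⟩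
        · intro Z hZ
          rw [Finset.mem_filter, Finset.mem_powerset] at hZ
          have h2 : Nat.card {a : {p : {p : Subgroup (Perm (Fin n)) × Subgroup (Perm (Fin n)) //
              Pair p.1 p.2 ∧ (supp p.1).card = d} // supp p.1.1 = D} // Zf a.1 = Z} ≤
              Nat.card ({U : Subgroup (Perm (Fin n)) // AbGe 3 U ∧ ∀ u ∈ U, ∀ x, x ∉ D → u x = x} ×
                {L : Subgroup (Perm (Fin n)) // El L ∧ Good (ell n) Z L 1}) := by
            refine Nat.card_le_card_of_injective (fun a => (⟨a.1.1.1.1, a.1.1.2.1.1, fun u hu x hx => ?_⟩,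
              ⟨a.1.1.1.2, a.1.1.2.1.2.1, by
                have h8 := hZ3 a.1.1
                have h9 : Zf a.1.1 = Z := a.2
                rw [h9] at h8
                exact h8⟩)) ?_
            · by_contra hne
              apply hx
              rw [← a.1.2, mem_supp]
              exact ⟨u, hu, hne⟩
            · intro a b hab
              have h3 := congrArg (fun q => (q.1.1, q.2.1)) hab
              exact Subtype.ext (Subtype.ext (Subtype.ext h3))
          rw [Nat.card_prod] at h2
          have h3 := nGe_support 3 n D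
          rw [hDc] at h3
          have h4 := enc0 n (ell n) Z
          have h5 : (4 * (n + 1) ^ (ell n + 1)) ^ Z.card ≤ W n ^ d := by
            have h6 : Z.card ≤ d := hDc ▸ Finset.card_le_card hZ.1
            exact Nat.pow_le_pow_right (W_pos n) h6
          have h7 := h2.trans (Nat.mul_le_mul h3 (h4.trans (Nat.mul_le_mul_right _ h5)))
          exact_mod_cast h7
        · refine le_trans (sum_card_le _ (Finset.Icc ((d + 2) / 3) d) ?_ (2 ^ d) ?_
            (fun z => (nGe 3 d : ℝ) * ((W n : ℝ) ^ d * nEl (n - z))) ?_) (le_of_eq hM.symm)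
          · intro Z hZ
            rw [Finset.mem_filter, Finset.mem_powerset] at hZ
            have h6 : Z.card ≤ d := hDc ▸ Finset.card_le_card hZ.1
            rw [Finset.mem_Icc]
            omega
          · have h6 := Finset.card_filter_le D.powerset (fun Z => d ≤ 3 * Z.card)
            rw [Finset.card_powerset, hDc] at h6
            exact_mod_cast h6
          · intro z
            positivity)
    refine h1.trans ?_
    rw [Finset.sum_const, Finset.card_powersetCard, Finset.card_univ, Fintype.card_fin, nsmul_eq_mul]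
    have h2 : ((n.choose d : ℕ) : ℝ) ≤ (n : ℝ) ^ d := by exact_mod_cast Nat.choose_le_pow n d
    have hM0 : 0 ≤ M := by
      rw [hM]
      positivity
    refine (mul_le_mul_of_nonneg_right h2 hM0).trans (le_of_eq ?_)
    rw [hM, ← Finset.mul_sum, ← Finset.mul_sum]
    ring
  exact_mod_cast key

private theorem bound_real {n z : ℕ} (v w : ℕ) (hv0 : 0 < v) (hw0 : 0 < w) (hz : z ≤ 2 * n)
    (hv : v ^ 4 ≤ 3 ^ (2 * n - z)) (hw : w ^ 2 ≤ 3 ^ z) :
    (v : ℝ) ^ 3 * Real.exp (Real.log w * Real.log v / (4 * Real.log 3)) ≤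
      3 ^ (2 * n) * Real.exp (Real.log 3 * z * (2 * n - z) / 32) := by
  have h3 : 0 < Real.log 3 := Real.log_pos (by norm_num)
  have hv1 : (1 : ℝ) ≤ v := by exact_mod_cast hv0
  have hw1 : (1 : ℝ) ≤ w := by exact_mod_cast hw0
  have e1 : 4 * Real.log v ≤ (2 * n - z) * Real.log 3 := by
    have h4 : ((v : ℝ)) ^ 4 ≤ 3 ^ (2 * n - z) := by exact_mod_cast hv
    have h5 := Real.log_le_log (by positivity) h4
    rw [Real.log_pow, Real.log_pow, Nat.cast_sub hz] at h5
    push_cast at h5
    exact h5
  have e2 : 2 * Real.log w ≤ z * Real.log 3 := by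
    have h4 : ((w : ℝ)) ^ 2 ≤ 3 ^ z := by exact_mod_cast hw
    have h5 := Real.log_le_log (by positivity) h4
    rw [Real.log_pow, Real.log_pow] at h5
    push_cast at h5
    exact h5
  have hlv : 0 ≤ Real.log v := Real.log_nonneg hv1
  have hlw : 0 ≤ Real.log w := Real.log_nonneg hw1
  refine mul_le_mul ?_ (Real.exp_le_exp.2 ?_) (Real.exp_pos _).le (by positivity)
  · calc (v : ℝ) ^ 3 ≤ (v : ℝ) ^ 4 := pow_le_pow_right₀ hv1 (by norm_num)
      _ ≤ 3 ^ (2 * n - z) := by exact_mod_cast hv
      _ ≤ 3 ^ (2 * n) := pow_le_pow_right₀ (by norm_num) (Nat.sub_le _ _)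
  · rw [div_le_iff₀ (by positivity)]
    have h4 : (2 * Real.log w) * (4 * Real.log v) ≤ (z * Real.log 3) * ((2 * n - z) * Real.log 3) :=
      mul_le_mul e2 e1 (by positivity) (by positivity)
    nlinarith [h4]

theorem abs_count (n d : ℕ) :
    (Nat.card {p : Subgroup (Perm (Fin n)) × Subgroup (Perm (Fin n)) // Pair p.1 p.2 ∧ d ≤ (supp p.1).card} : ℝ) ≤
      (n.factorial : ℝ) ^ (Nat.log 2 n + 1) * (2 * (W n : ℝ)) ^ n * 3 ^ (2 * n) *
        ∑ z ∈ Finset.Icc ((d + 2) / 3) n, (nEl (n - z + 2) : ℝ) *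
          Real.exp (Real.log 3 * z * (2 * n - z) / 32) := by
  classical
  set ℓ : ℕ := Nat.log 2 n + 1 with hℓ
  have hg : ∀ p : {p : Subgroup (Perm (Fin n)) × Subgroup (Perm (Fin n)) //
      Pair p.1 p.2 ∧ d ≤ (supp p.1).card}, ∃ g : Fin ℓ → Perm (Fin n),
        hat (Subgroup.closure (Set.range g)) = hat p.1.1 := by
    intro p
    refine exists_gen p.2.1.1.1 ℓ ?_
    rw [Nat.card_eq_fintype_card, Fintype.card_fin]
    exact Nat.lt_pow_succ_log_self (by norm_num) n
  choose g hg using hg
  set T : ℕ → ℝ := fun z => 3 ^ (2 * n) * Real.exp (Real.log 3 * z * (2 * n - z) / 32) with hT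
  have hT0 : ∀ z, 0 ≤ T z := fun z => by
    rw [hT]
    positivity
  set M : ℝ := 2 ^ n * ∑ z ∈ Finset.Icc ((d + 2) / 3) n, ((W n : ℝ) ^ n * nEl (n - z + 2)) * T z with hM
  have h1 := fiber_le (Finset.univ : Finset (Fin ℓ → Perm (Fin n))) g (fun _ => Finset.mem_univ _)
    (fun _ => M) (by
      intro g₀ _
      set V : Subgroup (Perm (Fin n)) := hat (Subgroup.closure (Set.range g₀)) with hV
      -- the sets `Z`
      have hZ : ∀ L : Subgroup (Perm (Fin n)), ∃ Z : Finset (Fin n),
          (∃ O, Pair O L ∧ d ≤ (supp O).card ∧ hat O = V) →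
          (d ≤ 3 * Z.card ∧ (∃ χ : L →* ℤˣ, Good (ell n) Z L χ) ∧
            (Nat.card {O : Subgroup (Perm (Fin n)) // O ≤ V ∧ Nrm L O} : ℝ) ≤ T Z.card) := by
        intro L
        by_cases hL : ∃ O, Pair O L ∧ d ≤ (supp O).card ∧ hat O = V
        swap
        · exact ⟨∅, fun h => absurd h hL⟩
        obtain ⟨O, hO, hd, hOV⟩ := hL
        have hVa : AbGe 3 V := hOV ▸ hO.1.hat
        have hVn : Nrm L V := hOV ▸ hO.hat_nrm
        obtain ⟨χ, hχ⟩ := ocount V L hVa hO.2.1 hVn
        obtain ⟨Z, hZ1, hZ2, hZ3, hZ4, hZ5⟩ := str hO χ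
        refine ⟨Z, fun _ => ⟨hd.trans hZ2, ⟨χ, hZ3⟩, hχ.trans ?_⟩⟩
        rw [hOV] at hZ4 hZ5
        refine bound_real _ _ Nat.card_pos ?_ ?_ hZ4 hZ5
        · have : Nonempty (eig V L χ) := ⟨⟨1, V.one_mem, fun l => by simp⟩⟩
          exact Nat.card_pos
        · have h2 := Finset.card_le_univ Z
          rw [Fintype.card_fin] at h2
          omega
      choose Zf hZf using hZ
      have hmem : ∀ a : {a : {p : Subgroup (Perm (Fin n)) × Subgroup (Perm (Fin n)) //
          Pair p.1 p.2 ∧ d ≤ (supp p.1).card} // g a = g₀},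
          ∃ O, Pair O a.1.1.2 ∧ d ≤ (supp O).card ∧ hat O = V := fun a =>
        ⟨a.1.1.1, a.1.2.1, a.1.2.2, (hg a.1).symm.trans (by
          have h2 : g a.1 = g₀ := a.2
          rw [h2])⟩
      refine le_trans (fiber_le (Finset.univ.filter fun Z : Finset (Fin n) => d ≤ 3 * Z.card)
        (fun a => Zf a.1.1.2) (fun a => ?_)
        (fun Z => ((W n : ℝ) ^ n * nEl (n - Z.card + 2)) * T Z.card) ?_) ?_
      · rw [Finset.mem_filter]
        exact ⟨Finset.mem_univ _, (hZf _ (hmem a)).1⟩
      · intro Z hZ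
        let _ : Fintype (Subgroup (Perm (Fin n))) := Fintype.ofFinite _
        refine le_trans (fiber_le (Finset.univ.filter fun L : Subgroup (Perm (Fin n)) =>
          El L ∧ ∃ χ : L →* ℤˣ, Good (ell n) Z L χ) (fun b => b.1.1.1.2) (fun b => ?_)
          (fun _ => T Z.card) ?_) ?_
        · rw [Finset.mem_filter]
          have h3 := (hZf _ (hmem b.1)).2.1
          rw [b.2] at h3
          exact ⟨Finset.mem_univ _, b.1.1.2.1.2.1, h3⟩
        · intro L _
          by_cases hne : Nonempty {b : {a : {a : {p : Subgroup (Perm (Fin n)) × Subgroup (Perm (Fin n)) //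
              Pair p.1 p.2 ∧ d ≤ (supp p.1).card} // g a = g₀} // Zf a.1.1.2 = Z} // b.1.1.1.2 = L}
          · obtain ⟨b⟩ := hne
            have h3 := hZf L (b.2 ▸ hmem b.1.1)
            have h4 : Zf L = Z := by
              rw [← b.2]
              exact b.1.2
            rw [h4] at h3
            refine le_trans ?_ h3.2.2
            have h5 := Nat.card_le_card_of_injective
              (fun c : {b : {a : {a : {p : Subgroup (Perm (Fin n)) × Subgroup (Perm (Fin n)) //
                Pair p.1 p.2 ∧ d ≤ (supp p.1).card} // g a = g₀} // Zf a.1.1.2 = Z} // b.1.1.1.2 = L} =>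
                (⟨c.1.1.1.1.1, by
                  have h6 := le_hat c.1.1.1.1.1
                  rw [← hg c.1.1.1, c.1.1.2] at h6
                  exact h6, by
                  have h6 : Nrm c.1.1.1.1.2 c.1.1.1.1.1 := c.1.1.1.2.1.2.2
                  have h7 : c.1.1.1.1.2 = L := c.2
                  rw [h7] at h6
                  exact h6⟩ :
                  {O : Subgroup (Perm (Fin n)) // O ≤ V ∧ Nrm L O})) (by
              intro c c' hcc
              have h6 : c.1.1.1.1.1 = c'.1.1.1.1.1 := congrArg Subtype.val hcc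
              have h7 : c.1.1.1.1.2 = c'.1.1.1.1.2 := c.2.trans c'.2.symm
              exact Subtype.ext (Subtype.ext (Subtype.ext (Subtype.ext (Prod.ext h6 h7)))))
            exact_mod_cast h5
          · have : IsEmpty {b : {a : {a : {p : Subgroup (Perm (Fin n)) × Subgroup (Perm (Fin n)) //
                Pair p.1 p.2 ∧ d ≤ (supp p.1).card} // g a = g₀} // Zf a.1.1.2 = Z} // b.1.1.1.2 = L} :=
              not_nonempty_iff.1 hne
            rw [Nat.card_of_isEmpty, Nat.cast_zero]
            exact hT0 _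
        · rw [Finset.sum_const, nsmul_eq_mul]
          refine mul_le_mul_of_nonneg_right ?_ (hT0 _)
          have h3 := enc2 n (ell n) Z
          have h4 : (Finset.univ.filter fun L : Subgroup (Perm (Fin n)) =>
              El L ∧ ∃ χ : L →* ℤˣ, Good (ell n) Z L χ).card =
              Nat.card {L : Subgroup (Perm (Fin n)) // El L ∧ ∃ χ : L →* ℤˣ, Good (ell n) Z L χ} := by
            rw [Nat.card_eq_fintype_card, Fintype.card_subtype]
          rw [h4]
          have h5 : (4 * (n + 1) ^ (ell n + 1)) ^ Z.card ≤ W n ^ n := by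
            have h6 := Finset.card_le_univ Z
            rw [Fintype.card_fin] at h6
            exact Nat.pow_le_pow_right (W_pos n) h6
          exact_mod_cast h3.trans (Nat.mul_le_mul_right _ h5)
      · refine le_trans (sum_card_le _ (Finset.Icc ((d + 2) / 3) n) ?_ (2 ^ n) ?_
          (fun z => ((W n : ℝ) ^ n * nEl (n - z + 2)) * T z) ?_) (le_of_eq hM.symm)
        · intro Z hZ
          rw [Finset.mem_filter] at hZ
          have h6 := Finset.card_le_univ Z
          rw [Fintype.card_fin] at h6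
          rw [Finset.mem_Icc]
          omega
        · have h6 := Finset.card_filter_le (Finset.univ : Finset (Finset (Fin n)))
            (fun Z => d ≤ 3 * Z.card)
          rw [Finset.card_univ, Fintype.card_finset, Fintype.card_fin] at h6
          exact_mod_cast h6
        · intro z
          have := hT0 z
          positivity)
  refine h1.trans (le_of_eq ?_)
  rw [Finset.sum_const, Finset.card_univ, Fintype.card_fun, Fintype.card_perm, Fintype.card_fin,
    Fintype.card_fin, nsmul_eq_mul, hM, hT]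
  push_cast
  simp only [Finset.mul_sum]
  refine Finset.sum_congr rfl fun z _ => ?_
  rw [mul_pow]
  ring

end Pool.Agent.SqA
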