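import Pool.Agent.AbS.Defs

/-!
MP_7fa120_al: subgroups of the symmetric groups whose squares generate an abelian group of odd order. Definitions.

PAPER PROOF (theorem `main` in Main.lean). `H` with `Fam H` is `O L` with `O` normal abelian of odd order and `L` an
elementary abelian 2-group (`Pair O L`). `E n = nEl n` is the number of elementary abelian 2-subgroups of `S_n`:
`E n` is between `exp (log 2 n² / 16 - C n)` and `exp (log 2 n² / 16 + C n (1 + log n)²)`,
`E (n + 2) ≥ exp (c n) E n`, `E n ≤ n E (n - 1)` for odd `n`.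
(1) STRUCTURE (`str`). Let `D` be the set of points moved by `O`, `V = hat O`, `χ` a character of `L` (possibly trivial).
There is an `L`-invariant `Z ⊆ D`, `|Z| ≥ |D| / 3`, such that the stabilizer in `L` of every `z ∈ Z` is the stabilizer of
a small finite set `F` outside `Z` or its intersection with `ker χ`. Moreover `|V|⁴ ≤ 3 ^ (2 n - |Z|)` and
`|V_χ|² ≤ 3 ^ |Z|`, `V_χ` the elements `v` with `l v l⁻¹ = v ^ χ(l)`.
(2) ENCODING (`enc0`, `enc2`). So `L` is determined by its action outside `Z` (and `χ`, i.e. two more points, if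
`χ ≠ 1`) and `W ^ |Z|` further choices, `W = n ^ O(log n)`.
(3) For given `V`, `L` the number of `L`-invariant subgroups `O` is at most `|V|³ exp (log |V_χ| log |V| / (4 log 3))`
for some `χ` (`ocount`), by (1) at most `exp (C n + log 3 |Z| (2 n - |Z|) / 32)`; `log 3 / 32 < log 2 / 16`.
(4) So the pairs with `|D| = d ≥ 1` are few compared to `E n` (growth for `d ≤ ε n`, (3) for `d > ε n`), except that
for odd `n` the case `d = 3` must be kept.
(5) For odd `n` the groups with one orbit of length 3 (acting as `S_3`) are at least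
`(n / 3) ∑ a₂(K)`, `K` over the elementary abelian 2-subgroups of `S_(n-1)`, `a₂` = number of orbits of length 2
(`odd_main`), and `a₂ ≥ A` for almost all `K` (`exch`, `rank_small`), so they dominate `E n ≤ n E (n - 1)`.
-/

set_option autoImplicit false

namespace Pool.Agent.SqA

open Equiv Pool.Agent.AbS

/-- The squares of the elements of `H` lie in an abelian subgroup of `H` of odd order. -/
def Fam {Ω : Type} (H : Subgroup (Perm Ω)) : Prop :=
  ∃ O : Subgroup (Perm Ω), O ≤ H ∧ (∀ a ∈ O, ∀ b ∈ O, a * b = b * a) ∧ Odd (Nat.card O) ∧ ∀ h ∈ H, h * h ∈ O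

/-- All elements have order at most two. -/
def El {Ω : Type} (L : Subgroup (Perm Ω)) : Prop := ∀ l ∈ L, l * l = 1

/-- The number of subgroups of `S_n` with `El`. -/
noncomputable def nEl (n : ℕ) : ℕ := Nat.card {L : Subgroup (Perm (Fin n)) // El L}

/-- The number of subgroups of `S_n` with `Fam`. -/
noncomputable def nFam (n : ℕ) : ℕ := Nat.card {H : Subgroup (Perm (Fin n)) // Fam H}

/-- The proportion of the subgroups with `Fam` whose order is a multiple of `m`. -/
noncomputable def dens (n m : ℕ) : ℝ :=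
  (Nat.card {H : Subgroup (Perm (Fin n)) // Fam H ∧ m ∣ Nat.card H} : ℝ) /
    (Nat.card {H : Subgroup (Perm (Fin n)) // Fam H} : ℝ)

/-- The points moved by `O`. -/
noncomputable def supp {n : ℕ} (O : Subgroup (Perm (Fin n))) : Finset (Fin n) := by
  classical exact Finset.univ.filter (fun x => ∃ o ∈ O, o x ≠ x)

theorem mem_supp {n : ℕ} {O : Subgroup (Perm (Fin n))} {x : Fin n} : x ∈ supp O ↔ ∃ o ∈ O, o x ≠ x := by
  classical
  unfold supp
  simp

/-- `L` normalises `O`. -/
def Nrm {Ω : Type} (L O : Subgroup (Perm Ω)) : Prop := ∀ l ∈ L, ∀ o ∈ O, l * o * l⁻¹ ∈ O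

/-- `O` is abelian of odd order and `L` is an elementary abelian 2-group normalising `O`. -/
def Pair {Ω : Type} (O L : Subgroup (Perm Ω)) : Prop := AbGe 3 O ∧ El L ∧ Nrm L O

/-- The stabilizers in `L` of the points of `Z` are visible outside `Z` (or in `χ`). -/
def Good (ℓ : ℕ) {n : ℕ} (Z : Finset (Fin n)) (L : Subgroup (Perm (Fin n))) (χ : L →* ℤˣ) : Prop :=
  (∀ l ∈ L, ∀ z ∈ Z, l z ∈ Z) ∧
  ∀ z ∈ Z, ∃ F : Finset (Fin n), Disjoint F Z ∧ F.card ≤ ℓ ∧ ∃ b : Prop,
    ∀ (l : Perm (Fin n)) (hl : l ∈ L), l z = z ↔ (F.image (⇑l) = F ∧ (b → χ ⟨l, hl⟩ = 1))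

/-- The elements of `V` on which `L` acts by the character `χ`. -/
def eig {Ω : Type} (V L : Subgroup (Perm Ω)) (χ : L →* ℤˣ) : Set (Perm Ω) :=
  {v | v ∈ V ∧ ∀ l : L, (l : Perm Ω) * v * (l : Perm Ω)⁻¹ = v ^ ((χ l : ℤˣ) : ℤ)}

/-- The size of the sets `F`. -/
def ell (n : ℕ) : ℕ := 2 * Nat.log 2 n + 2

/-- The number of choices for one point. -/
def W (n : ℕ) : ℕ := 4 * (n + 1) ^ (ell n + 1)

/-- The number of orbits with two elements. -/
noncomputable def a2 {n : ℕ} (K : Subgroup (Perm (Fin n))) : ℕ :=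
  Nat.card {S : Finset (Fin n) // S.card = 2 ∧ ∃ x, (S : Set (Fin n)) = MulAction.orbit K x}

/-- The number of orbits with four elements. -/
noncomputable def a4 {n : ℕ} (K : Subgroup (Perm (Fin n))) : ℕ :=
  Nat.card {S : Finset (Fin n) // S.card = 4 ∧ ∃ x, (S : Set (Fin n)) = MulAction.orbit K x}

end Pool.Agent.SqA
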