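import Pool.Agent.SqA.ElLow
import Pool.Agent.AbS.Num

/-!
Growth and size of `nEl`. `grow_el`: copy AbS/GrowA.lean (`gr_ab` with `El`; everything else is the same).
`lowerE`, `upperE`, `growthE`: copy the proofs of `lowerN`, `upperN`, `growth` in AbS/Num.lean with `q = 2`
(`upperE` from `nEl_le` and `upperN`; `growthE` needs `few_or_many` for `El` groups and `count_few` through `El.abQ`).
-/

set_option autoImplicit false

namespace Pool.Agent.SqA

open Equiv Filter Topology Pool.Agent.AbS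

private def tr (q : ℕ) : Multiplicative (ZMod q) →* Perm (ZMod q) where
  toFun z := Equiv.addRight (Multiplicative.toAdd z)
  map_one' := by ext x; simp
  map_mul' a b := by
    apply Equiv.ext
    intro x
    simp only [toAdd_mul, Perm.mul_apply, Equiv.coe_addRight]
    ring

private theorem tr_inj (q : ℕ) : Function.Injective (tr q) := by
  intro a b h
  have := congrArg (fun σ : Perm (ZMod q) => σ 0) h
  simpa [tr] using this

private noncomputable def ee (n q : ℕ) [NeZero q] : Fin n ⊕ ZMod q ≃ Fin (n + q) :=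
  (Equiv.sumCongr (Equiv.refl _) (ZMod.finEquiv q).symm.toEquiv).trans finSumFinEquiv

private noncomputable def J (n q : ℕ) [NeZero q] :
    Perm (Fin n) × Multiplicative (ZMod q) →* Perm (Fin (n + q)) :=
  ((ee n q).permCongrHom.toMonoidHom).comp
    ((Equiv.Perm.sumCongrHom (Fin n) (ZMod q)).comp (MonoidHom.prodMap (MonoidHom.id _) (tr q)))

private theorem J_inj (n q : ℕ) [NeZero q] : Function.Injective (J n q) := by
  unfold J
  rw [MonoidHom.coe_comp, MonoidHom.coe_comp]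
  refine (ee n q).permCongrHom.injective.comp ((Equiv.Perm.sumCongrHom_injective).comp ?_)
  exact Function.Injective.prodMap Function.injective_id (tr_inj q)

/-- The graph of a homomorphism. -/
private def gr {n q : ℕ} (H : Subgroup (Perm (Fin n))) (φ : H →* Multiplicative (ZMod q)) :
    Subgroup (Perm (Fin n) × Multiplicative (ZMod q)) :=
  (MonoidHom.prod H.subtype φ).range

private theorem gr_mem {n q : ℕ} {H : Subgroup (Perm (Fin n))} {φ : H →* Multiplicative (ZMod q)}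
    {x : Perm (Fin n) × Multiplicative (ZMod q)} :
    x ∈ gr H φ ↔ ∃ h : x.1 ∈ H, φ ⟨x.1, h⟩ = x.2 := by
  unfold gr
  rw [MonoidHom.mem_range]
  constructor
  · rintro ⟨y, rfl⟩
    exact ⟨y.2, rfl⟩
  · rintro ⟨h, h2⟩
    refine ⟨⟨x.1, h⟩, ?_⟩
    exact Prod.ext rfl h2

private theorem gr_card {n q : ℕ} (H : Subgroup (Perm (Fin n))) (φ : H →* Multiplicative (ZMod q)) :
    Nat.card (gr H φ) = Nat.card H := by
  unfold gr
  symm
  refine Nat.card_congr (MonoidHom.ofInjective (f := MonoidHom.prod H.subtype φ) ?_).toEquiv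
  intro a b h
  have := congrArg Prod.fst h
  exact Subtype.ext this

private theorem gr_el {n : ℕ} {H : Subgroup (Perm (Fin n))} (hH : El H)
    (φ : H →* Multiplicative (ZMod 2)) : El ((gr H φ).map (J n 2)) := by
  rintro _ ⟨x, hx, rfl⟩
  rw [← map_mul, ← map_one (J n 2)]
  congr 1
  obtain ⟨h1, -⟩ := gr_mem.1 hx
  refine Prod.ext (hH _ h1) ?_
  have h2 : ∀ z : ZMod 2, z + z = 0 := by decide
  exact h2 (Multiplicative.toAdd x.2)

private theorem gr_inj {n q : ℕ} {H H' : Subgroup (Perm (Fin n))} {φ : H →* Multiplicative (ZMod q)}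
    {φ' : H' →* Multiplicative (ZMod q)} (h : gr H φ = gr H' φ') :
    H = H' ∧ ∀ (x : Perm (Fin n)) (hx : x ∈ H) (hx' : x ∈ H'), φ ⟨x, hx⟩ = φ' ⟨x, hx'⟩ := by
  have h1 : ∀ x, (hx : x ∈ H) → ∃ hx' : x ∈ H', φ' ⟨x, hx'⟩ = φ ⟨x, hx⟩ := by
    intro x hx
    have : ((x, φ ⟨x, hx⟩) : Perm (Fin n) × Multiplicative (ZMod q)) ∈ gr H φ := gr_mem.2 ⟨hx, rfl⟩
    rw [h] at this
    exact gr_mem.1 this
  have h2 : ∀ x, (hx : x ∈ H') → x ∈ H := by
    intro x hx
    have : ((x, φ' ⟨x, hx⟩) : Perm (Fin n) × Multiplicative (ZMod q)) ∈ gr H' φ' := gr_mem.2 ⟨hx, rfl⟩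
    rw [← h] at this
    exact (gr_mem.1 this).1
  refine ⟨le_antisymm (fun x hx => (h1 x hx).1) h2, fun x hx hx' => ?_⟩
  exact (h1 x hx).2.symm

theorem grow_el (n k : ℕ) :
    2 ^ k * Nat.card {H : Subgroup (Perm (Fin n)) // El H ∧ 2 ^ k ≤ Nat.card (H →* Multiplicative (ZMod 2))} ≤
      nEl (n + 2) := by
  classical
  set A := {H : Subgroup (Perm (Fin n)) // El H ∧ 2 ^ k ≤ Nat.card (H →* Multiplicative (ZMod 2))} with hA
  have : Finite A := inferInstance
  have : Fintype A := Fintype.ofFinite A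
  have hfin : ∀ H : A, Finite (H.1 →* Multiplicative (ZMod 2)) := fun H => DFunLike.finite _
  have h1 : 2 ^ k * Nat.card A ≤ Nat.card (Σ H : A, (H.1 →* Multiplicative (ZMod 2))) := by
    rw [Nat.card_sigma]
    calc 2 ^ k * Nat.card A = ∑ _H : A, 2 ^ k := by
          rw [Finset.sum_const, Finset.card_univ, Nat.card_eq_fintype_card, smul_eq_mul, mul_comm]
      _ ≤ _ := Finset.sum_le_sum (fun H _ => H.2.2)
  refine h1.trans ?_
  unfold nEl
  refine Nat.card_le_card_of_injective (fun T : (Σ H : A, (H.1 →* Multiplicative (ZMod 2))) =>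
    (⟨(gr T.1.1 T.2).map (J n 2), gr_el T.1.2.1 T.2⟩ :
      {H : Subgroup (Perm (Fin (n + 2))) // El H})) ?_
  rintro ⟨⟨H, hH⟩, φ⟩ ⟨⟨H', hH'⟩, φ'⟩ h
  have h2 : (gr H φ).map (J n 2) = (gr H' φ').map (J n 2) := congrArg Subtype.val h
  have h3 := Subgroup.map_injective (J_inj n 2) h2
  obtain ⟨h4, h5⟩ := gr_inj h3
  subst h4
  have : φ = φ' := by
    ext ⟨x, hx⟩
    exact congrArg _ (h5 x hx hx)
  subst this
  rfl

theorem upperE : ∃ C : ℝ, 0 ≤ C ∧ ∀ n : ℕ, 1 ≤ n →
    (nEl n : ℝ) ≤ Real.exp (Real.log 2 / 16 * n ^ 2 + C * n * (1 + Real.log n) ^ 2) := by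
  obtain ⟨C, hC, h⟩ := upperN 2 Nat.prime_two
  refine ⟨C, hC, fun n hn => ?_⟩
  have h1 : (nEl n : ℝ) ≤ (nQ 2 n : ℝ) := by exact_mod_cast nEl_le n
  refine h1.trans ((h n hn).trans (le_of_eq ?_))
  push_cast
  norm_num

private theorem lowerEq (q : ℕ) (hq : q.Prime) (hlow : ∀ n : ℕ, q ^ ((n / q / 2) * (n / q - n / q / 2)) ≤ nEl n) : ∃ C : ℝ, 0 ≤ C ∧ ∀ n : ℕ,
    Real.exp (Real.log q / (4 * (q : ℝ) ^ 2) * n ^ 2 - C * (n + 1)) ≤ (nEl n : ℝ) := by
  have hq1 : (1 : ℝ) ≤ q := by exact_mod_cast hq.one_le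
  have hq0 : (0 : ℝ) < q := by linarith
  have hl : 0 ≤ Real.log (q : ℝ) := Real.log_nonneg hq1
  refine ⟨Real.log q, hl, fun n => ?_⟩
  have h1 : ((q ^ ((n / q / 2) * (n / q - n / q / 2)) : ℕ) : ℝ) ≤ (nEl n : ℝ) := by
    exact_mod_cast hlow n
  refine le_trans ?_ h1
  obtain ⟨r, hr⟩ : ∃ r, r = n / q := ⟨_, rfl⟩
  rw [← hr]
  obtain ⟨a, ha⟩ : ∃ a, a = r / 2 := ⟨_, rfl⟩
  obtain ⟨b, hb⟩ : ∃ b, b = r - a := ⟨_, rfl⟩
  rw [← ha, ← hb]
  have e1 : (Real.exp (Real.log q)) = q := Real.exp_log hq0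
  have e2 : (((q ^ (a * b) : ℕ)) : ℝ) = Real.exp ((a * b : ℕ) * Real.log q) := by
    rw [Real.exp_nat_mul, e1]
    push_cast
    rfl
  rw [e2]
  apply Real.exp_le_exp.2
  have hab : a + b = r := by omega
  have hba : b = a ∨ b = a + 1 := by omega
  have h4 : (r : ℝ) ^ 2 ≤ 4 * (a * b) + 1 := by
    have h5 : r ^ 2 ≤ 4 * (a * b) + 1 := by
      rcases hba with h | h <;> rw [← hab, h] <;> nlinarith
    exact_mod_cast h5
  have h6 : (n : ℝ) / q ≤ r + 1 := by
    rw [div_le_iff₀ hq0]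
    have h7 : n < q * (r + 1) := by
      rw [hr]
      exact Nat.lt_mul_div_succ n hq.pos
    have h8 : (n : ℝ) < q * (r + 1) := by exact_mod_cast h7
    linarith
  have h7 : ((n : ℝ) / q) ^ 2 - 2 * (n / q) ≤ r ^ 2 := by
    rcases le_total ((n : ℝ) / q) 1 with h | h
    · have h0 : 0 ≤ (n : ℝ) / q := by positivity
      nlinarith [sq_nonneg (r : ℝ)]
    · nlinarith
  have h8 : (n : ℝ) / q ≤ n := div_le_self (by positivity) hq1
  have h9 : Real.log q / (4 * (q : ℝ) ^ 2) * n ^ 2 = Real.log q * (((n : ℝ) / q) ^ 2 / 4) := by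
    field_simp
  rw [h9]
  push_cast
  have h10 : ((n : ℝ) / q) ^ 2 / 4 - (n + 1) ≤ a * b := by
    have : (0 : ℝ) ≤ n := by positivity
    linarith
  have h11 := mul_le_mul_of_nonneg_left h10 hl
  linarith

theorem lowerE : ∃ C : ℝ, 0 ≤ C ∧ ∀ n : ℕ,
    Real.exp (Real.log 2 / 16 * n ^ 2 - C * (n + 1)) ≤ (nEl n : ℝ) := by
  obtain ⟨C, hC, h⟩ := lowerEq 2 Nat.prime_two nEl_lower
  refine ⟨C, hC, fun n => le_trans (le_of_eq ?_) (h n)⟩
  push_cast
  norm_num

private theorem num_cover (n k : ℕ) :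
    nEl n ≤ Nat.card {H : Subgroup (Equiv.Perm (Fin n)) // El H ∧
      2 ^ k ≤ Nat.card (H →* Multiplicative (ZMod 2))} +
      Nat.card {H : Subgroup (Equiv.Perm (Fin n)) // El H ∧
        ∃ f : Fin k → Equiv.Perm (Fin n), H = Subgroup.closure (Set.range f)} := by
  classical
  have key : ∀ H : Subgroup (Equiv.Perm (Fin n)), El H →
      (∃ f : Fin k → Equiv.Perm (Fin n), H = Subgroup.closure (Set.range f)) ∨
      2 ^ k ≤ Nat.card (H →* Multiplicative (ZMod 2)) := by
    intro H hH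
    let _i : CommGroup H := { H.toGroup with mul_comm := fun a b => Subtype.ext (hH.comm a a.2 b b.2) }
    rcases few_or_many 2 k H hH.abQ.2 with ⟨f, hf⟩ | h
    · left
      refine ⟨fun i => (f i : Equiv.Perm (Fin n)), ?_⟩
      have h1 : (Subgroup.closure (Set.range f)).map H.subtype =
          Subgroup.closure (Set.range fun i => (f i : Equiv.Perm (Fin n))) := by
        rw [MonoidHom.map_closure, ← Set.range_comp]
        rfl
      rw [← h1]
      have h2 : Subgroup.closure (Set.range f) = ⊤ := hf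
      rw [h2, ← MonoidHom.range_eq_map, Subgroup.range_subtype]
    · exact Or.inr h
  rw [← Nat.card_sum]
  unfold nEl
  refine Nat.card_le_card_of_injective (fun H : {H : Subgroup (Equiv.Perm (Fin n)) // El H} =>
    if h : 2 ^ k ≤ Nat.card (H.1 →* Multiplicative (ZMod 2)) then Sum.inl ⟨H.1, H.2, h⟩
    else Sum.inr ⟨H.1, H.2, (key H.1 H.2).resolve_right h⟩) ?_
  rintro ⟨H, hH⟩ ⟨H', hH'⟩ h
  simp only at h
  split_ifs at h
  · exact Subtype.ext (congrArg (fun x => x.1) (Sum.inl.inj h))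
  · exact Subtype.ext (congrArg (fun x => x.1) (Sum.inr.inj h))

private theorem growth_abs (q : ℕ) (hq : q.Prime) (N : ℕ → ℕ) (C : ℝ) (hC : 0 ≤ C)
    (hlow : ∀ n : ℕ, Real.exp (Real.log q / (4 * (q : ℝ) ^ 2) * n ^ 2 - C * (n + 1)) ≤ (N n : ℝ))
    (hAB : ∀ n k : ℕ, ∃ A B : ℕ, N n ≤ A + B ∧ q ^ k * A ≤ N (n + q) ∧ (B : ℝ) ≤
      (n.factorial : ℝ) ^ (Nat.log 2 n + 1) * Real.exp (k * (n * Real.log q / q))) :
    ∃ c : ℝ, 0 < c ∧ ∀ᶠ n : ℕ in atTop, Real.exp (c * n) * (N n : ℝ) ≤ (N (n + q) : ℝ) := by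
  have hq2 : (2 : ℝ) ≤ q := by exact_mod_cast hq.two_le
  have hq0 : (0 : ℝ) < q := by linarith
  have hl : 0 < Real.log (q : ℝ) := Real.log_pos (by linarith)
  obtain ⟨δ, hδ⟩ : ∃ δ : ℝ, δ = Real.log q / (8 * (q : ℝ) ^ 2) := ⟨_, rfl⟩
  have hδ0 : 0 < δ := by rw [hδ]; positivity
  refine ⟨Real.log q / (16 * q), by positivity, ?_⟩
  -- (log n) ^ 2 is small
  have hlit : ∀ᶠ n : ℕ in atTop, Real.log n ^ 2 ≤ δ / 12 * n := by
    have h1 := (Real.isLittleO_pow_log_id_atTop (n := 2)).def (show 0 < δ / 12 by positivity)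
    have h2 := tendsto_natCast_atTop_atTop (R := ℝ) |>.eventually h1
    filter_upwards [h2] with n hn
    simp only [id, norm_pow, Real.norm_eq_abs, sq_abs] at hn
    rwa [abs_of_nonneg (by positivity : (0 : ℝ) ≤ n)] at hn
  obtain ⟨N0, hN0⟩ := exists_nat_ge (2 * (7 + 2 * C) / δ)
  obtain ⟨N1, hN1⟩ := exists_nat_ge ((Real.log q + Real.log 2) * (16 * q) / Real.log q)
  filter_upwards [hlit, eventually_ge_atTop N0, eventually_ge_atTop N1, eventually_ge_atTop 1]
    with n h1 h2 h3 h4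
  have hn1 : (1 : ℝ) ≤ n := by exact_mod_cast h4
  obtain ⟨k, hk⟩ : ∃ k, k = n / (8 * q) := ⟨_, rfl⟩
  obtain ⟨A, B, hcov, hgr, hfew⟩ := hAB n k
  -- the few
  have hkn : (k : ℝ) ≤ n / (8 * q) := by
    rw [hk]
    have := Nat.cast_div_le (α := ℝ) (m := n) (n := 8 * q)
    push_cast at this
    exact this
  have hkn' : (n : ℝ) / (8 * q) ≤ k + 1 := by
    rw [div_le_iff₀ (by positivity)]
    have h5 : n < (8 * q) * (n / (8 * q) + 1) := Nat.lt_mul_div_succ n (by have := hq.pos; omega)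
    rw [← hk] at h5
    have h6 : (n : ℝ) < (8 * q) * (k + 1) := by exact_mod_cast h5
    linarith
  have hBle : (B : ℝ) ≤ (N n : ℝ) / 2 := by
    rw [le_div_iff₀ (by norm_num)]
    have h5 : (2 : ℝ) = Real.exp (Real.log 2) := (Real.exp_log (by norm_num)).symm
    refine le_trans ?_ (hlow n)
    calc (B : ℝ) * 2 ≤ ((n.factorial : ℝ) ^ (Nat.log 2 n + 1) *
          Real.exp (k * (n * Real.log q / q))) * 2 := mul_le_mul_of_nonneg_right hfew (by norm_num)
      _ ≤ (Real.exp (3 * n * (1 + Real.log n) ^ 2) * Real.exp (k * (n * Real.log q / q))) *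
          Real.exp (Real.log 2) := by
          rw [← h5]
          have := log_fact n h4
          gcongr
      _ = Real.exp (3 * n * (1 + Real.log n) ^ 2 + k * (n * Real.log q / q) + Real.log 2) := by
          rw [Real.exp_add, Real.exp_add]
      _ ≤ _ := by
          apply Real.exp_le_exp.2
          have e1 : (k : ℝ) * (n * Real.log q / q) ≤ δ * n ^ 2 := by
            have : (k : ℝ) * (n * Real.log q / q) ≤ n / (8 * q) * (n * Real.log q / q) := by gcongr
            refine this.trans (le_of_eq ?_)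
            rw [hδ]
            field_simp
          have e2 : Real.log q / (4 * (q : ℝ) ^ 2) = 2 * δ := by
            rw [hδ]
            field_simp
            norm_num
          rw [e2]
          have e3 : (1 + Real.log n) ^ 2 ≤ 2 + 2 * (δ / 12 * n) := by
            nlinarith [sq_nonneg (1 - Real.log n)]
          have e4 : 3 * (n : ℝ) * (1 + Real.log n) ^ 2 ≤ 6 * n + δ / 2 * n ^ 2 := by
            calc 3 * (n : ℝ) * (1 + Real.log n) ^ 2 ≤ 3 * n * (2 + 2 * (δ / 12 * n)) := by gcongr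
              _ = 6 * n + δ / 2 * n ^ 2 := by ring
          have e5 : (7 + 2 * C) * n ≤ δ / 2 * (n : ℝ) ^ 2 := by
            have h6 : 2 * (7 + 2 * C) / δ ≤ n := hN0.trans (by exact_mod_cast h2)
            rw [div_le_iff₀ hδ0] at h6
            nlinarith
          have e6 : Real.log 2 ≤ 1 := by
            have := Real.log_two_lt_d9
            linarith
          nlinarith
  -- conclusion
  have hAge : (N n : ℝ) / 2 ≤ A := by
    have : (N n : ℝ) ≤ A + B := by exact_mod_cast hcov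
    linarith
  have hqk : Real.exp (Real.log q / (16 * q) * n) * 2 ≤ (q : ℝ) ^ k := by
    have h5 : Real.exp (Real.log q / (16 * q) * n) * 2 =
        Real.exp (Real.log q / (16 * q) * n + Real.log 2) := by
      rw [Real.exp_add, Real.exp_log (by norm_num)]
    have h6 : (q : ℝ) ^ k = Real.exp (k * Real.log q) := by
      rw [Real.exp_nat_mul, Real.exp_log hq0]
    rw [h5, h6]
    apply Real.exp_le_exp.2
    have h7 : (Real.log q + Real.log 2) * (16 * q) / Real.log q ≤ n :=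
      hN1.trans (by exact_mod_cast h3)
    rw [div_le_iff₀ hl] at h7
    have h8 : Real.log q + Real.log 2 ≤ Real.log q / (16 * q) * n := by
      have h9 : Real.log q / (16 * q) * n = (n * Real.log q) / (16 * q) := by ring
      rw [h9, le_div_iff₀ (by positivity)]
      exact h7
    have h10 : (n / (8 * q) - 1) * Real.log q ≤ k * Real.log q :=
      mul_le_mul_of_nonneg_right (by linarith) hl.le
    have h11 : (n : ℝ) / (8 * q) * Real.log q = 2 * (Real.log q / (16 * q) * n) := by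
      field_simp
      norm_num
    nlinarith
  have hfin : (q : ℝ) ^ k * A ≤ N (n + q) := by exact_mod_cast hgr
  refine le_trans ?_ hfin
  have h5 : (0 : ℝ) ≤ N n := by positivity
  calc Real.exp (Real.log q / (16 * q) * n) * (N n : ℝ) =
        (Real.exp (Real.log q / (16 * q) * n) * 2) * ((N n : ℝ) / 2) := by ring
    _ ≤ (q : ℝ) ^ k * A := by gcongr

theorem growthE : ∃ c : ℝ, 0 < c ∧
    ∀ᶠ n : ℕ in atTop, Real.exp (c * n) * (nEl n : ℝ) ≤ (nEl (n + 2) : ℝ) := by
  obtain ⟨C, hC, hlow⟩ := lowerEq 2 Nat.prime_two nEl_lower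
  refine growth_abs 2 Nat.prime_two nEl C hC hlow (fun n k => ?_)
  refine ⟨_, _, num_cover n k, grow_el n k, le_trans ?_ (count_few 2 n k Nat.prime_two)⟩
  classical
  have h : Nat.card {H : Subgroup (Equiv.Perm (Fin n)) // El H ∧
      ∃ f : Fin k → Equiv.Perm (Fin n), H = Subgroup.closure (Set.range f)} ≤
      Nat.card {H : Subgroup (Equiv.Perm (Fin n)) // AbQ 2 H ∧
      ∃ f : Fin k → Equiv.Perm (Fin n), H = Subgroup.closure (Set.range f)} :=
    Nat.card_le_card_of_injective (fun H => ⟨H.1, H.2.1.abQ, H.2.2⟩)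
      (fun H H' h => Subtype.ext (congrArg (fun x => x.1) h))
  exact_mod_cast h

end Pool.Agent.SqA
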