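import Pool.Agent.SqA.Defs

/-!
Elementary abelian 2-subgroups: first facts. `nEl_lower`, `nEl_mono`: copy AbS/Low.lean (there for `AbQ q`; the groups
constructed there have exponent `q = 2`), with `El` transported along injective homomorphisms.
`nEl_odd`: a 2-group on an odd number of points has a fixed point `p`, so `K` comes from a subgroup of the permutations
of the other `2 n` points (`Fin.succAbove p`, or `Perm.viaEmbeddingHom` of `(Fin.succAboveEmb p)`).
-/

set_option autoImplicit false

namespace Pool.Agent.SqA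

open Equiv Pool.Agent.AbS

theorem El.comm {Ω : Type} {L : Subgroup (Perm Ω)} (h : El L) : ∀ a ∈ L, ∀ b ∈ L, a * b = b * a := by
  intro a ha b hb
  have h1 : a⁻¹ = a := inv_eq_of_mul_eq_one_left (h a ha)
  have h2 : b⁻¹ = b := inv_eq_of_mul_eq_one_left (h b hb)
  have h3 : (a * b)⁻¹ = a * b := inv_eq_of_mul_eq_one_left (h _ (L.mul_mem ha hb))
  rw [← h3, mul_inv_rev, h1, h2]

private theorem El.isPGroup {Ω : Type} {L : Subgroup (Perm Ω)} (h : El L) : IsPGroup 2 L := by
  intro l
  refine ⟨1, ?_⟩
  rw [pow_one, pow_two]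
  exact Subtype.ext (h l.1 l.2)

theorem El.abQ {Ω : Type} [Finite Ω] {L : Subgroup (Perm Ω)} (h : El L) : AbQ 2 L := by
  have : Fact (Nat.Prime 2) := ⟨Nat.prime_two⟩
  exact ⟨h.comm, (IsPGroup.iff_card (p := 2)).1 h.isPGroup⟩

/-- Transport along an injective homomorphism. -/
private theorem El.map {α β : Type} (f : Perm α →* Perm β) {H : Subgroup (Perm α)} (hH : El H) : El (H.map f) := by
  rintro _ ⟨a, ha, rfl⟩
  rw [← map_mul, hH a ha, map_one]

theorem nEl_le (n : ℕ) : nEl n ≤ nQ 2 n := by
  refine Nat.card_le_card_of_injective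
    (fun H : {L : Subgroup (Perm (Fin n)) // El L} => (⟨H.1, H.2.abQ⟩ : {H : Subgroup (Perm (Fin n)) // AbQ 2 H})) ?_
  intro H K h
  have h2 := congrArg Subtype.val h
  exact Subtype.ext h2

theorem one_le_nEl (n : ℕ) : 1 ≤ nEl n := by
  have : Nonempty {L : Subgroup (Perm (Fin n)) // El L} := by
    refine ⟨⟨⊥, ?_⟩⟩
    intro l hl
    rw [Subgroup.mem_bot] at hl
    rw [hl, one_mul]
  exact Nat.card_pos

theorem nEl_mono : Monotone nEl := by
  intro m n hmn
  have hinj := Perm.viaEmbeddingHom_injective (Fin.castLEEmb hmn)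
  refine Nat.card_le_card_of_injective
    (fun H : {H : Subgroup (Perm (Fin m)) // El H} => (⟨H.1.map (Perm.viaEmbeddingHom (Fin.castLEEmb hmn)),
      H.2.map _⟩ : {H : Subgroup (Perm (Fin n)) // El H})) ?_
  intro H K h
  have h2 := congrArg Subtype.val h
  exact Subtype.ext (Subgroup.map_injective hinj h2)

/-- The permutation `(s, z) ↦ (s, z + w s)`, as a homomorphism in `w`. -/
private def elShift (S : Type) : Multiplicative (S → ZMod 2) →* Perm (S × ZMod 2) where
  toFun w :=
    { toFun := fun x => (x.1, x.2 + Multiplicative.toAdd w x.1)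
      invFun := fun x => (x.1, x.2 - Multiplicative.toAdd w x.1)
      left_inv := fun x => by simp
      right_inv := fun x => by simp }
  map_one' := by
    ext x <;> simp
  map_mul' := by
    intro v w
    ext x
    · simp
    · simp [add_comm, add_left_comm]

private theorem elShift_apply (S : Type) (w : Multiplicative (S → ZMod 2)) (x : S × ZMod 2) :
    elShift S w x = (x.1, x.2 + Multiplicative.toAdd w x.1) := rfl

private theorem elShift_injective (S : Type) : Function.Injective (elShift S) := by
  intro v w h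
  have h2 : Multiplicative.toAdd v = Multiplicative.toAdd w := by
    funext s
    have h1 := congrArg (fun σ : Perm (S × ZMod 2) => (σ (s, 0)).2) h
    simpa [elShift_apply] using h1
  exact Multiplicative.toAdd.injective h2

/-- The graph of the matrix `M`. -/
private def elGraph (a b : ℕ) (M : Fin a → Fin b → ZMod 2) : AddSubgroup (Fin a ⊕ Fin b → ZMod 2) where
  carrier := {w | ∀ j, w (Sum.inr j) = ∑ i, M i j * w (Sum.inl i)}
  zero_mem' := by
    intro j
    simp
  add_mem' := by
    intro v w hv hw j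
    have h1 := hv j
    have h2 := hw j
    simp only [Pi.add_apply, h1, h2, mul_add, Finset.sum_add_distrib]
  neg_mem' := by
    intro v hv j
    have h1 := hv j
    simp only [Pi.neg_apply, h1, mul_neg, Finset.sum_neg_distrib]

private theorem mem_elGraph {a b : ℕ} {M : Fin a → Fin b → ZMod 2} {w : Fin a ⊕ Fin b → ZMod 2} :
    w ∈ elGraph a b M ↔ ∀ j, w (Sum.inr j) = ∑ i, M i j * w (Sum.inl i) := Iff.rfl

private theorem elGraph_injective (a b : ℕ) : Function.Injective (elGraph a b) := by
  intro M N h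
  funext i j
  have h1 : (Sum.elim (Pi.single i 1) (fun j => M i j) : Fin a ⊕ Fin b → ZMod 2) ∈ elGraph a b M := by
    rw [mem_elGraph]
    intro j
    simp [Pi.single_apply]
  rw [h, mem_elGraph] at h1
  have h2 := h1 j
  simpa [Pi.single_apply] using h2

/-- The subgroup of the permutations of `(Fin a ⊕ Fin b) × ZMod 2`. -/
private def elH (a b : ℕ) (M : Fin a → Fin b → ZMod 2) : Subgroup (Perm ((Fin a ⊕ Fin b) × ZMod 2)) :=
  (AddSubgroup.toSubgroup (elGraph a b M)).map (elShift (Fin a ⊕ Fin b))

private theorem elH_injective (a b : ℕ) : Function.Injective (elH a b) := by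
  intro M N h
  have h1 := Subgroup.map_injective (elShift_injective (Fin a ⊕ Fin b)) h
  exact elGraph_injective a b (AddSubgroup.toSubgroup.injective h1)

private theorem elH_el (a b : ℕ) (M : Fin a → Fin b → ZMod 2) : El (elH a b M) := by
  rintro _ ⟨v, -, rfl⟩
  rw [← map_mul]
  have h1 : v * v = 1 := by
    apply Multiplicative.toAdd.injective
    rw [toAdd_mul, toAdd_one]
    funext s
    exact CharTwo.add_self_eq_zero _
  rw [h1, map_one]

theorem nEl_lower (n : ℕ) : 2 ^ ((n / 2 / 2) * (n / 2 - n / 2 / 2)) ≤ nEl n := by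
  set a := n / 2 / 2 with ha
  set b := n / 2 - a with hb
  have hab : a + b = n / 2 := Nat.add_sub_cancel' (Nat.div_le_self (n / 2) 2)
  have hcard : Fintype.card ((Fin a ⊕ Fin b) × ZMod 2) ≤ Fintype.card (Fin n) := by
    rw [Fintype.card_prod, Fintype.card_sum, Fintype.card_fin, Fintype.card_fin, ZMod.card, Fintype.card_fin, hab]
    exact Nat.div_mul_le_self n 2
  obtain ⟨e⟩ := Function.Embedding.nonempty_of_card_le hcard
  have hinj := Perm.viaEmbeddingHom_injective e
  have h1 : Nat.card (Fin a → Fin b → ZMod 2) = 2 ^ (a * b) := by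
    rw [Nat.card_fun, Nat.card_fun, Nat.card_zmod, Nat.card_eq_fintype_card, Nat.card_eq_fintype_card,
      Fintype.card_fin, Fintype.card_fin, ← pow_mul, mul_comm]
  rw [← h1]
  refine Nat.card_le_card_of_injective
    (fun M : Fin a → Fin b → ZMod 2 => (⟨(elH a b M).map (Perm.viaEmbeddingHom e),
      (elH_el a b M).map _⟩ : {H : Subgroup (Perm (Fin n)) // El H})) ?_
  intro M N h
  have h2 := congrArg Subtype.val h
  exact elH_injective a b (Subgroup.map_injective hinj h2)

/-- A permutation which fixes all points outside the image of `ι` comes from a permutation of the source. -/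
private theorem exists_via {α β : Type} (ι : α ↪ β) (l : Perm β) (h : ∀ x, x ∉ Set.range ι → l x = x) :
    ∃ e : Perm α, Perm.viaEmbeddingHom ι e = l := by
  have h' : ∀ x, x ∉ Set.range ι → l.symm x = x := by
    intro x hx
    rw [Equiv.symm_apply_eq, h x hx]
  have key : ∀ m : Perm β, (∀ x, x ∉ Set.range ι → m x = x) → ∀ x, ∃ y, ι y = m (ι x) := by
    intro m hm x
    by_contra hcon
    have h1 : m (ι x) ∉ Set.range ι := fun ⟨y, hy⟩ => hcon ⟨y, hy⟩
    have h2 := m.injective (hm _ h1)
    rw [h2] at h1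
    exact h1 ⟨x, rfl⟩
  choose f hf using key l h
  choose g hg using key l.symm h'
  refine ⟨⟨f, g, ?_, ?_⟩, ?_⟩
  · intro x
    apply ι.injective
    rw [hg, hf, Equiv.symm_apply_apply]
  · intro x
    apply ι.injective
    rw [hf, hg, Equiv.apply_symm_apply]
  · ext x
    rw [Perm.viaEmbeddingHom_apply]
    by_cases hx : x ∈ Set.range ι
    · obtain ⟨y, rfl⟩ := hx
      rw [Perm.viaEmbedding_apply]
      exact hf y
    · rw [Perm.viaEmbedding_apply_of_notMem _ _ _ hx, h x hx]

theorem nEl_odd (n : ℕ) : nEl (2 * n + 1) ≤ (2 * n + 1) * nEl (2 * n) := by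
  classical
  have : Fact (Nat.Prime 2) := ⟨Nat.prime_two⟩
  -- a fixed point
  have hfix : ∀ L : Subgroup (Perm (Fin (2 * n + 1))), El L → ∃ p, ∀ l ∈ L, l p = p := by
    intro L hL
    have h1 := hL.isPGroup.card_modEq_card_fixedPoints (Fin (2 * n + 1))
    have h2 : Nat.card (MulAction.fixedPoints L (Fin (2 * n + 1))) ≠ 0 := by
      intro h0
      rw [h0, Nat.card_eq_fintype_card, Fintype.card_fin] at h1
      have h3 : (2 * n + 1) % 2 = 0 % 2 := h1
      omega
    have h4 : Nonempty (MulAction.fixedPoints L (Fin (2 * n + 1))) := by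
      by_contra hcon
      rw [not_nonempty_iff] at hcon
      exact h2 Nat.card_of_isEmpty
    obtain ⟨p, hp⟩ := h4
    rw [MulAction.mem_fixedPoints] at hp
    exact ⟨p, fun l hl => hp ⟨l, hl⟩⟩
  have hrange : ∀ p x : Fin (2 * n + 1), x ∉ Set.range (Fin.succAboveEmb p) → x = p := by
    intro p x hx
    by_contra hne
    obtain ⟨y, hy⟩ := Fin.exists_succAbove_eq hne
    exact hx ⟨y, hy⟩
  choose! pt hpt using hfix
  have hcard : Nat.card (Fin (2 * n + 1) × {L : Subgroup (Perm (Fin (2 * n))) // El L}) =
      (2 * n + 1) * nEl (2 * n) := by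
    rw [Nat.card_prod, Nat.card_eq_fintype_card, Fintype.card_fin]
    rfl
  rw [← hcard]
  have hel : ∀ L : Subgroup (Perm (Fin (2 * n + 1))), El L → ∀ p,
      El (L.comap (Perm.viaEmbeddingHom (Fin.succAboveEmb p))) := by
    intro L hL p k hk
    rw [Subgroup.mem_comap] at hk
    apply Perm.viaEmbeddingHom_injective (Fin.succAboveEmb p)
    rw [map_mul, map_one]
    exact hL _ hk
  refine Nat.card_le_card_of_injective
    (fun L : {L : Subgroup (Perm (Fin (2 * n + 1))) // El L} =>
      ((pt L.1, ⟨L.1.comap (Perm.viaEmbeddingHom (Fin.succAboveEmb (pt L.1))), hel L.1 L.2 _⟩) :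
        Fin (2 * n + 1) × {L : Subgroup (Perm (Fin (2 * n))) // El L})) ?_
  have hmap : ∀ L : Subgroup (Perm (Fin (2 * n + 1))), El L →
      (L.comap (Perm.viaEmbeddingHom (Fin.succAboveEmb (pt L)))).map
        (Perm.viaEmbeddingHom (Fin.succAboveEmb (pt L))) = L := by
    intro L hL
    apply le_antisymm
    · exact Subgroup.map_comap_le _ _
    · intro l hl
      obtain ⟨e, he⟩ := exists_via (Fin.succAboveEmb (pt L)) l (by
        intro x hx
        rw [hrange _ x hx]
        exact hpt L hL l hl)
      refine ⟨e, ?_, he⟩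
      change e ∈ L.comap _
      rw [Subgroup.mem_comap, he]
      exact hl
  intro L M h
  have h1 : pt L.1 = pt M.1 := congrArg Prod.fst h
  have h2 : L.1.comap (Perm.viaEmbeddingHom (Fin.succAboveEmb (pt L.1))) =
      M.1.comap (Perm.viaEmbeddingHom (Fin.succAboveEmb (pt M.1))) :=
    congrArg Subtype.val (congrArg Prod.snd h)
  apply Subtype.ext
  rw [← hmap L.1 L.2, ← hmap M.1 M.2, h2, h1]

end Pool.Agent.SqA
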