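import Pool.Agent.SqA.ElLow

/-!
Exchange. For an elementary abelian 2-group `K` and an orbit `S = {s₁ < s₂ < s₃ < s₄}` of `K` with four points (`K` acts on `S` as
the regular Klein four group: `k` on `S` is determined by `k s₁`, `K` being abelian) let `φ k` be the permutation which is `k`
outside `S` and on `S` the identity, `(s₁ s₂)`, `(s₃ s₄)`, `(s₁ s₂)(s₃ s₄)` for `k s₁ = s₁, s₂, s₃, s₄`. `φ` is an injective
homomorphism; `K' = φ(K)` is elementary abelian, has the orbits `{s₁, s₂}`, `{s₃, s₄}` and the same orbits as `K` outside `S`,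
`a2 K' = a2 K + 2`. `(K, S) ↦ (K', S)` is injective, and for given `K'` there are at most `(j + 2).choose 2` sets `S` (unions of two
orbits of length 2). Sum over the `K` with `a2 K = j`.
-/

set_option autoImplicit false

namespace Pool.Agent.SqA

open Equiv Pool.Agent.AbS

/-- The regular Klein four group. -/
private def al : ℤˣ × ℤˣ →* Perm (Fin 4) where
  toFun c := (if c.1 = 1 then 1 else swap 0 1 * swap 2 3) * (if c.2 = 1 then 1 else swap 0 2 * swap 1 3)
  map_one' := by decide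
  map_mul' := by decide

/-- The Klein four group with two orbits. -/
private def be : ℤˣ × ℤˣ →* Perm (Fin 4) where
  toFun c := (if c.1 = 1 then 1 else swap 0 1) * (if c.2 = 1 then 1 else swap 2 3)
  map_one' := by decide
  map_mul' := by decide

private theorem al_inj : Function.Injective al := by decide

private theorem be_inj : Function.Injective be := by decide

private theorem al_zero : ∀ i : Fin 4, ∃ c, al c 0 = i := by decide

private theorem al_zero_inj : ∀ c d, al c 0 = al d 0 → c = d := by decide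

private theorem al_range : ∀ σ : Perm (Fin 4), σ * σ = 1 → (∀ i, σ i = i → σ = 1) → ∃ c, al c = σ := by decide

private theorem be_low : ∀ i : Fin 4, i = 0 ∨ i = 1 → ∀ j : Fin 4, (∃ c, be c i = j) ↔ (j = 0 ∨ j = 1) := by decide

private theorem be_high : ∀ i : Fin 4, i = 2 ∨ i = 3 → ∀ j : Fin 4, (∃ c, be c i = j) ↔ (j = 2 ∨ j = 3) := by decide

/-- A homomorphism to the permutations of `S`, glued with the permutations of the other points. -/
private noncomputable def glue (ga : ℤˣ × ℤˣ →* Perm (Fin 4)) {m : ℕ} (S : Finset (Fin m)) (h : S.card = 4) :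
    (ℤˣ × ℤˣ) × Perm {a : Fin m // ¬ a ∈ S} →* Perm (Fin m) :=
  (Perm.subtypeCongrHom (fun a => a ∈ S)).comp
    (MonoidHom.prodMap (((S.orderIsoOfFin h).toEquiv.permCongrHom).toMonoidHom.comp ga) (MonoidHom.id _))

private theorem glue_inj {ga : ℤˣ × ℤˣ →* Perm (Fin 4)} (hga : Function.Injective ga) {m : ℕ} (S : Finset (Fin m))
    (h : S.card = 4) : Function.Injective (glue ga S h) := by
  unfold glue
  rw [MonoidHom.coe_comp]
  refine (Perm.subtypeCongrHom_injective _).comp ?_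
  rw [MonoidHom.coe_prodMap]
  refine Function.Injective.prodMap ?_ Function.injective_id
  rw [MonoidHom.coe_comp]
  exact ((S.orderIsoOfFin h).toEquiv.permCongrHom).injective.comp hga

private theorem glue_mem {ga : ℤˣ × ℤˣ →* Perm (Fin 4)} {m : ℕ} (S : Finset (Fin m))
    (h : S.card = 4) (p : (ℤˣ × ℤˣ) × Perm {a : Fin m // ¬ a ∈ S}) (i : Fin 4) :
    glue ga S h p (S.orderIsoOfFin h i : Fin m) = (S.orderIsoOfFin h (ga p.1 i) : Fin m) := by
  unfold glue
  simp [Perm.subtypeCongrHom]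
  exact (S.orderIsoOfFin h).symm_apply_apply i

private theorem glue_not_mem {ga : ℤˣ × ℤˣ →* Perm (Fin 4)} {m : ℕ} (S : Finset (Fin m))
    (h : S.card = 4) (p : (ℤˣ × ℤˣ) × Perm {a : Fin m // ¬ a ∈ S}) (x : Fin m) (hx : ¬ x ∈ S) :
    glue ga S h p x = (p.2 ⟨x, hx⟩ : Fin m) := by
  unfold glue
  simp [Perm.subtypeCongrHom, hx]

/-- The orbits with `k` elements. -/
private noncomputable def orbs (k : ℕ) {m : ℕ} (K : Subgroup (Perm (Fin m))) : Finset (Finset (Fin m)) := by
  classical exact Finset.univ.filter (fun S => S.card = k ∧ ∃ x, (S : Set (Fin m)) = MulAction.orbit K x)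

private theorem mem_orbs {k m : ℕ} {K : Subgroup (Perm (Fin m))} {S : Finset (Fin m)} :
    S ∈ orbs k K ↔ S.card = k ∧ ∃ x, (S : Set (Fin m)) = MulAction.orbit K x := by
  classical
  unfold orbs
  simp

private theorem a2_eq {m : ℕ} (K : Subgroup (Perm (Fin m))) : a2 K = (orbs 2 K).card := by
  classical
  unfold a2 orbs
  rw [Nat.card_eq_fintype_card, Fintype.card_subtype]

/-- The new group. -/
private noncomputable def exg {m : ℕ} (K : Subgroup (Perm (Fin m))) (S : Finset (Fin m)) (h : S.card = 4) :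
    Subgroup (Perm (Fin m)) := (K.comap (glue al S h)).map (glue be S h)

private theorem exg_el {m : ℕ} {K : Subgroup (Perm (Fin m))} (hK : El K) (S : Finset (Fin m)) (h : S.card = 4) :
    El (exg K S h) := by
  rintro _ ⟨p, hp, rfl⟩
  have h1 : p * p = 1 := by
    apply glue_inj al_inj S h
    rw [map_mul, map_one]
    exact hK _ hp
  rw [← map_mul, h1, map_one]

private theorem orbit_iff {m : ℕ} {K : Subgroup (Perm (Fin m))} {x y : Fin m} :
    y ∈ MulAction.orbit K x ↔ ∃ k ∈ K, k x = y := by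
  rw [MulAction.mem_orbit_iff]
  constructor
  · rintro ⟨⟨k, hk⟩, h⟩
    exact ⟨k, hk, h⟩
  · rintro ⟨k, hk, h⟩
    exact ⟨⟨k, hk⟩, h⟩

private theorem inv_ap {m : ℕ} (l : Perm (Fin m)) (x : Fin m) : l⁻¹ (l x) = x := by
  rw [← Perm.mul_apply, inv_mul_cancel, Perm.one_apply]

private theorem orb_trans {m : ℕ} {K : Subgroup (Perm (Fin m))} {S : Finset (Fin m)} {k : ℕ}
    (hS : S ∈ orbs k K) : ∀ x ∈ S, ∀ y ∈ S, ∃ l ∈ K, l x = y := by
  obtain ⟨-, x0, hx0⟩ := mem_orbs.1 hS
  intro x hx y hy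
  have e1 : x ∈ MulAction.orbit K x0 := by rw [← hx0]; exact Finset.mem_coe.2 hx
  have e2 : y ∈ MulAction.orbit K x0 := by rw [← hx0]; exact Finset.mem_coe.2 hy
  rw [orbit_iff] at e1 e2
  obtain ⟨a, ha, h1⟩ := e1
  obtain ⟨b, hb, h2⟩ := e2
  exact ⟨b * a⁻¹, K.mul_mem hb (K.inv_mem ha), by rw [Perm.mul_apply, ← h1, inv_ap, h2]⟩

/-- `K` is contained in the range of the gluing. -/
private theorem le_range {m : ℕ} {K : Subgroup (Perm (Fin m))} (hK : El K) {S : Finset (Fin m)}
    (hS : S ∈ orbs 4 K) (h : S.card = 4) : K ≤ (glue al S h).range := by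
  intro k hk
  obtain ⟨-, x0, hx0⟩ := mem_orbs.1 hS
  have hin : ∀ l ∈ K, ∀ x, x ∈ S ↔ l x ∈ S := by
    intro l hl x
    have e1 : x ∈ S ↔ x ∈ MulAction.orbit K x0 := by rw [← hx0]; exact Finset.mem_coe.symm
    have e2 : l x ∈ S ↔ l x ∈ MulAction.orbit K x0 := by rw [← hx0]; exact Finset.mem_coe.symm
    rw [e1, e2, orbit_iff, orbit_iff]
    constructor
    · rintro ⟨a, ha, h1⟩
      exact ⟨l * a, K.mul_mem hl ha, by rw [Perm.mul_apply, h1]⟩
    · rintro ⟨a, ha, h1⟩
      exact ⟨l⁻¹ * a, K.mul_mem (K.inv_mem hl) ha, by rw [Perm.mul_apply, h1, inv_ap]⟩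
  have htr := orb_trans hS
  set e := (S.orderIsoOfFin h).toEquiv with he
  let k1 : Perm {a : Fin m // a ∈ S} := k.subtypePerm (fun x => (hin k hk x).symm)
  let k2 : Perm {a : Fin m // ¬ a ∈ S} := k.subtypePerm (fun x => not_congr (hin k hk x).symm)
  have hk1 : ∃ c, al c = e.symm.permCongr k1 := by
    apply al_range
    · ext i
      have h1 := congrArg (fun σ : Perm (Fin m) => σ (e i)) (hK k hk)
      simp only [Perm.mul_apply, Perm.one_apply] at h1
      simp only [Perm.mul_apply, Perm.one_apply, permCongr_apply, symm_symm, apply_symm_apply]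
      have h2 : k1 (k1 (e i)) = e i := Subtype.ext h1
      rw [h2, symm_apply_apply]
    · intro i hi
      rw [permCongr_apply, symm_symm, symm_apply_eq] at hi
      have h2 : k (e i) = e i := congrArg Subtype.val hi
      ext j
      rw [permCongr_apply, symm_symm, Perm.one_apply]
      obtain ⟨l, hl, hlj⟩ := htr (e i) (e i).2 (e j) (e j).2
      have h3 : k1 (e j) = e j := by
        apply Subtype.ext
        show k (e j) = e j
        rw [← hlj, ← Perm.mul_apply, hK.comm k hk l hl, Perm.mul_apply, h2]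
      rw [h3, symm_apply_apply]
  obtain ⟨c, hc⟩ := hk1
  refine ⟨(c, k2), ?_⟩
  ext x
  by_cases hx : x ∈ S
  · obtain ⟨i, hi⟩ : ∃ i, e i = ⟨x, hx⟩ := ⟨e.symm ⟨x, hx⟩, e.apply_symm_apply _⟩
    have h4 : ((S.orderIsoOfFin h) i : Fin m) = x := congrArg Subtype.val hi
    have h5 := glue_mem (ga := al) S h (c, k2) i
    rw [h4] at h5
    rw [h5]
    have h6 : ((S.orderIsoOfFin h) (al c i)) = k1 (e i) := by
      rw [hc, permCongr_apply, symm_symm]
      exact e.apply_symm_apply _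
    rw [h6, hi]
    rfl
  · rw [glue_not_mem S h _ x hx]
    rfl

/-- The group can be recovered. -/
private theorem exg_rec {m : ℕ} {K : Subgroup (Perm (Fin m))} (hK : El K) {S : Finset (Fin m)}
    (hS : S ∈ orbs 4 K) (h : S.card = 4) : ((exg K S h).comap (glue be S h)).map (glue al S h) = K := by
  unfold exg
  rw [Subgroup.comap_map_eq_self_of_injective (glue_inj be_inj S h), Subgroup.map_comap_eq]
  exact inf_eq_right.2 (le_range hK hS h)

/-- Points outside `S`. -/
private theorem orbit_out {m : ℕ} {K : Subgroup (Perm (Fin m))} (hK : El K) {S : Finset (Fin m)}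
    (hS : S ∈ orbs 4 K) (h : S.card = 4) {x : Fin m} (hx : ¬ x ∈ S) :
    MulAction.orbit (exg K S h) x = MulAction.orbit K x := by
  ext y
  rw [orbit_iff, orbit_iff]
  constructor
  · rintro ⟨_, ⟨p, hp, rfl⟩, h1⟩
    refine ⟨glue al S h p, hp, ?_⟩
    rw [glue_not_mem S h p x hx] at h1 ⊢
    exact h1
  · rintro ⟨k, hk, h1⟩
    obtain ⟨p, rfl⟩ := le_range hK hS h hk
    refine ⟨glue be S h p, ⟨p, hk, rfl⟩, ?_⟩
    rw [glue_not_mem S h p x hx] at h1 ⊢
    exact h1

/-- Points of `S`. -/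
private theorem orbit_in {m : ℕ} {K : Subgroup (Perm (Fin m))} (hK : El K) {S : Finset (Fin m)}
    (hS : S ∈ orbs 4 K) (h : S.card = 4) (i : Fin 4) (y : Fin m) :
    y ∈ MulAction.orbit (exg K S h) (S.orderIsoOfFin h i : Fin m) ↔
      ∃ j, (∃ c, be c i = j) ∧ y = (S.orderIsoOfFin h j : Fin m) := by
  rw [orbit_iff]
  constructor
  · rintro ⟨_, ⟨p, hp, rfl⟩, h1⟩
    rw [glue_mem] at h1
    exact ⟨_, ⟨p.1, rfl⟩, h1.symm⟩
  · rintro ⟨_, ⟨c, rfl⟩, h1⟩
    obtain ⟨k, hk, h2⟩ := orb_trans hS (S.orderIsoOfFin h 0 : Fin m) (S.orderIsoOfFin h 0).2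
      (S.orderIsoOfFin h (al c 0) : Fin m) (S.orderIsoOfFin h (al c 0)).2
    obtain ⟨p, rfl⟩ := le_range hK hS h hk
    rw [glue_mem] at h2
    have h3 : p.1 = c := al_zero_inj _ _ ((S.orderIsoOfFin h).injective (Subtype.ext h2))
    refine ⟨glue be S h p, ⟨p, hk, rfl⟩, ?_⟩
    rw [glue_mem, h3, h1]

/-- Two points of `S`. -/
private noncomputable def pr {m : ℕ} (S : Finset (Fin m)) (h : S.card = 4) (i j : Fin 4) : Finset (Fin m) :=
  {(S.orderIsoOfFin h i : Fin m), (S.orderIsoOfFin h j : Fin m)}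

private theorem mem_pr {m : ℕ} {S : Finset (Fin m)} {h : S.card = 4} {i j : Fin 4} {y : Fin m} :
    y ∈ pr S h i j ↔ ∃ k, (k = i ∨ k = j) ∧ y = (S.orderIsoOfFin h k : Fin m) := by
  unfold pr
  rw [Finset.mem_insert, Finset.mem_singleton]
  constructor
  · rintro (h1 | h1)
    · exact ⟨i, Or.inl rfl, h1⟩
    · exact ⟨j, Or.inr rfl, h1⟩
  · rintro ⟨k, rfl | rfl, h1⟩
    · exact Or.inl h1
    · exact Or.inr h1

private theorem pr_low {m : ℕ} {K : Subgroup (Perm (Fin m))} (hK : El K) {S : Finset (Fin m)}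
    (hS : S ∈ orbs 4 K) (h : S.card = 4) (i : Fin 4) (hi : i = 0 ∨ i = 1) :
    (pr S h 0 1 : Set (Fin m)) = MulAction.orbit (exg K S h) (S.orderIsoOfFin h i : Fin m) := by
  ext y
  rw [orbit_in hK hS h i y, Finset.mem_coe, mem_pr]
  simp only [be_low i hi]

private theorem pr_high {m : ℕ} {K : Subgroup (Perm (Fin m))} (hK : El K) {S : Finset (Fin m)}
    (hS : S ∈ orbs 4 K) (h : S.card = 4) (i : Fin 4) (hi : i = 2 ∨ i = 3) :
    (pr S h 2 3 : Set (Fin m)) = MulAction.orbit (exg K S h) (S.orderIsoOfFin h i : Fin m) := by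
  ext y
  rw [orbit_in hK hS h i y, Finset.mem_coe, mem_pr]
  simp only [be_high i hi]

private theorem pr_card {m : ℕ} (S : Finset (Fin m)) (h : S.card = 4) {i j : Fin 4} (hij : i ≠ j) :
    (pr S h i j).card = 2 := by
  unfold pr
  refine Finset.card_pair ?_
  intro h1
  exact hij ((S.orderIsoOfFin h).injective (Subtype.ext h1))

private theorem pr_ne {m : ℕ} (S : Finset (Fin m)) (h : S.card = 4) : pr S h 0 1 ≠ pr S h 2 3 := by
  intro h1
  have h2 : (S.orderIsoOfFin h 0 : Fin m) ∈ pr S h 0 1 := mem_pr.2 ⟨0, Or.inl rfl, rfl⟩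
  rw [h1, mem_pr] at h2
  obtain ⟨k, hk, h3⟩ := h2
  have h4 : (0 : Fin 4) = k := (S.orderIsoOfFin h).injective (Subtype.ext h3)
  rcases hk with rfl | rfl
  · exact absurd h4 (by decide)
  · exact absurd h4 (by decide)

private theorem fin4 : ∀ i : Fin 4, (i = 0 ∨ i = 1) ∨ (i = 2 ∨ i = 3) := by decide

private theorem pr_union {m : ℕ} (S : Finset (Fin m)) (h : S.card = 4) : pr S h 0 1 ∪ pr S h 2 3 = S := by
  ext x
  rw [Finset.mem_union, mem_pr, mem_pr]
  constructor
  · rintro (⟨k, -, rfl⟩ | ⟨k, -, rfl⟩)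
    · exact (S.orderIsoOfFin h k).2
    · exact (S.orderIsoOfFin h k).2
  · intro hx
    obtain ⟨i, hi⟩ := (S.orderIsoOfFin h).surjective ⟨x, hx⟩
    have h1 : x = (S.orderIsoOfFin h i : Fin m) := (congrArg Subtype.val hi).symm
    rcases fin4 i with h2 | h2
    · exact Or.inl ⟨i, h2, h1⟩
    · exact Or.inr ⟨i, h2, h1⟩

private theorem orbs_sub {m : ℕ} {K : Subgroup (Perm (Fin m))} (hK : El K) {S : Finset (Fin m)}
    (hS : S ∈ orbs 4 K) (h : S.card = 4) :
    orbs 2 (exg K S h) ⊆ insert (pr S h 0 1) (insert (pr S h 2 3) (orbs 2 K)) := by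
  intro T hT
  obtain ⟨hT2, x, hx⟩ := mem_orbs.1 hT
  rw [Finset.mem_insert, Finset.mem_insert]
  by_cases hxS : x ∈ S
  · obtain ⟨i, hi⟩ := (S.orderIsoOfFin h).surjective ⟨x, hxS⟩
    have h1 : x = (S.orderIsoOfFin h i : Fin m) := (congrArg Subtype.val hi).symm
    rcases fin4 i with h2 | h2
    · left
      rw [h1, ← pr_low hK hS h i h2] at hx
      exact Finset.coe_injective hx
    · right
      left
      rw [h1, ← pr_high hK hS h i h2] at hx
      exact Finset.coe_injective hx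
  · right
    right
    rw [mem_orbs]
    refine ⟨hT2, x, ?_⟩
    rw [hx, orbit_out hK hS h hxS]

private theorem exg_card {m : ℕ} {K : Subgroup (Perm (Fin m))} (hK : El K) {S : Finset (Fin m)}
    (hS : S ∈ orbs 4 K) (h : S.card = 4) : (orbs 2 (exg K S h)).card ≤ a2 K + 2 := by
  rw [a2_eq]
  refine (Finset.card_le_card (orbs_sub hK hS h)).trans ?_
  refine (Finset.card_insert_le _ _).trans ?_
  have := Finset.card_insert_le (pr S h 2 3) (orbs 2 K)
  omega

/-- The unions of two orbits with two elements. -/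
private noncomputable def good (j : ℕ) {m : ℕ} (K : Subgroup (Perm (Fin m))) : Finset (Finset (Fin m)) := by
  classical exact if (orbs 2 K).card ≤ j + 2 then ((orbs 2 K).powersetCard 2).image (fun P => P.biUnion id) else ∅

private theorem good_card (j : ℕ) {m : ℕ} (K : Subgroup (Perm (Fin m))) : (good j K).card ≤ (j + 2).choose 2 := by
  classical
  unfold good
  split_ifs with h
  · refine Finset.card_image_le.trans ?_
    rw [Finset.card_powersetCard]
    exact Nat.choose_le_choose 2 h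
  · simp

private theorem mem_good {m j : ℕ} {K : Subgroup (Perm (Fin m))} (hK : El K) {S : Finset (Fin m)}
    (hS : S ∈ orbs 4 K) (h : S.card = 4) (hj : a2 K = j) : S ∈ good j (exg K S h) := by
  classical
  unfold good
  rw [if_pos (hj ▸ exg_card hK hS h), Finset.mem_image]
  refine ⟨{pr S h 0 1, pr S h 2 3}, ?_, ?_⟩
  · rw [Finset.mem_powersetCard]
    refine ⟨?_, Finset.card_pair (pr_ne S h)⟩
    intro T hT
    rw [Finset.mem_insert, Finset.mem_singleton] at hT
    rw [mem_orbs]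
    rcases hT with rfl | rfl
    · exact ⟨pr_card S h (by decide), _, pr_low hK hS h 0 (Or.inl rfl)⟩
    · exact ⟨pr_card S h (by decide), _, pr_high hK hS h 2 (Or.inl rfl)⟩
  · rw [Finset.biUnion_insert, Finset.singleton_biUnion]
    exact pr_union S h

theorem exch (m j B : ℕ) :
    B * Nat.card {K : Subgroup (Perm (Fin m)) // El K ∧ a2 K = j ∧ B ≤ a4 K} ≤ (j + 2).choose 2 * nEl m := by
  classical
  let X := {K : Subgroup (Perm (Fin m)) // El K ∧ a2 K = j ∧ B ≤ a4 K}
  let Y := {L : Subgroup (Perm (Fin m)) // El L}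
  have : Fintype X := Fintype.ofFinite X
  have : Fintype Y := Fintype.ofFinite Y
  have hX : B * Nat.card X ≤ Nat.card (Σ K : X, {S : Finset (Fin m) // S ∈ orbs 4 K.1}) := by
    rw [Nat.card_sigma, Nat.card_eq_fintype_card, mul_comm, ← Finset.card_univ, ← smul_eq_mul]
    refine Finset.card_nsmul_le_sum _ _ _ ?_
    intro K _
    refine K.2.2.2.trans (le_of_eq ?_)
    unfold a4
    refine Nat.card_congr (Equiv.subtypeEquivRight ?_)
    intro S
    exact mem_orbs.symm
  have hY : Nat.card (Σ L : Y, {S : Finset (Fin m) // S ∈ good j L.1}) ≤ (j + 2).choose 2 * nEl m := by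
    unfold nEl
    rw [Nat.card_sigma, Nat.card_eq_fintype_card (α := Y), mul_comm, ← Finset.card_univ, ← smul_eq_mul]
    refine Finset.sum_le_card_nsmul _ _ _ ?_
    intro L _
    rw [Nat.card_eq_fintype_card, Fintype.card_coe]
    exact good_card j L.1
  refine hX.trans (le_trans ?_ hY)
  refine Nat.card_le_card_of_injective
    (fun q : Σ K : X, {S : Finset (Fin m) // S ∈ orbs 4 K.1} =>
      (⟨⟨exg q.1.1 q.2.1 (mem_orbs.1 q.2.2).1, exg_el q.1.2.1 _ _⟩,
        ⟨q.2.1, mem_good q.1.2.1 q.2.2 _ q.1.2.2.1⟩⟩ : Σ L : Y, {S : Finset (Fin m) // S ∈ good j L.1})) ?_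
  rintro ⟨⟨K, hK⟩, ⟨S, hS⟩⟩ ⟨⟨K', hK'⟩, ⟨S', hS'⟩⟩ h
  have h1 : exg K S (mem_orbs.1 hS).1 = exg K' S' (mem_orbs.1 hS').1 :=
    congrArg (fun q : Σ L : Y, {S : Finset (Fin m) // S ∈ good j L.1} => q.1.1) h
  have h2 : S = S' :=
    congrArg (fun q : Σ L : Y, {S : Finset (Fin m) // S ∈ good j L.1} => q.2.1) h
  subst h2
  have h3 : K = K' := by
    rw [← exg_rec hK.1 hS (mem_orbs.1 hS).1, h1, exg_rec hK'.1 hS' (mem_orbs.1 hS').1]
  subst h3
  rfl

end Pool.Agent.SqA
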