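import Pool.Agent.SqA.Block

/-!
The set `Z`: choose one point `i ∈ I` in every orbit of the group generated by `O` and `L` inside the support
(`x ~ y` iff `l x` is in the `O`-orbit of `y` for some `l ∈ L`), and `Y i` with `block`. `ZZ` is the set of the points of
the support which no `l ∈ L` moves into some `Y i`.

`globA_good`: for `z ∈ ZZ` take `i ∈ I`, `l ∈ L` with `l z` in the `O`-orbit of `i`; `l z ∉ Y i`; take `F'`, `b` for `l z` and
`F = F'.image l⁻¹`. As `L` is abelian, `m z = z` iff `m (l z) = l z`, and `F.image m = F` iff `F'.image m = F'`. The points of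
`F` are not in `ZZ`. `|F| ≤ |Y i| ≤ max 1 (2 r)`, `3 ^ r ≤ n` (`eigB` contains `1`), so `|F| ≤ ell n`.
-/

set_option autoImplicit false

namespace Pool.Agent.SqA

open Equiv Pool.Agent.AbS

/-- A choice of representatives. -/
def Reps {n : ℕ} (O L : Subgroup (Perm (Fin n))) (χ : L →* ℤˣ) (I : Finset (Fin n)) (Y : Fin n → Finset (Fin n)) :
    Prop :=
  (∀ i ∈ I, i ∈ supp O) ∧
  (∀ z ∈ supp O, ∃ i ∈ I, ∃ l ∈ L, l z ∈ MulAction.orbit O i) ∧
  (∀ i ∈ I, ∀ j ∈ I, ∀ l ∈ L, l i ∈ MulAction.orbit O j → i = j) ∧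
  ∀ i ∈ I, BlockData O L χ i (Y i)

/-- The deleted points. -/
noncomputable def ZZ {n : ℕ} (O L : Subgroup (Perm (Fin n))) (I : Finset (Fin n)) (Y : Fin n → Finset (Fin n)) :
    Finset (Fin n) := by
  classical exact (supp O).filter (fun z => ¬ ∃ i ∈ I, ∃ l ∈ L, l z ∈ Y i)

theorem mem_ZZ {n : ℕ} {O L : Subgroup (Perm (Fin n))} {I : Finset (Fin n)} {Y : Fin n → Finset (Fin n)} {z : Fin n} :
    z ∈ ZZ O L I Y ↔ z ∈ supp O ∧ ¬ ∃ i ∈ I, ∃ l ∈ L, l z ∈ Y i := by
  classical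
  unfold ZZ
  simp

private theorem mem_orbA {Ω : Type} {H : Subgroup (Perm Ω)} {x y : Ω} :
    y ∈ MulAction.orbit H x ↔ ∃ k ∈ H, k x = y := by
  constructor
  · rintro ⟨⟨g, hg⟩, rfl⟩
    exact ⟨g, hg, rfl⟩
  · rintro ⟨k, hk, rfl⟩
    exact ⟨⟨k, hk⟩, rfl⟩

/-- The equivalence relation. -/
private def rel {n : ℕ} {O L : Subgroup (Perm (Fin n))} (h : Pair O L) : Setoid (Fin n) where
  r x y := ∃ l ∈ L, l x ∈ MulAction.orbit O y
  iseqv :=
    { refl := fun x => ⟨1, L.one_mem, MulAction.mem_orbit_self x⟩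
      symm := by
        rintro x y ⟨l, hl, hxy⟩
        refine ⟨l⁻¹, L.inv_mem hl, ?_⟩
        have h1 : y ∈ MulAction.orbit O (l x) := (MulAction.mem_orbit_symm (G := O)).2 hxy
        have h2 := (h.orbit_image (L.inv_mem hl) (l x) y).1 h1
        simpa using h2
      trans := by
        rintro x y z ⟨l, hl, hxy⟩ ⟨m, hm, hyz⟩
        refine ⟨m * l, L.mul_mem hm hl, ?_⟩
        have h1 := (h.orbit_image hm y (l x)).1 hxy
        have h2 : MulAction.orbit O (m y) = MulAction.orbit O z := MulAction.orbit_eq_iff.2 hyz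
        rw [h2] at h1
        exact h1 }

private theorem supp_orb {n : ℕ} {O : Subgroup (Perm (Fin n))} {x y : Fin n} (hx : x ∈ supp O)
    (hy : y ∈ MulAction.orbit O x) : y ∈ supp O := by
  obtain ⟨k, hk, rfl⟩ := mem_orbA.1 hy
  obtain ⟨o, ho, hox⟩ := mem_supp.1 hx
  refine mem_supp.2 ⟨k * o * k⁻¹, O.mul_mem (O.mul_mem hk ho) (O.inv_mem hk), fun h => hox ?_⟩
  simpa using h

private theorem supp_act {n : ℕ} {O L : Subgroup (Perm (Fin n))} (h : Pair O L) {x : Fin n} (hx : x ∈ supp O)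
    {l : Perm (Fin n)} (hl : l ∈ L) : l x ∈ supp O := by
  obtain ⟨o, ho, hox⟩ := mem_supp.1 hx
  refine mem_supp.2 ⟨l * o * l⁻¹, h.2.2 l hl o ho, fun h => hox ?_⟩
  simpa using h

theorem exists_reps {n : ℕ} {O L : Subgroup (Perm (Fin n))} (h : Pair O L) (χ : L →* ℤˣ) :
    ∃ I Y, Reps O L χ I Y := by
  classical
  set s := rel h with hs
  set f : Fin n → Fin n := fun x => (Quotient.mk s x).out with hf
  have hf1 : ∀ x, s (f x) x := fun x => Quotient.mk_out (s := s) x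
  have hf2 : ∀ x y, s x y → f x = f y := fun x y hxy => by
    simp only [hf]
    rw [Quotient.sound (s := s) hxy]
  have hf3 : ∀ x ∈ supp O, f x ∈ supp O := by
    intro x hx
    obtain ⟨l, hl, h1⟩ := s.symm (hf1 x)
    have h2 := supp_act h hx hl
    exact supp_orb h2 ((MulAction.mem_orbit_symm (G := O)).2 h1)
  have hb : ∀ i : Fin n, ∃ Y : Finset (Fin n), i ∈ supp O → BlockData O L χ i Y := by
    intro i
    by_cases hi : i ∈ supp O
    · obtain ⟨Y, hY⟩ := block h χ hi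
      exact ⟨Y, fun _ => hY⟩
    · exact ⟨∅, fun h => absurd h hi⟩
  choose Y hY using hb
  have hI : ∀ i ∈ (supp O).image f, i ∈ supp O := by
    intro i hi
    obtain ⟨x, hx, rfl⟩ := Finset.mem_image.1 hi
    exact hf3 x hx
  refine ⟨(supp O).image f, Y, hI, ?_, ?_, fun i hi => hY i (hI i hi)⟩
  · intro z hz
    obtain ⟨l, hl, h1⟩ := s.symm (hf1 z)
    exact ⟨f z, Finset.mem_image_of_mem f hz, l, hl, h1⟩
  · intro i hi j hj l hl hij
    obtain ⟨x, hx, rfl⟩ := Finset.mem_image.1 hi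
    obtain ⟨y, hy, rfl⟩ := Finset.mem_image.1 hj
    have h1 : s (f x) (f y) := ⟨l, hl, hij⟩
    exact hf2 x y (s.trans (s.symm (hf1 x)) (s.trans h1 (hf1 y)))

theorem globA_good {n : ℕ} {O L : Subgroup (Perm (Fin n))} (h : Pair O L) (χ : L →* ℤˣ) {I : Finset (Fin n)}
    {Y : Fin n → Finset (Fin n)} (hI : Reps O L χ I Y) : Good (ell n) (ZZ O L I Y) L χ := by
  classical
  obtain ⟨hI1, hI2, hI3, hI4⟩ := hI
  refine ⟨?_, ?_⟩
  · intro l hl z hz
    obtain ⟨hz1, hz2⟩ := mem_ZZ.1 hz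
    refine mem_ZZ.2 ⟨supp_act h hz1 hl, ?_⟩
    rintro ⟨i, hi, m, hm, hmY⟩
    exact hz2 ⟨i, hi, m * l, L.mul_mem hm hl, hmY⟩
  · intro z hz
    obtain ⟨hz1, hz2⟩ := mem_ZZ.1 hz
    obtain ⟨i, hi, l, hl, hlz⟩ := hI2 z hz1
    have hlY : l z ∉ Y i := fun h1 => hz2 ⟨i, hi, l, hl, h1⟩
    obtain ⟨-, -, -, hB4, r, hr1, hr2⟩ := hI4 i hi
    obtain ⟨F', hF1, hF2, b, hF3⟩ := hB4 (l z) hlz hlY
    refine ⟨F'.image (⇑l⁻¹), ?_, ?_, b, ?_⟩
    · rw [Finset.disjoint_left]
      intro y hy hyZ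
      obtain ⟨f, hf, rfl⟩ := Finset.mem_image.1 hy
      refine (mem_ZZ.1 hyZ).2 ⟨i, hi, l, hl, ?_⟩
      have h1 : l (l⁻¹ f) = f := by simp
      rw [h1]
      exact hF1 hf
    · have h0 : (1 : Perm (Fin n)) ∈ eigB O L χ i := by
        refine ⟨(hat O).one_mem, fun _ _ => rfl, fun m hm _ => ?_⟩
        simp
      have h1 : 1 ≤ Nat.card (eigB O L χ i) := by
        have : Nonempty (eigB O L χ i) := ⟨⟨1, h0⟩⟩
        exact Nat.card_pos
      have h2 : Nat.card (MulAction.orbit O i) ≤ n := by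
        have h3 := Finite.card_subtype_le (fun y : Fin n => y ∈ MulAction.orbit O i)
        rw [Nat.card_fin] at h3
        exact h3
      have h3 : 3 ^ r ≤ n := by
        calc 3 ^ r = 1 * 3 ^ r := (one_mul _).symm
          _ ≤ Nat.card (eigB O L χ i) * 3 ^ r := Nat.mul_le_mul_right _ h1
          _ ≤ Nat.card (MulAction.orbit O i) := hr1
          _ ≤ n := h2
      have h4 : 2 ^ r ≤ n := le_trans (Nat.pow_le_pow_left (by norm_num) r) h3
      have hn : n ≠ 0 := by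
        rintro rfl
        exact i.elim0
      have h5 : r ≤ Nat.log 2 n := (Nat.le_log_iff_pow_le (by norm_num) hn).2 h4
      have h6 : (F'.image (⇑l⁻¹)).card ≤ (Y i).card := le_trans Finset.card_image_le (Finset.card_le_card hF1)
      unfold ell
      omega
    · intro m hm
      have hcm : m * l = l * m := by
        have h1 := h.2.1 _ (L.mul_mem hm hl)
        have h2 : m⁻¹ = m := inv_eq_of_mul_eq_one_right (h.2.1 m hm)
        have h3 : l⁻¹ = l := inv_eq_of_mul_eq_one_right (h.2.1 l hl)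
        have h4 : (m * l)⁻¹ = m * l := inv_eq_of_mul_eq_one_right h1
        rw [← h4, mul_inv_rev, h2, h3]
      have hcm' : m * l⁻¹ = l⁻¹ * m := by
        rw [eq_inv_mul_iff_mul_eq, ← mul_assoc, ← hcm, mul_assoc, mul_inv_cancel, mul_one]
      have h1 : m z = z ↔ m (l z) = l z := by
        have h2 : m (l z) = l (m z) := congrArg (fun g : Perm (Fin n) => g z) hcm
        rw [h2]
        exact (l.injective.eq_iff).symm
      have h2 : (F'.image (⇑l⁻¹)).image (⇑m) = F'.image (⇑l⁻¹) ↔ F'.image (⇑m) = F' := by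
        have h3 : (⇑m ∘ ⇑l⁻¹ : Fin n → Fin n) = ⇑l⁻¹ ∘ ⇑m := by
          funext y
          exact congrArg (fun g : Perm (Fin n) => g y) hcm'
        have h4 : (F'.image (⇑l⁻¹)).image (⇑m) = (F'.image (⇑m)).image (⇑l⁻¹) := by
          rw [Finset.image_image, Finset.image_image, h3]
        rw [h4]
        exact (Finset.image_injective (l⁻¹).injective).eq_iff
      rw [h1, h2]
      exact hF3 m hm

end Pool.Agent.SqA
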