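import Pool.Agent.SqA.GlobA

/-!
The inequalities. Blocks are the orbits `B` of `O` in the support, `b = |B|` odd, `≥ 3`, `s = |B ∩ ZZ|`. For a block there
are `i ∈ I`, `l ∈ L` with `l B` the orbit of `i`, and `s = b - |Y i|` (a point `z` of `B` is not in `ZZ` iff `l z ∈ Y i`: if
`l' z ∈ Y j` then `j = i` by the third clause of `Reps` and `l' l⁻¹` maps the orbit of `i` to itself, so it maps `Y i` to
itself). Write `y = |eigB O L χ i| ≥ 1`, `r` from `BlockData`: `y 3 ^ r ≤ b`, `1 ≤ |Y i| ≤ max 1 (2 r)`. So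
(N1) `b ≤ 3 s` (`2 r ≤ (2/3) 3 ^ r` for `r ≥ 1`; `1 ≤ (2/3) b`),
(N2) `b ^ 4 ≤ 3 ^ (b + 1) ≤ 3 ^ (2 b - s)` (`b = 3`: equality, `b ≥ 5`: induction),
(N3) `y ^ 2 ≤ 3 ^ s` (`y = 1` trivial; `y ≥ 3` (`y` divides ... or only: `y = 2` gives `4 ≤ 3 ^ s` if `s ≥ 2`, true as
`b ≥ 2 · 3 ^ r`), `y ^ 2 ≤ 3 ^ (y - 1)` for `y ≥ 3` and `y - 1 ≤ b - max 1 (2 r) ≤ s`).
Sums over the blocks: `|supp| = ∑ b ≤ 3 ∑ s = 3 |ZZ|`; `|hat O| ≤ ∏ b` (`σ ↦ (σ (point of B))_B`, `hat_eq_on_orbit`), so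
`|hat O| ^ 4 ≤ 3 ^ (2 |supp| - |ZZ|)`; an element of `eig (hat O) L χ` is determined by its restrictions to the orbits of the
`i ∈ I` (extended by the identity they lie in `eigB`; on `l⁻¹ B` it is determined by `l v l⁻¹ = v ^ χ(l)`), so
`|eig| ≤ ∏_(i ∈ I) |eigB i|` and `|eig| ^ 2 ≤ 3 ^ (∑_(i ∈ I) |orbit i ∩ ZZ|) ≤ 3 ^ |ZZ|`.
-/

set_option autoImplicit false

namespace Pool.Agent.SqA

open Equiv Pool.Agent.AbS

private theorem two_mul_le (r : ℕ) (hr : 1 ≤ r) : 2 * r * 3 ≤ 2 * 3 ^ r := by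
  induction r, hr using Nat.le_induction with
  | base => norm_num
  | succ r hr ih =>
    rw [pow_succ]
    have : 3 ≤ 3 ^ r := by
      calc 3 = 3 ^ 1 := by norm_num
        _ ≤ 3 ^ r := Nat.pow_le_pow_right (by norm_num) hr
    nlinarith

private theorem four_le (k : ℕ) : (2 * k + 3) ^ 4 ≤ 3 ^ (2 * k + 4) := by
  induction k with
  | zero => norm_num
  | succ k ih =>
    have e : 3 ^ (2 * (k + 1) + 4) = 9 * 3 ^ (2 * k + 4) := by
      rw [show 2 * (k + 1) + 4 = 2 * k + 4 + 2 by ring, pow_add]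
      ring
    rw [e]
    refine le_trans ?_ (Nat.mul_le_mul_left 9 ih)
    have h1 : 3 * (2 * (k + 1) + 3) ≤ 5 * (2 * k + 3) := by omega
    have h2 : (3 * (2 * (k + 1) + 3)) ^ 4 ≤ (5 * (2 * k + 3)) ^ 4 := Nat.pow_le_pow_left h1 4
    rw [mul_pow, mul_pow] at h2
    have h3 : 3 ^ 4 * (2 * (k + 1) + 3) ^ 4 ≤ 3 ^ 4 * (9 * (2 * k + 3) ^ 4) := by
      refine h2.trans ?_
      norm_num
      nlinarith [Nat.zero_le ((2 * k + 3) ^ 4)]
    exact Nat.le_of_mul_le_mul_left h3 (by norm_num)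

private theorem sq_le (y : ℕ) (hy : 3 ≤ y) : y ^ 2 ≤ 3 ^ (y - 1) := by
  induction y, hy using Nat.le_induction with
  | base => norm_num
  | succ y hy ih =>
    have e : 3 ^ (y + 1 - 1) = 3 * 3 ^ (y - 1) := by
      rw [← pow_succ']
      congr 1
      omega
    rw [e]
    nlinarith

theorem num3 (b y r c s : ℕ) (hb : Odd b) (hb3 : 3 ≤ b) (hy : 1 ≤ y) (h1 : y * 3 ^ r ≤ b) (hc : 1 ≤ c)
    (hc2 : c ≤ max 1 (2 * r)) (hs : s + c = b) :
    b ≤ 3 * s ∧ b ^ 4 ≤ 3 ^ (2 * b - s) ∧ y ^ 2 ≤ 3 ^ s := by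
  have hr3 : 3 ^ r ≤ b := le_trans (Nat.le_mul_of_pos_left _ hy) h1
  have hc3 : c * 3 ≤ 2 * b := by
    rcases Nat.eq_zero_or_pos r with rfl | hr
    · have : c ≤ 1 := by simpa using hc2
      omega
    · have h2 := two_mul_le r hr
      have h3 : c ≤ 2 * r := by
        refine hc2.trans (max_le ?_ le_rfl)
        omega
      omega
  have hN1 : b ≤ 3 * s := by omega
  refine ⟨hN1, ?_, ?_⟩
  · obtain ⟨k, rfl⟩ : ∃ k, b = 2 * k + 3 := by
      obtain ⟨m, hm⟩ := hb
      exact ⟨m - 1, by omega⟩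
    refine (four_le k).trans (Nat.pow_le_pow_right (by norm_num) ?_)
    omega
  · rcases Nat.lt_or_ge y 3 with h3 | h3
    · have h4 : 2 ≤ s ∨ y = 1 := by
        by_cases hy1 : y = 1
        · exact Or.inr hy1
        · left
          have hy2 : y = 2 := by omega
          subst hy2
          rcases Nat.eq_zero_or_pos r with rfl | hr
          · have : c ≤ 1 := by simpa using hc2
            omega
          · have : 3 ≤ 3 ^ r := by
              calc 3 = 3 ^ 1 := by norm_num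
                _ ≤ 3 ^ r := Nat.pow_le_pow_right (by norm_num) hr
            omega
      rcases h4 with h4 | h4
      · calc y ^ 2 ≤ 2 ^ 2 := Nat.pow_le_pow_left (by omega) 2
          _ ≤ 3 ^ 2 := by norm_num
          _ ≤ 3 ^ s := Nat.pow_le_pow_right (by norm_num) h4
      · subst h4
        simpa using Nat.one_le_pow s 3 (by norm_num)
    · refine (sq_le y h3).trans (Nat.pow_le_pow_right (by norm_num) ?_)
      rcases Nat.eq_zero_or_pos r with rfl | hr
      · have : c ≤ 1 := by simpa using hc2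
        simp only [pow_zero, mul_one] at h1
        omega
      · have h2 := two_mul_le r hr
        have h4 : c ≤ 2 * r := by
          refine hc2.trans (max_le ?_ le_rfl)
          omega
        have h5 : 3 ≤ 3 ^ r := by
          calc 3 = 3 ^ 1 := by norm_num
            _ ≤ 3 ^ r := Nat.pow_le_pow_right (by norm_num) hr
        have h6 : y * 3 ≤ y * 3 ^ r := Nat.mul_le_mul_left y h5
        have h7 : 3 * 3 ^ r ≤ y * 3 ^ r := Nat.mul_le_mul_right _ h3
        omega

open Classical in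
/-- The orbit as a finset. -/
private noncomputable def orb {n : ℕ} (O : Subgroup (Perm (Fin n))) (x : Fin n) : Finset (Fin n) :=
  Finset.univ.filter (fun y => y ∈ MulAction.orbit O x)

private theorem mem_orb {n : ℕ} {O : Subgroup (Perm (Fin n))} {x y : Fin n} :
    y ∈ orb O x ↔ y ∈ MulAction.orbit O x := by
  classical
  simp [orb]

private theorem card_orb {n : ℕ} (O : Subgroup (Perm (Fin n))) (x : Fin n) :
    (orb O x).card = Nat.card (MulAction.orbit O x) :=
  (Nat.subtype_card (orb O x) (fun _ => mem_orb)).symm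

private theorem orb_eq {n : ℕ} {O : Subgroup (Perm (Fin n))} {x y : Fin n} (h : y ∈ orb O x) :
    orb O y = orb O x := by
  have h1 := MulAction.orbit_eq_iff.2 (mem_orb.1 h)
  ext z
  rw [mem_orb, mem_orb, h1]

private theorem self_mem {n : ℕ} {O : Subgroup (Perm (Fin n))} (x : Fin n) : x ∈ orb O x :=
  mem_orb.2 (MulAction.mem_orbit_self x)

private theorem orb_eq_iff {n : ℕ} {O : Subgroup (Perm (Fin n))} {x y : Fin n} : orb O y = orb O x ↔ y ∈ orb O x :=
  ⟨fun h => h ▸ self_mem y, orb_eq⟩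

private theorem apply_mem {n : ℕ} {O : Subgroup (Perm (Fin n))} {x y o : Fin n} {k : Perm (Fin n)} (hk : k ∈ O)
    (hy : y ∈ MulAction.orbit O x) (ho : o = k y) : o ∈ MulAction.orbit O x := by
  have := MulAction.mem_orbit_of_mem_orbit (⟨k, hk⟩ : O) hy
  rw [ho]
  simpa [Subgroup.smul_def] using this

/-- The support is a union of orbits. -/
private theorem supp_orb {n : ℕ} {O : Subgroup (Perm (Fin n))} (hab : ∀ a ∈ O, ∀ b ∈ O, a * b = b * a)
    {x y : Fin n} (hx : x ∈ supp O) (hy : y ∈ orb O x) : y ∈ supp O := by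
  rw [mem_supp] at hx ⊢
  obtain ⟨o, ho, hox⟩ := hx
  obtain ⟨⟨k, hk⟩, rfl⟩ := mem_orb.1 hy
  refine ⟨o, ho, fun h => hox ?_⟩
  have h1 : o (k x) = k (o x) := by
    rw [← Perm.mul_apply, ← Perm.mul_apply, hab o ho k hk]
  change o (k x) = k x at h
  rw [h1] at h
  exact k.injective h

/-- The numbers of one block. -/
private theorem block_card {n : ℕ} {O L : Subgroup (Perm (Fin n))} (h : Pair O L) (χ : L →* ℤˣ) {I : Finset (Fin n)}
    {Y : Fin n → Finset (Fin n)} (hI : Reps O L χ I Y) {x i : Fin n} (hx : x ∈ supp O) (hi : i ∈ I)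
    {l : Perm (Fin n)} (hl : l ∈ L) (hli : l x ∈ MulAction.orbit O i) :
    (orb O x).card = (orb O i).card ∧
      ((ZZ O L I Y).filter (fun z => orb O z = orb O x)).card + (Y i).card = (orb O x).card := by
  classical
  obtain ⟨hI1, hI2, hI3, hI4⟩ := hI
  have hmem : ∀ z, z ∈ orb O x ↔ l z ∈ orb O i := by
    intro z
    rw [mem_orb, mem_orb, h.orbit_image hl x z, MulAction.orbit_eq_iff.2 hli]
  have e1 : (orb O x).image l = orb O i := by
    ext w
    rw [Finset.mem_image]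
    constructor
    · rintro ⟨z, hz, rfl⟩
      exact (hmem z).1 hz
    · intro hw
      refine ⟨l⁻¹ w, ?_, by simp⟩
      rw [hmem]
      simpa using hw
  have e2 : (orb O x).card = (orb O i).card := by
    rw [← e1, Finset.card_image_of_injective _ l.injective]
  refine ⟨e2, ?_⟩
  obtain ⟨hY1, hY2, hY3, -⟩ := hI4 i hi
  have e3 : (ZZ O L I Y).filter (fun z => orb O z = orb O x) = (orb O x).filter (fun z => z ∈ ZZ O L I Y) := by
    ext z
    rw [Finset.mem_filter, Finset.mem_filter, orb_eq_iff]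
    exact and_comm
  have e4 : (orb O x).filter (fun z => z ∉ ZZ O L I Y) = (Y i).image (⇑l⁻¹) := by
    ext z
    rw [Finset.mem_filter, Finset.mem_image, mem_ZZ]
    constructor
    · rintro ⟨hz, hz'⟩
      have hzs := supp_orb h.1.1 hx hz
      rw [not_and, not_not] at hz'
      obtain ⟨j, hj, l', hl', hlz⟩ := hz' hzs
      have hlz' : l' z ∈ MulAction.orbit O j := (hI4 j hj).2.1 _ hlz
      have hlzi : l z ∈ MulAction.orbit O i := mem_orb.1 ((hmem z).1 hz)
      have hm : l' * l⁻¹ ∈ L := mul_mem hl' (inv_mem hl)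
      have hij0 : (l' * l⁻¹) i ∈ MulAction.orbit O ((l' * l⁻¹) (l z)) := by
        rw [← h.orbit_image hm]
        rw [← MulAction.orbit_eq_iff]
        exact (MulAction.orbit_eq_iff.2 hlzi).symm
      have hlz2 : (l' * l⁻¹) (l z) = l' z := by simp
      rw [hlz2, MulAction.orbit_eq_iff.2 hlz'] at hij0
      have hij := hI3 i hi j hj _ hm hij0
      subst hij
      have hm2 : (l' * l⁻¹)⁻¹ ∈ L := inv_mem hm
      have hm3 : (l' * l⁻¹)⁻¹ i ∈ MulAction.orbit O i := by
        have h1 := (h.orbit_image hm2 i ((l' * l⁻¹) i)).1 hij0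
        have e0 : (l' * l⁻¹)⁻¹ ((l' * l⁻¹) i) = i := (l' * l⁻¹).symm_apply_apply i
        rw [e0] at h1
        rw [← MulAction.orbit_eq_iff] at h1 ⊢
        exact h1.symm
      have h2 := hY3 _ hm2 hm3 _ hlz
      refine ⟨(l' * l⁻¹)⁻¹ (l' z), h2, ?_⟩
      simp
    · rintro ⟨w, hw, rfl⟩
      refine ⟨?_, ?_⟩
      · rw [hmem]
        simpa using mem_orb.2 (hY2 w hw)
      · rintro ⟨-, h2⟩
        apply h2
        exact ⟨i, hi, l, hl, by simpa using hw⟩
  have e5 : (Y i).card = ((orb O x).filter (fun z => z ∉ ZZ O L I Y)).card := by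
    rw [e4, Finset.card_image_of_injective _ (l⁻¹).injective]
  rw [e3, e5, Finset.card_filter_add_card_filter_not]

private theorem card_eigB_pos {n : ℕ} (O L : Subgroup (Perm (Fin n))) (χ : L →* ℤˣ) (x : Fin n) :
    1 ≤ Nat.card (eigB O L χ x) := by
  have hne : Nonempty (eigB O L χ x) := by
    refine ⟨⟨1, (hat O).one_mem, fun y _ => rfl, fun l hl _ => ?_⟩⟩
    simp
  exact Nat.one_le_iff_ne_zero.2 Nat.card_pos.ne'

/-- The three inequalities for the orbit of a representative. -/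
private theorem block_rep {n : ℕ} {O L : Subgroup (Perm (Fin n))} (h : Pair O L) (χ : L →* ℤˣ) {I : Finset (Fin n)}
    {Y : Fin n → Finset (Fin n)} (hI : Reps O L χ I Y) {i : Fin n} (hi : i ∈ I) (s : ℕ)
    (hs : s + (Y i).card = (orb O i).card) :
    (orb O i).card ≤ 3 * s ∧ (orb O i).card ^ 4 ≤ 3 ^ (2 * (orb O i).card - s) ∧
      Nat.card (eigB O L χ i) ^ 2 ≤ 3 ^ s := by
  obtain ⟨hY1, hY2, hY3, -, r, hr1, hr2⟩ := hI.2.2.2 i hi
  have h1 := h.orbit_odd (hI.1 i hi)
  rw [← card_orb] at h1 hr1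
  exact num3 _ _ r _ s h1.1 h1.2 (card_eigB_pos O L χ i) hr1 (Finset.card_pos.2 hY1) hr2 hs

private theorem block_supp {n : ℕ} {O L : Subgroup (Perm (Fin n))} (h : Pair O L) (χ : L →* ℤˣ) {I : Finset (Fin n)}
    {Y : Fin n → Finset (Fin n)} (hI : Reps O L χ I Y) {x : Fin n} (hx : x ∈ supp O) :
    (orb O x).card ≤ 3 * ((ZZ O L I Y).filter (fun z => orb O z = orb O x)).card ∧
    (orb O x).card ^ 4 ≤ 3 ^ (2 * (orb O x).card - ((ZZ O L I Y).filter (fun z => orb O z = orb O x)).card) := by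
  obtain ⟨i, hi, l, hl, hli⟩ := hI.2.1 x hx
  obtain ⟨h1, h2⟩ := block_card h χ hI hx hi hl hli
  rw [h1] at h2
  have h3 := block_rep h χ hI hi _ h2
  rw [h1]
  exact ⟨h3.1, h3.2.1⟩

private theorem ZZ_sub {n : ℕ} {O L : Subgroup (Perm (Fin n))} {I : Finset (Fin n)}
    {Y : Fin n → Finset (Fin n)} : ZZ O L I Y ⊆ supp O := fun _ hz => (mem_ZZ.1 hz).1

private theorem sum_supp {n : ℕ} {O : Subgroup (Perm (Fin n))} (hab : ∀ a ∈ O, ∀ b ∈ O, a * b = b * a) :
    (supp O).card = ∑ B ∈ (supp O).image (orb O), B.card := by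
  classical
  rw [Finset.card_eq_sum_card_image (orb O) (supp O)]
  refine Finset.sum_congr rfl (fun B hB => ?_)
  obtain ⟨x, hx, rfl⟩ := Finset.mem_image.1 hB
  congr 1
  ext z
  rw [Finset.mem_filter, orb_eq_iff]
  exact ⟨fun hz => hz.2, fun hz => ⟨supp_orb hab hx hz, hz⟩⟩

private theorem sum_ZZ {n : ℕ} {O L : Subgroup (Perm (Fin n))} {I : Finset (Fin n)}
    {Y : Fin n → Finset (Fin n)} :
    (ZZ O L I Y).card = ∑ B ∈ (supp O).image (orb O), ((ZZ O L I Y).filter (fun z => orb O z = B)).card :=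
  Finset.card_eq_sum_card_fiberwise (fun z hz => Finset.mem_coe.2 (Finset.mem_image_of_mem _ (ZZ_sub hz)))

theorem globB_supp {n : ℕ} {O L : Subgroup (Perm (Fin n))} (h : Pair O L) (χ : L →* ℤˣ) {I : Finset (Fin n)}
    {Y : Fin n → Finset (Fin n)} (hI : Reps O L χ I Y) : (supp O).card ≤ 3 * (ZZ O L I Y).card := by
  rw [sum_supp h.1.1, sum_ZZ, Finset.mul_sum]
  refine Finset.sum_le_sum (fun B hB => ?_)
  obtain ⟨x, hx, rfl⟩ := Finset.mem_image.1 hB
  exact (block_supp h χ hI hx).1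

private theorem hat_fix {n : ℕ} {O : Subgroup (Perm (Fin n))} {σ : Perm (Fin n)} (hσ : σ ∈ hat O) {x : Fin n}
    (hx : x ∉ supp O) : σ x = x := by
  obtain ⟨k, hk, h1⟩ := hσ x
  rw [h1 x (MulAction.mem_orbit_self x)]
  by_contra hne
  exact hx (mem_supp.2 ⟨k, hk, hne⟩)

private theorem hat_mem {n : ℕ} {O : Subgroup (Perm (Fin n))} {σ : Perm (Fin n)} (hσ : σ ∈ hat O) {x y : Fin n}
    (hy : y ∈ MulAction.orbit O x) : σ y ∈ MulAction.orbit O x := by
  obtain ⟨k, hk, h1⟩ := hσ x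
  exact apply_mem hk hy (h1 y hy)

private theorem card_hat_le {n : ℕ} {O : Subgroup (Perm (Fin n))} (hab : ∀ a ∈ O, ∀ b ∈ O, a * b = b * a) :
    Nat.card (hat O) ≤ ∏ B ∈ (supp O).image (orb O), B.card := by
  classical
  have hrep : ∀ B : {B // B ∈ (supp O).image (orb O)}, ∃ x ∈ supp O, B.1 = orb O x := by
    rintro ⟨B, hB⟩
    obtain ⟨x, hx, rfl⟩ := Finset.mem_image.1 hB
    exact ⟨x, hx, rfl⟩
  choose rep hrep1 hrep2 using hrep
  let f : hat O → ((B : {B // B ∈ (supp O).image (orb O)}) → {x // x ∈ B.1}) := fun σ B =>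
    ⟨σ.1 (rep B), by rw [hrep2 B, mem_orb]; exact hat_mem σ.2 (MulAction.mem_orbit_self _)⟩
  have hf : Function.Injective f := by
    intro σ τ hστ
    apply Subtype.ext
    ext x : 1
    by_cases hx : x ∈ supp O
    · have h1 : σ.1 (rep ⟨orb O x, Finset.mem_image_of_mem _ hx⟩) = τ.1 (rep ⟨orb O x, Finset.mem_image_of_mem _ hx⟩) :=
        congrArg Subtype.val (congrFun hστ ⟨orb O x, Finset.mem_image_of_mem _ hx⟩)
      refine hat_eq_on_orbit hab σ.2 τ.2 h1 x ?_
      have h2 := hrep2 ⟨orb O x, Finset.mem_image_of_mem _ hx⟩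
      change orb O x = orb O _ at h2
      exact mem_orb.1 (h2 ▸ self_mem x)
    · rw [hat_fix σ.2 hx, hat_fix τ.2 hx]
  refine (Nat.card_le_card_of_injective f hf).trans (le_of_eq ?_)
  rw [Nat.card_pi]
  rw [← Finset.prod_coe_sort ((supp O).image (orb O)) (fun B => B.card)]
  refine Finset.prod_congr rfl (fun B _ => ?_)
  rw [Nat.card_eq_fintype_card, Fintype.card_coe]

theorem globB_hat {n : ℕ} {O L : Subgroup (Perm (Fin n))} (h : Pair O L) (χ : L →* ℤˣ) {I : Finset (Fin n)}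
    {Y : Fin n → Finset (Fin n)} (hI : Reps O L χ I Y) :
    (Nat.card (hat O)) ^ 4 ≤ 3 ^ (2 * n - (ZZ O L I Y).card) := by
  have h1 : (Nat.card (hat O)) ^ 4 ≤ (∏ B ∈ (supp O).image (orb O), B.card) ^ 4 :=
    Nat.pow_le_pow_left (card_hat_le h.1.1) 4
  refine h1.trans ?_
  rw [← Finset.prod_pow]
  have h2 : ∏ B ∈ (supp O).image (orb O), B.card ^ 4 ≤
      ∏ B ∈ (supp O).image (orb O), 3 ^ (2 * B.card - ((ZZ O L I Y).filter (fun z => orb O z = B)).card) := by
    refine Finset.prod_le_prod' (fun B hB => ?_)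
    obtain ⟨x, hx, rfl⟩ := Finset.mem_image.1 hB
    exact (block_supp h χ hI hx).2
  refine h2.trans ?_
  rw [Finset.prod_pow_eq_pow_sum]
  refine Nat.pow_le_pow_right (by norm_num) ?_
  have h3 : ∑ B ∈ (supp O).image (orb O), (2 * B.card - ((ZZ O L I Y).filter (fun z => orb O z = B)).card) +
      ∑ B ∈ (supp O).image (orb O), ((ZZ O L I Y).filter (fun z => orb O z = B)).card =
      2 * ∑ B ∈ (supp O).image (orb O), B.card := by
    rw [← Finset.sum_add_distrib, Finset.mul_sum]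
    refine Finset.sum_congr rfl (fun B hB => ?_)
    obtain ⟨x, hx, rfl⟩ := Finset.mem_image.1 hB
    refine Nat.sub_add_cancel ?_
    have h4 : ((ZZ O L I Y).filter (fun z => orb O z = orb O x)).card ≤ (orb O x).card := by
      refine Finset.card_le_card (fun z hz => ?_)
      exact orb_eq_iff.1 (Finset.mem_filter.1 hz).2
    omega
  rw [← sum_ZZ, ← sum_supp h.1.1] at h3
  have h5 : (supp O).card ≤ n := by
    have := Finset.card_le_univ (supp O)
    rwa [Fintype.card_fin] at this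
  omega

/-- The restriction of an element of `hat O` to an orbit. -/
private theorem exists_res {n : ℕ} {O : Subgroup (Perm (Fin n))} {v : Perm (Fin n)} (hv : v ∈ hat O) (x : Fin n) :
    ∃ u : Perm (Fin n), u ∈ hat O ∧ (∀ y, y ∈ MulAction.orbit O x → u y = v y) ∧
      ∀ y, y ∉ MulAction.orbit O x → u y = y := by
  classical
  have h1 : ∀ y, v y ∈ MulAction.orbit O x ↔ y ∈ MulAction.orbit O x := by
    intro y
    refine ⟨fun hy => ?_, hat_mem hv⟩
    have := hat_mem (inv_mem hv) hy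
    simpa using this
  refine ⟨Perm.ofSubtype (v.subtypePerm (p := fun y => y ∈ MulAction.orbit O x) h1), ?_, ?_, ?_⟩
  · intro z
    by_cases hz : z ∈ MulAction.orbit O x
    · obtain ⟨k, hk, h2⟩ := hv x
      refine ⟨k, hk, fun y hy => ?_⟩
      have hy' : y ∈ MulAction.orbit O x := by
        rw [← MulAction.orbit_eq_iff.2 hz]
        exact hy
      rw [← h2 y hy']
      exact (Perm.ofSubtype_apply_of_mem (p := fun y => y ∈ MulAction.orbit O x)
        (v.subtypePerm (p := fun y => y ∈ MulAction.orbit O x) h1) hy').trans rfl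
    · refine ⟨1, one_mem _, fun y hy => ?_⟩
      have hy' : y ∉ MulAction.orbit O x := by
        intro hy'
        apply hz
        rw [← MulAction.orbit_eq_iff.2 hy', MulAction.orbit_eq_iff.2 hy]
        exact MulAction.mem_orbit_self z
      exact Perm.ofSubtype_apply_of_not_mem _ hy'
  · intro y hy
    exact (Perm.ofSubtype_apply_of_mem (p := fun y => y ∈ MulAction.orbit O x)
      (v.subtypePerm (p := fun y => y ∈ MulAction.orbit O x) h1) hy).trans rfl
  · intro y hy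
    exact Perm.ofSubtype_apply_of_not_mem _ hy

private theorem units_cases (e : ℤˣ) : e = 1 ∨ e = -1 := Int.units_eq_one_or e

private theorem zpow_unit {Ω : Type} (v : Perm Ω) (e : ℤˣ) : v ^ ((e : ℤˣ) : ℤ) = v ∨ v ^ ((e : ℤˣ) : ℤ) = v⁻¹ := by
  rcases units_cases e with rfl | rfl
  · left
    simp
  · right
    simp

private theorem zpow_eq_on {n : ℕ} {O : Subgroup (Perm (Fin n))} {u v : Perm (Fin n)} (hu : u ∈ hat O)
    (_hv : v ∈ hat O) {x : Fin n} (h : ∀ y, y ∈ MulAction.orbit O x → u y = v y) (e : ℤˣ) :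
    ∀ y, y ∈ MulAction.orbit O x → (u ^ ((e : ℤˣ) : ℤ)) y = (v ^ ((e : ℤˣ) : ℤ)) y := by
  intro y hy
  rcases units_cases e with rfl | rfl
  · simpa using h y hy
  · have h1 : u⁻¹ y ∈ MulAction.orbit O x := hat_mem (inv_mem hu) hy
    have h2 := h _ h1
    have h3 : u (u⁻¹ y) = y := by simp
    rw [h3] at h2
    simp only [Units.val_neg, Units.val_one, zpow_neg, zpow_one]
    have h4 : v⁻¹ y = u⁻¹ y := by
      rw [Perm.inv_eq_iff_eq]
      exact h2
    exact h4.symm

private theorem zpow_fix {n : ℕ} {u : Perm (Fin n)} {y : Fin n} (h : u y = y) (e : ℤˣ) :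
    (u ^ ((e : ℤˣ) : ℤ)) y = y := by
  rcases units_cases e with rfl | rfl
  · simpa using h
  · simp only [Units.val_neg, Units.val_one, zpow_neg, zpow_one]
    rw [Perm.inv_eq_iff_eq]
    exact h.symm

theorem globB_eig {n : ℕ} {O L : Subgroup (Perm (Fin n))} (h : Pair O L) (χ : L →* ℤˣ) {I : Finset (Fin n)}
    {Y : Fin n → Finset (Fin n)} (hI : Reps O L χ I Y) :
    (Nat.card (eig (hat O) L χ)) ^ 2 ≤ 3 ^ (ZZ O L I Y).card := by
  classical
  have hres : ∀ (v : eig (hat O) L χ) (i : {i // i ∈ I}), ∃ u : eigB O L χ i.1,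
      ∀ y, y ∈ MulAction.orbit O i.1 → u.1 y = v.1 y := by
    rintro ⟨v, hv, hv'⟩ ⟨i, hi⟩
    obtain ⟨u, hu1, hu2, hu3⟩ := exists_res hv i
    refine ⟨⟨u, hu1, hu3, ?_⟩, hu2⟩
    intro l hl hli
    have hv2 := hv' ⟨l, hl⟩
    change l * v * l⁻¹ = _ at hv2
    have hpres : ∀ y, y ∈ MulAction.orbit O i ↔ l y ∈ MulAction.orbit O i := by
      intro y
      rw [h.orbit_image hl i y, MulAction.orbit_eq_iff.2 hli]
    ext y : 1
    by_cases hy : y ∈ MulAction.orbit O i
    · have hy2 : l⁻¹ y ∈ MulAction.orbit O i := by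
        rw [hpres]
        simpa using hy
      rw [zpow_eq_on hu1 hv hu2 (χ ⟨l, hl⟩) y hy, ← hv2]
      simp only [Perm.mul_apply]
      rw [hu2 _ hy2]
    · have hy2 : l⁻¹ y ∉ MulAction.orbit O i := by
        rw [hpres]
        simpa using hy
      rw [zpow_fix (hu3 y hy)]
      simp only [Perm.mul_apply]
      rw [hu3 _ hy2]
      simp
  choose f hf using hres
  have hinj : Function.Injective f := by
    intro v w hvw
    have hon : ∀ i ∈ I, ∀ y, y ∈ MulAction.orbit O i → v.1 y = w.1 y := by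
      intro i hi y hy
      rw [← hf v ⟨i, hi⟩ y hy, ← hf w ⟨i, hi⟩ y hy, hvw]
    apply Subtype.ext
    ext z : 1
    by_cases hz : z ∈ supp O
    · obtain ⟨i, hi, l, hl, hli⟩ := hI.2.1 z hz
      have hv2 := v.2.2 ⟨l, hl⟩
      have hw2 := w.2.2 ⟨l, hl⟩
      have h1 := zpow_eq_on v.2.1 w.2.1 (hon i hi) (χ ⟨l, hl⟩) (l z) hli
      rw [← hv2, ← hw2] at h1
      have e0 : l⁻¹ (l z) = z := l.symm_apply_apply z
      simp only [Perm.mul_apply] at h1
      rw [e0] at h1
      exact l.injective h1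
    · rw [hat_fix v.2.1 hz, hat_fix w.2.1 hz]
  have h1 := Nat.card_le_card_of_injective f hinj
  rw [Nat.card_pi] at h1
  have h2 := Nat.pow_le_pow_left h1 2
  refine h2.trans ?_
  rw [← Finset.prod_pow]
  have h3 : ∏ i : {i // i ∈ I}, Nat.card (eigB O L χ i.1) ^ 2 ≤
      ∏ i : {i // i ∈ I}, 3 ^ ((ZZ O L I Y).filter (fun z => orb O z = orb O i.1)).card := by
    refine Finset.prod_le_prod' (fun i _ => ?_)
    have hi := hI.1 i.1 i.2
    have h4 := (block_card h χ hI hi i.2 (one_mem L) (MulAction.mem_orbit_self i.1)).2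
    exact (block_rep h χ hI i.2 _ h4).2.2
  refine h3.trans ?_
  rw [Finset.prod_pow_eq_pow_sum]
  refine Nat.pow_le_pow_right (by norm_num) ?_
  rw [← Finset.card_biUnion]
  · refine Finset.card_le_card (fun z hz => ?_)
    obtain ⟨i, -, hz⟩ := Finset.mem_biUnion.1 hz
    exact (Finset.mem_filter.1 hz).1
  · intro i _ j _ hij
    rw [Function.onFun, Finset.disjoint_left]
    intro z hz hz'
    apply hij
    have e1 := (Finset.mem_filter.1 hz).2
    have e2 := (Finset.mem_filter.1 hz').2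
    rw [e1] at e2
    exact Subtype.ext (hI.2.2.1 i.1 i.2 j.1 j.2 1 (one_mem L) (mem_orb.1 (orb_eq_iff.1 e2)))

end Pool.Agent.SqA
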