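import Pool.Agent.SqA.ElLow
import Pool.Agent.AbS.Count

/-!
Few groups have few orbits of length 2 and 4. The orbits of `K` have length `2 ^ e`, `e ≤ (3 / 8) 2 ^ e` except for `2 ^ e = 2, 4`
(`1 = 3/4 + 1/4`, `2 = 3/2 + 1/2`). `|hat K|` is at most the product of the orbit lengths (`hat_eq_on_orbit`, as in
AbS/HatB.lean), so `log |hat K| ≤ (3 m / 8 + A + B) log 2`; then `count_le` with `t = 2`.
-/

set_option autoImplicit false

namespace Pool.Agent.SqA

open Equiv Pool.Agent.AbS

private theorem orbit_pow {m : ℕ} {K : Subgroup (Perm (Fin m))} (h : El K) (x : Fin m) :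
    ∃ e : ℕ, Nat.card (MulAction.orbit K x) = 2 ^ e := by
  obtain ⟨k, hk⟩ := h.abQ.2
  have h1 : Nat.card (MulAction.orbit K x) ∣ Nat.card K := by
    have h2 := Nat.card_congr (MulAction.orbitProdStabilizerEquivGroup K x)
    rw [Nat.card_prod] at h2
    exact ⟨_, h2.symm⟩
  rw [hk] at h1
  obtain ⟨e, -, he⟩ := (Nat.dvd_prime_pow Nat.prime_two).1 h1
  exact ⟨e, he⟩

private theorem pow_bound (e : ℕ) : (e : ℝ) ≤
    3 / 8 * ((2 ^ e : ℕ) : ℝ) + (if 2 ^ e = 2 then 1 else 0) + (if 2 ^ e = 4 then 1 else 0) := by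
  have h1 : ∀ k : ℕ, 8 * (k + 3) ≤ 3 * 2 ^ (k + 3) := by
    intro k
    induction k with
    | zero => norm_num
    | succ k ih => rw [show k + 1 + 3 = (k + 3) + 1 from rfl, pow_succ]; omega
  rcases e with _ | _ | _ | k
  · norm_num
  · norm_num
  · norm_num
  · have h2 := h1 k
    have h3 : (8 * ((k + 3 : ℕ) : ℝ)) ≤ 3 * ((2 ^ (k + 3) : ℕ) : ℝ) := by exact_mod_cast h2
    have h4 : (0 : ℝ) ≤ (if 2 ^ (k + 3) = 2 then 1 else 0) := by split_ifs <;> norm_num
    have h5 : (0 : ℝ) ≤ (if 2 ^ (k + 3) = 4 then 1 else 0) := by split_ifs <;> norm_num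
    have h6 : k + 1 + 1 + 1 = k + 3 := rfl
    rw [h6]
    linarith

private theorem count_orb {m : ℕ} (K : Subgroup (Perm (Fin m))) (s : ℕ)
    [Fintype (MulAction.orbitRel.Quotient K (Fin m))] [DecidableEq (MulAction.orbitRel.Quotient K (Fin m))] :
    (Finset.univ.filter fun ω : MulAction.orbitRel.Quotient K (Fin m) =>
      Nat.card (MulAction.orbitRel.Quotient.orbit ω) = s).card ≤
      Nat.card {S : Finset (Fin m) // S.card = s ∧ ∃ x, (S : Set (Fin m)) = MulAction.orbit K x} := by
  classical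
  rw [← Fintype.card_coe, ← Nat.card_eq_fintype_card]
  let f : {ω // ω ∈ Finset.univ.filter fun ω : MulAction.orbitRel.Quotient K (Fin m) =>
      Nat.card (MulAction.orbitRel.Quotient.orbit ω) = s} →
      {S : Finset (Fin m) // S.card = s ∧ ∃ x, (S : Set (Fin m)) = MulAction.orbit K x} :=
    fun ω => ⟨(MulAction.orbitRel.Quotient.orbit ω.1).toFinite.toFinset, by
      have h := (Finset.mem_filter.1 ω.2).2
      rw [← Set.ncard_eq_toFinset_card]
      exact h, Quotient.out ω.1, by
      rw [Set.Finite.coe_toFinset]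
      exact MulAction.orbitRel.Quotient.orbit_eq_orbit_out ω.1 Quotient.out_eq'⟩
  refine Nat.card_le_card_of_injective f ?_
  intro ω ω' h
  apply Subtype.ext
  have h1 : (MulAction.orbitRel.Quotient.orbit ω.1).toFinite.toFinset =
      (MulAction.orbitRel.Quotient.orbit ω'.1).toFinite.toFinset := congrArg Subtype.val h
  have h2 : MulAction.orbitRel.Quotient.orbit ω.1 = MulAction.orbitRel.Quotient.orbit ω'.1 := by
    have := congrArg (fun S : Finset (Fin m) => (S : Set (Fin m))) h1
    simpa using this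
  exact MulAction.orbitRel.Quotient.orbit_injective h2

private theorem hat_le_prod {m : ℕ} {K : Subgroup (Perm (Fin m))} (h : El K)
    [Fintype (MulAction.orbitRel.Quotient K (Fin m))] :
    Nat.card (hat K) ≤ ∏ ω : MulAction.orbitRel.Quotient K (Fin m),
      Nat.card (MulAction.orbitRel.Quotient.orbit ω) := by
  classical
  rw [← Nat.card_pi]
  have ho : ∀ ω : MulAction.orbitRel.Quotient K (Fin m),
      MulAction.orbitRel.Quotient.orbit ω = MulAction.orbit K (Quotient.out ω) :=
    fun ω => MulAction.orbitRel.Quotient.orbit_eq_orbit_out ω Quotient.out_eq'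
  have hmem : ∀ (σ : hat K) (ω : MulAction.orbitRel.Quotient K (Fin m)),
      (σ : Perm (Fin m)) (Quotient.out ω) ∈ MulAction.orbitRel.Quotient.orbit ω := by
    intro σ ω
    rw [ho]
    obtain ⟨k, hk, h1⟩ := σ.2 (Quotient.out ω)
    rw [h1 _ (MulAction.mem_orbit_self _)]
    exact ⟨⟨k, hk⟩, rfl⟩
  refine Nat.card_le_card_of_injective
    (fun σ : hat K => fun ω => (⟨(σ : Perm (Fin m)) (Quotient.out ω), hmem σ ω⟩ :
      MulAction.orbitRel.Quotient.orbit ω)) ?_
  intro σ τ hst
  apply Subtype.ext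
  ext x
  congr 1
  have h1 : (σ : Perm (Fin m)) (Quotient.out (Quotient.mk'' x : MulAction.orbitRel.Quotient K (Fin m))) =
      (τ : Perm (Fin m)) (Quotient.out (Quotient.mk'' x : MulAction.orbitRel.Quotient K (Fin m))) :=
    congrArg Subtype.val (congrFun hst (Quotient.mk'' x))
  refine hat_eq_on_orbit h.comm σ.2 τ.2 h1 x ?_
  rw [← ho, MulAction.orbitRel.Quotient.mem_orbit]

private theorem sum_orb {m : ℕ} (K : Subgroup (Perm (Fin m)))
    [Fintype (MulAction.orbitRel.Quotient K (Fin m))] :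
    ∑ ω : MulAction.orbitRel.Quotient K (Fin m), Nat.card (MulAction.orbitRel.Quotient.orbit ω) = m := by
  rw [← Nat.card_sigma, ← Nat.card_congr (MulAction.selfEquivSigmaOrbits' K (Fin m)),
    Nat.card_eq_fintype_card, Fintype.card_fin]

private theorem log_hat {m A B : ℕ} {K : Subgroup (Perm (Fin m))} (h : El K) (hA : a2 K ≤ A)
    (hB : a4 K ≤ B) : Real.log (Nat.card (hat K)) ≤ (3 / 8 * m + A + B) * Real.log 2 := by
  classical
  let _ : Fintype (MulAction.orbitRel.Quotient K (Fin m)) := Fintype.ofFinite _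
  have hpos : 0 < Nat.card (hat K) := Nat.card_pos
  have h1 : Real.log (Nat.card (hat K)) ≤ ∑ ω : MulAction.orbitRel.Quotient K (Fin m),
      Real.log (Nat.card (MulAction.orbitRel.Quotient.orbit ω)) := by
    rw [← Real.log_prod]
    · refine Real.log_le_log (by exact_mod_cast hpos) ?_
      exact_mod_cast hat_le_prod h
    · intro ω _
      have h0 : Nat.card (MulAction.orbitRel.Quotient.orbit ω) ≠ 0 := by
        have hne : Nonempty (MulAction.orbitRel.Quotient.orbit ω) :=
          ⟨⟨Quotient.out ω, by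
            rw [MulAction.orbitRel.Quotient.mem_orbit]
            exact Quotient.out_eq' ω⟩⟩
        exact Nat.card_pos.ne'
      exact_mod_cast h0
  have h2 : ∀ ω : MulAction.orbitRel.Quotient K (Fin m),
      Real.log (Nat.card (MulAction.orbitRel.Quotient.orbit ω)) ≤
      (3 / 8 * (Nat.card (MulAction.orbitRel.Quotient.orbit ω) : ℝ) +
        (if Nat.card (MulAction.orbitRel.Quotient.orbit ω) = 2 then 1 else 0) +
        (if Nat.card (MulAction.orbitRel.Quotient.orbit ω) = 4 then 1 else 0)) * Real.log 2 := by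
    intro ω
    have ho : MulAction.orbitRel.Quotient.orbit ω = MulAction.orbit K (Quotient.out ω) :=
      MulAction.orbitRel.Quotient.orbit_eq_orbit_out ω Quotient.out_eq'
    obtain ⟨e, he⟩ := orbit_pow h (Quotient.out ω)
    rw [← ho] at he
    rw [he]
    have h3 := pow_bound e
    have h4 : Real.log ((2 ^ e : ℕ) : ℝ) = e * Real.log 2 := by
      push_cast
      rw [Real.log_pow]
    rw [h4]
    exact mul_le_mul_of_nonneg_right h3 (Real.log_nonneg (by norm_num))
  refine h1.trans ((Finset.sum_le_sum fun ω _ => h2 ω).trans ?_)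
  rw [← Finset.sum_mul]
  refine mul_le_mul_of_nonneg_right ?_ (Real.log_nonneg (by norm_num))
  rw [Finset.sum_add_distrib, Finset.sum_add_distrib, ← Finset.mul_sum, ← Nat.cast_sum, sum_orb,
    ← Finset.sum_filter, ← Finset.sum_filter, Finset.sum_const, Finset.sum_const, nsmul_eq_mul,
    nsmul_eq_mul, mul_one, mul_one]
  have h5 := (count_orb K 2).trans hA
  have h6 := (count_orb K 4).trans hB
  have h7 : (((Finset.univ.filter fun ω : MulAction.orbitRel.Quotient K (Fin m) =>
      Nat.card (MulAction.orbitRel.Quotient.orbit ω) = 2).card : ℕ) : ℝ) ≤ A := by exact_mod_cast h5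
  have h8 : (((Finset.univ.filter fun ω : MulAction.orbitRel.Quotient K (Fin m) =>
      Nat.card (MulAction.orbitRel.Quotient.orbit ω) = 4).card : ℕ) : ℝ) ≤ B := by exact_mod_cast h6
  linarith

theorem rank_small (m A B : ℕ) :
    (Nat.card {K : Subgroup (Perm (Fin m)) // El K ∧ a2 K ≤ A ∧ a4 K ≤ B} : ℝ) ≤
      (m.factorial : ℝ) ^ (Nat.log 2 m + 1) *
        Real.exp (2 * ((3 / 8 * m + A + B) * Real.log 2) + Real.log 2 * ((3 / 8 * m + A + B) + 1) ^ 2 / 4) := by
  have h := count_le 2 m le_rfl (3 / 8 * m + A + B) (by positivity)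
    (fun K => El K ∧ a2 K ≤ A ∧ a4 K ≤ B) (fun K hK => ⟨AbQ.abGe Nat.prime_two hK.1.abQ, by
      have := log_hat hK.1 hK.2.1 hK.2.2
      exact_mod_cast this⟩)
  exact_mod_cast h

end Pool.Agent.SqA
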