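import Pool.Agent.SqA.Exch
import Pool.Agent.SqA.Rank
import Pool.Agent.SqA.ElGrow

/-!
Almost all elementary abelian 2-groups have many orbits of length 2: for every `B ≥ 1` the groups with `a2 K < A` are
`≤ ∑_(j < A) (groups with a2 K = j, a4 K ≥ B) + (groups with a2 K ≤ A, a4 K ≤ B)`, so
`≤ A (A + 2)² / B nEl m + (rank_small)`, and `rank_small` is `o (nEl m)` by `lowerE`, `log_fact`: `(3/8)² / 4 = 9 / 256 < 1 / 16`.
-/

set_option autoImplicit false

namespace Pool.Agent.SqA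

open Equiv Filter Topology Pool.Agent.AbS

private theorem lim_cover (m A B : ℕ) :
    Nat.card {K : Subgroup (Perm (Fin m)) // El K ∧ a2 K < A} ≤
      (∑ j ∈ Finset.range A, Nat.card {K : Subgroup (Perm (Fin m)) // El K ∧ a2 K = j ∧ B ≤ a4 K}) +
        Nat.card {K : Subgroup (Perm (Fin m)) // El K ∧ a2 K ≤ A ∧ a4 K ≤ B} := by
  classical
  have : Fintype (Subgroup (Perm (Fin m))) := Fintype.ofFinite _
  obtain ⟨F, hF⟩ : ∃ F : (Subgroup (Perm (Fin m)) → Prop) → Finset (Subgroup (Perm (Fin m))),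
      ∀ P K, K ∈ F P ↔ P K := ⟨fun P => Finset.univ.filter P, fun P K => by simp⟩
  have hc : ∀ P : Subgroup (Perm (Fin m)) → Prop,
      Nat.card {K : Subgroup (Perm (Fin m)) // P K} = (F P).card := by
    intro P
    rw [← Fintype.card_coe, ← Nat.card_eq_fintype_card]
    exact Nat.card_congr (Equiv.subtypeEquivRight fun K => (hF P K).symm)
  simp only [hc]
  have h1 : (F fun K : Subgroup (Perm (Fin m)) => El K ∧ a2 K < A) ⊆
      ((Finset.range A).biUnion fun j => F fun K : Subgroup (Perm (Fin m)) => El K ∧ a2 K = j ∧ B ≤ a4 K) ∪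
      (F fun K : Subgroup (Perm (Fin m)) => El K ∧ a2 K ≤ A ∧ a4 K ≤ B) := by
    intro K hK
    obtain ⟨h2, h3⟩ := (hF _ K).1 hK
    rcases le_total B (a4 K) with h4 | h4
    · refine Finset.mem_union_left _ (Finset.mem_biUnion.2 ⟨a2 K, Finset.mem_range.2 h3, ?_⟩)
      exact (hF _ K).2 ⟨h2, rfl, h4⟩
    · exact Finset.mem_union_right _ ((hF _ K).2 ⟨h2, h3.le, h4⟩)
  refine (Finset.card_le_card h1).trans ((Finset.card_union_le _ _).trans ?_)
  exact Nat.add_le_add_right Finset.card_biUnion_le _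

private theorem lim_exch (m A B : ℕ) (hB : 1 ≤ B) :
    ((∑ j ∈ Finset.range A, Nat.card {K : Subgroup (Perm (Fin m)) // El K ∧ a2 K = j ∧ B ≤ a4 K} : ℕ) : ℝ) ≤
      A * (A + 2) ^ 2 / B * nEl m := by
  have hB0 : (0 : ℝ) < B := by exact_mod_cast hB
  have h1 : ∀ j ∈ Finset.range A,
      (Nat.card {K : Subgroup (Perm (Fin m)) // El K ∧ a2 K = j ∧ B ≤ a4 K} : ℝ) ≤ (A + 2) ^ 2 / B * nEl m := by
    intro j hj
    have h2 := exch m j B
    have h3 : (j + 2).choose 2 ≤ (A + 2) ^ 2 := by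
      refine (Nat.choose_le_pow _ _).trans ?_
      exact Nat.pow_le_pow_left (by have := Finset.mem_range.1 hj; omega) 2
    have h4 : B * Nat.card {K : Subgroup (Perm (Fin m)) // El K ∧ a2 K = j ∧ B ≤ a4 K} ≤ (A + 2) ^ 2 * nEl m :=
      h2.trans (Nat.mul_le_mul_right _ h3)
    have h5 : (B : ℝ) * Nat.card {K : Subgroup (Perm (Fin m)) // El K ∧ a2 K = j ∧ B ≤ a4 K} ≤
        ((A : ℝ) + 2) ^ 2 * nEl m := by exact_mod_cast h4
    rw [div_mul_eq_mul_div, le_div_iff₀ hB0]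
    linarith
  push_cast
  refine (Finset.sum_le_sum h1).trans (le_of_eq ?_)
  rw [Finset.sum_const, Finset.card_range, nsmul_eq_mul]
  ring

private theorem lim_rank (A B : ℕ) :
    Tendsto (fun m : ℕ => (Nat.card {K : Subgroup (Perm (Fin m)) // El K ∧ a2 K ≤ A ∧ a4 K ≤ B} : ℝ) / (nEl m : ℝ))
      atTop (𝓝 0) := by
  obtain ⟨C, hC, hlow⟩ := lowerE
  set D : ℝ := (A : ℝ) + B with hD
  have hD0 : 0 ≤ D := by positivity
  have hL1 : (0.69 : ℝ) < Real.log 2 := by have := Real.log_two_gt_d9; linarith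
  have hL2 : Real.log 2 < (0.7 : ℝ) := by have := Real.log_two_lt_d9; linarith
  set K1 : ℝ := 7 + (1 + 2 * D + (D + 1) + (D + 1) ^ 2) + C with hK1
  have hK0 : 0 ≤ K1 := by positivity
  have hev : ∀ᶠ m : ℕ in atTop, (Real.log m) ^ 2 ≤ 1 / 1000 * m := by
    have h1 := (Real.isLittleO_pow_log_id_atTop (n := 2)).def (show (0 : ℝ) < 1 / 1000 by norm_num)
    have h2 := (tendsto_natCast_atTop_atTop (R := ℝ)).eventually h1
    filter_upwards [h2] with m hm
    simp only [id, Real.norm_eq_abs] at hm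
    rw [abs_of_nonneg (by positivity), abs_of_nonneg (by positivity)] at hm
    exact hm
  have hmain : ∀ᶠ m : ℕ in atTop,
      (Nat.card {K : Subgroup (Perm (Fin m)) // El K ∧ a2 K ≤ A ∧ a4 K ≤ B} : ℝ) / (nEl m : ℝ) ≤
        Real.exp (-(m : ℝ)) := by
    filter_upwards [hev, eventually_ge_atTop 1, eventually_ge_atTop (Nat.ceil (200 * K1))] with m h1 h2 h3
    have hm1 : (1 : ℝ) ≤ m := by exact_mod_cast h2
    have hm2 : 200 * K1 ≤ m := Nat.ceil_le.1 h3
    have h4 := rank_small m A B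
    have h5 := hlow m
    have h6 : (0 : ℝ) < nEl m := lt_of_lt_of_le (Real.exp_pos _) h5
    rw [div_le_iff₀ h6]
    refine h4.trans ?_
    have h7 := log_fact m h2
    refine (mul_le_mul_of_nonneg_right h7 (Real.exp_pos _).le).trans ?_
    refine le_trans ?_ (mul_le_mul_of_nonneg_left h5 (Real.exp_pos _).le)
    rw [← Real.exp_add, ← Real.exp_add]
    apply Real.exp_le_exp.2
    have h10 : (1 + Real.log m) ^ 2 ≤ 2 + 2 * (1 / 1000 * m) := by
      nlinarith [sq_nonneg (1 - Real.log m)]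
    have h11 : 3 * m * (1 + Real.log m) ^ 2 ≤ 3 * m * (2 + 2 * (1 / 1000 * (m : ℝ))) :=
      mul_le_mul_of_nonneg_left h10 (by positivity)
    have e1 : (3 / 8 * (m : ℝ) + A + B) = 3 / 8 * m + D := by rw [hD]; ring
    rw [e1]
    have h12 : 2 * ((3 / 8 * (m : ℝ) + D) * Real.log 2) ≤ m + 2 * D := by
      nlinarith [mul_nonneg (show (0 : ℝ) ≤ 3 / 8 * m + D by positivity) (show 0 ≤ 0.7 - Real.log 2 by linarith)]
    have h13 : Real.log 2 * ((3 / 8 * (m : ℝ) + D) + 1) ^ 2 / 4 =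
        Real.log 2 * (9 / 256) * m ^ 2 + Real.log 2 * (3 / 16 * m * (D + 1) + (D + 1) ^ 2 / 4) := by ring
    have h14 : Real.log 2 * (3 / 16 * m * (D + 1) + (D + 1) ^ 2 / 4) ≤ m * (D + 1) + (D + 1) ^ 2 * m := by
      have h15 : 0 ≤ 3 / 16 * (m : ℝ) * (D + 1) + (D + 1) ^ 2 / 4 := by positivity
      have h16 : Real.log 2 * (3 / 16 * m * (D + 1) + (D + 1) ^ 2 / 4) ≤
          1 * (3 / 16 * m * (D + 1) + (D + 1) ^ 2 / 4) :=
        mul_le_mul_of_nonneg_right (by linarith) h15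
      have h17 : 0 ≤ (m : ℝ) * (D + 1) := by positivity
      have h18 : (D + 1) ^ 2 * 1 ≤ (D + 1) ^ 2 * (m : ℝ) := mul_le_mul_of_nonneg_left hm1 (by positivity)
      nlinarith [sq_nonneg (D + 1)]
    have h15 : Real.log 2 / 16 * (m : ℝ) ^ 2 = Real.log 2 * (9 / 256) * m ^ 2 + 7 / 256 * Real.log 2 * m ^ 2 := by
      ring
    have h16 : 7 / 256 * 0.69 * (m : ℝ) ^ 2 ≤ 7 / 256 * Real.log 2 * m ^ 2 := by
      refine mul_le_mul_of_nonneg_right (by linarith) (by positivity)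
    have h17 : 200 * K1 * m ≤ (m : ℝ) ^ 2 := by nlinarith
    have h18 : K1 * m = 7 * m + (m + 2 * D * m + m * (D + 1) + (D + 1) ^ 2 * m) + C * m := by
      rw [hK1]
      ring
    have h19 : 2 * D ≤ 2 * D * m := by nlinarith
    have h20 : C * (m + 1) ≤ 2 * (C * m) := by nlinarith
    rw [h13, h15]
    have h21 : 0 ≤ C * m := by positivity
    have h22 : 0 ≤ (D + 1) ^ 2 * (m : ℝ) := by positivity
    have h23 : 0 ≤ (m : ℝ) * (D + 1) := by positivity
    have h24 : 0 ≤ D * (m : ℝ) := by positivity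
    linarith
  have h0 : Tendsto (fun m : ℕ => Real.exp (-(m : ℝ))) atTop (𝓝 0) :=
    Real.tendsto_exp_neg_atTop_nhds_zero.comp tendsto_natCast_atTop_atTop
  refine squeeze_zero' (Eventually.of_forall fun m => by positivity) hmain h0

theorem a2_large (A : ℕ) :
    Tendsto (fun m : ℕ => (Nat.card {K : Subgroup (Perm (Fin m)) // El K ∧ a2 K < A} : ℝ) / (nEl m : ℝ))
      atTop (𝓝 0) := by
  rw [Metric.tendsto_atTop]
  intro ε hε
  obtain ⟨B, hB⟩ := exists_nat_gt (2 * ((A : ℝ) * (A + 2) ^ 2) / ε)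
  have hB0 : (0 : ℝ) < B := lt_of_le_of_lt (by positivity) hB
  have hB1 : 1 ≤ B := by exact_mod_cast hB0
  have h1 : (A : ℝ) * (A + 2) ^ 2 / B < ε / 2 := by
    rw [div_lt_iff₀ hε] at hB
    rw [div_lt_iff₀ hB0]
    linarith
  obtain ⟨N, hN⟩ := Metric.tendsto_atTop.1 (lim_rank A B) (ε / 2) (by positivity)
  refine ⟨N, fun m hm => ?_⟩
  have h2 := hN m hm
  rw [Real.dist_eq, sub_zero, abs_of_nonneg (by positivity)] at h2 ⊢
  have h6 : (0 : ℝ) < nEl m := by exact_mod_cast one_le_nEl m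
  have h3 : (Nat.card {K : Subgroup (Perm (Fin m)) // El K ∧ a2 K < A} : ℝ) ≤
      ((∑ j ∈ Finset.range A, Nat.card {K : Subgroup (Perm (Fin m)) // El K ∧ a2 K = j ∧ B ≤ a4 K} : ℕ) : ℝ) +
        (Nat.card {K : Subgroup (Perm (Fin m)) // El K ∧ a2 K ≤ A ∧ a4 K ≤ B} : ℝ) := by
    exact_mod_cast lim_cover m A B
  have h4 := lim_exch m A B hB1
  rw [div_lt_iff₀ h6] at h2 ⊢
  have h5 : (A : ℝ) * (A + 2) ^ 2 / B * nEl m < ε / 2 * nEl m := mul_lt_mul_of_pos_right h1 h6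
  linarith

end Pool.Agent.SqA
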