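import Pool.Agent.SqA.ElLow

/-!
Groups with one orbit of length 3. For a point `p` of `Fin (m + 1)`, an elementary abelian 2-group `K` on the other points (from
`Fin m` by `Perm.viaEmbeddingHom (Fin.succAboveEmb p)`) and an orbit `{i, j}` of `K` let `H` be generated by `K` and the 3-cycle
`c = (i j p)`: `K` normalises `⟨c⟩` (`k c k⁻¹ = c` or `c⁻¹`, because `k` fixes `p` and fixes or swaps `i`, `j`), so
`H = ⟨c⟩ K`, `|H| = 3 |K|`, `(c^a k)^2 ∈ ⟨c⟩`, so `Fam H`, `|H| = 3 · 2 ^ k`. From `H` and `p`: `K = {h ∈ H : h p = p}`, and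
`{i, j, p}` is the orbit of `p` under `H`. So `(p, K, {i, j}) ↦ (H, p)` is injective, and `p` lies in the set of the points moved by
the elements of order 3 of `H`, a set with exactly 3 points which depends only on `H`: at most 3 pairs `(H, p)` for each `H`.
-/

set_option autoImplicit false

namespace Pool.Agent.SqA

open Equiv Pool.Agent.AbS

/-- The group generated by `K` and the 3-cycle on `p`, `i`, `j`. -/
private theorem odd_group {Ω : Type} [Finite Ω] [DecidableEq Ω] (K : Subgroup (Perm Ω)) (hK : El K) (p i j : Ω)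
    (hpi : p ≠ i) (hpj : p ≠ j) (hij : i ≠ j) (hp : ∀ k ∈ K, k p = p)
    (hk : ∀ k ∈ K, (k i = i ∧ k j = j) ∨ (k i = j ∧ k j = i)) :
    ∃ H : Subgroup (Perm Ω), Fam H ∧ (∃ k : ℕ, Nat.card H = 3 * 2 ^ k) ∧ (∀ h, (h ∈ H ∧ h p = p) ↔ h ∈ K) ∧
      ∀ x, (∃ h ∈ H, h ^ 3 = 1 ∧ h x ≠ x) ↔ (x = p ∨ x = i ∨ x = j) := by
  obtain ⟨c, hc⟩ : ∃ c : Perm Ω, c = swap p i * swap p j := ⟨_, rfl⟩
  have hord : orderOf c = 3 := by
    have := Fintype.ofFinite Ω
    rw [hc]
    exact (Perm.isThreeCycle_swap_mul_swap_same hpi hpj hij).orderOf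
  have hcp : c p = j := by
    rw [hc, Perm.mul_apply, swap_apply_left, swap_apply_of_ne_of_ne hpj.symm hij.symm]
  have hcj : c j = i := by
    rw [hc, Perm.mul_apply, swap_apply_right, swap_apply_left]
  have hci : c i = p := by
    rw [hc, Perm.mul_apply, swap_apply_of_ne_of_ne hpi.symm hij, swap_apply_right]
  have hcx : ∀ x, x ≠ p → x ≠ i → x ≠ j → c x = x := by
    intro x h1 h2 h3
    rw [hc, Perm.mul_apply, swap_apply_of_ne_of_ne h1 h3, swap_apply_of_ne_of_ne h1 h2]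
  have hc3 : c ^ 3 = 1 := by
    rw [← hord]
    exact pow_orderOf_eq_one c
  have hcinv : c⁻¹ = swap p j * swap p i := by
    rw [hc, mul_inv_rev, swap_inv, swap_inv]
  have hmem : ∀ z ∈ Subgroup.zpowers c, z = 1 ∨ z = c ∨ z = c⁻¹ := by
    intro z hz
    obtain ⟨n, hn⟩ := Subgroup.mem_zpowers_iff.1 hz
    rw [← zpow_mod_orderOf, hord] at hn
    have h1 : n % ((3 : ℕ) : ℤ) = 0 ∨ n % ((3 : ℕ) : ℤ) = 1 ∨ n % ((3 : ℕ) : ℤ) = 2 := by omega
    rcases h1 with h1 | h1 | h1
    · rw [h1, zpow_zero] at hn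
      exact Or.inl hn.symm
    · rw [h1, zpow_one] at hn
      exact Or.inr (Or.inl hn.symm)
    · rw [h1] at hn
      refine Or.inr (Or.inr ?_)
      rw [← hn, eq_inv_iff_mul_eq_one, ← hc3]
      group
  have hcube : ∀ z ∈ Subgroup.zpowers c, z ^ 3 = 1 := by
    intro z hz
    rcases hmem z hz with h1 | h1 | h1
    · rw [h1, one_pow]
    · rw [h1, hc3]
    · rw [h1, inv_pow, hc3, inv_one]
  have hzp : ∀ z ∈ Subgroup.zpowers c, z p = p → z = 1 := by
    intro z hz h0
    rcases hmem z hz with h1 | h1 | h1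
    · exact h1
    · rw [h1, hcp] at h0
      exact absurd h0.symm hpj
    · rw [h1, Perm.inv_eq_iff_eq, hcp] at h0
      exact absurd h0 hpj
  have hn : ∀ k ∈ K, ∀ z ∈ Subgroup.zpowers c, k * z * k⁻¹ ∈ Subgroup.zpowers c := by
    intro k hkK z hz
    have hA : k * swap p i = swap p (k i) * k := by rw [mul_swap_eq_swap_mul, hp k hkK]
    have hB : k * swap p j = swap p (k j) * k := by rw [mul_swap_eq_swap_mul, hp k hkK]
    have h1 : k * c * k⁻¹ = swap p (k i) * swap p (k j) := by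
      calc k * c * k⁻¹ = (k * swap p i) * swap p j * k⁻¹ := by rw [hc, mul_assoc k (swap p i)]
        _ = swap p (k i) * (k * swap p j) * k⁻¹ := by rw [hA, mul_assoc (swap p (k i))]
        _ = swap p (k i) * swap p (k j) := by rw [hB, ← mul_assoc, mul_inv_cancel_right]
    have h2 : k * c * k⁻¹ ∈ Subgroup.zpowers c := by
      rcases hk k hkK with h3 | h3
      · rw [h1, h3.1, h3.2, ← hc]
        exact Subgroup.mem_zpowers c
      · rw [h1, h3.1, h3.2, ← hcinv]
        exact Subgroup.inv_mem _ (Subgroup.mem_zpowers c)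
    obtain ⟨n, hn⟩ := Subgroup.mem_zpowers_iff.1 hz
    rw [← hn, ← conj_zpow]
    exact Subgroup.zpow_mem _ h2 n
  let H : Subgroup (Perm Ω) :=
    { carrier := {h | ∃ k ∈ K, ∃ z ∈ Subgroup.zpowers c, h = k * z}
      mul_mem' := by
        rintro _ _ ⟨k, hk1, z, hz, rfl⟩ ⟨k', hk', z', hz', rfl⟩
        refine ⟨k * k', K.mul_mem hk1 hk', (k'⁻¹ * z * k'⁻¹⁻¹) * z',
          Subgroup.mul_mem _ (hn _ (K.inv_mem hk') z hz) hz', by group⟩
      one_mem' := ⟨1, K.one_mem, 1, Subgroup.one_mem _, by group⟩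
      inv_mem' := by
        rintro _ ⟨k, hk1, z, hz, rfl⟩
        exact ⟨k⁻¹, K.inv_mem hk1, k * z⁻¹ * k⁻¹, hn _ hk1 _ (Subgroup.inv_mem _ hz), by group⟩ }
  have hH : ∀ h, h ∈ H ↔ ∃ k ∈ K, ∃ z ∈ Subgroup.zpowers c, h = k * z := fun h => Iff.rfl
  have hCH : Subgroup.zpowers c ≤ H := fun z hz => (hH z).2 ⟨1, K.one_mem, z, hz, by group⟩
  have hKH : K ≤ H := fun k hk1 => (hH k).2 ⟨k, hk1, 1, Subgroup.one_mem _, by group⟩
  have hsq : ∀ h ∈ H, h * h ∈ Subgroup.zpowers c := by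
    intro h hh
    obtain ⟨k, hk1, z, hz, rfl⟩ := (hH h).1 hh
    have h1 : k * z * (k * z) = (k * z * k⁻¹) * (k * k) * z := by group
    rw [h1, hK k hk1, mul_one]
    exact Subgroup.mul_mem _ (hn k hk1 z hz) hz
  have hcardC : Nat.card (Subgroup.zpowers c) = 3 := by rw [Nat.card_zpowers, hord]
  have hcard : Nat.card H = 3 * Nat.card K := by
    have h1 : Function.Bijective (fun x : K × Subgroup.zpowers c =>
        (⟨x.1.1 * x.2.1, (hH _).2 ⟨x.1.1, x.1.2, x.2.1, x.2.2, rfl⟩⟩ : H)) := by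
      constructor
      · rintro ⟨⟨k, hk1⟩, ⟨z, hz⟩⟩ ⟨⟨k', hk'⟩, ⟨z', hz'⟩⟩ h
        have h2 : k * z = k' * z' := congrArg Subtype.val h
        have h3 : k'⁻¹ * k = z' * z⁻¹ := by
          rw [eq_mul_inv_iff_mul_eq, mul_assoc, h2]
          group
        have h4 : z' * z⁻¹ = 1 := by
          refine hzp _ (Subgroup.mul_mem _ hz' (Subgroup.inv_mem _ hz)) ?_
          rw [← h3]
          exact hp _ (K.mul_mem (K.inv_mem hk') hk1)
        have h5 : z' = z := mul_inv_eq_one.1 h4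
        subst h5
        have h6 : k = k' := mul_right_cancel h2
        subst h6
        rfl
      · rintro ⟨h, hh⟩
        obtain ⟨k, hk1, z, hz, rfl⟩ := (hH h).1 hh
        exact ⟨⟨⟨k, hk1⟩, ⟨z, hz⟩⟩, rfl⟩
    rw [← Nat.card_eq_of_bijective _ h1, Nat.card_prod, hcardC, mul_comm]
  refine ⟨H, ⟨Subgroup.zpowers c, hCH, ?_, ?_, hsq⟩, ?_, ?_, ?_⟩
  · intro a ha b hb
    obtain ⟨n, rfl⟩ := Subgroup.mem_zpowers_iff.1 ha
    obtain ⟨n', rfl⟩ := Subgroup.mem_zpowers_iff.1 hb
    rw [← zpow_add, ← zpow_add, add_comm]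
  · rw [hcardC]
    decide
  · obtain ⟨-, k, hk1⟩ := hK.abQ
    exact ⟨k, by rw [hcard, hk1]⟩
  · intro h
    constructor
    · rintro ⟨hh, h0⟩
      obtain ⟨k, hk1, z, hz, rfl⟩ := (hH h).1 hh
      have h1 : z = 1 := by
        refine hzp z hz ?_
        have h2 : k (z p) = k p := by
          rw [hp k hk1]
          exact h0
        exact k.injective h2
      rw [h1, mul_one]
      exact hk1
    · intro hh
      exact ⟨hKH hh, hp h hh⟩
  · intro x
    constructor
    · rintro ⟨h, hh, h3, hx⟩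
      have h4 : h ∈ Subgroup.zpowers c := by
        have h5 := Subgroup.inv_mem _ (hsq h hh)
        have h6 : (h * h)⁻¹ = h := by
          rw [inv_eq_iff_mul_eq_one, ← h3, pow_succ, pow_two]
        rwa [h6] at h5
      by_contra hcon
      push Not at hcon
      apply hx
      rcases hmem h h4 with h5 | h5 | h5
      · rw [h5]
        rfl
      · rw [h5]
        exact hcx x hcon.1 hcon.2.1 hcon.2.2
      · rw [h5, Perm.inv_eq_iff_eq]
        exact (hcx x hcon.1 hcon.2.1 hcon.2.2).symm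
    · intro h
      refine ⟨c, hCH (Subgroup.mem_zpowers c), hc3, ?_⟩
      rcases h with h | h | h
      · rw [h, hcp]
        exact hpj.symm
      · rw [h, hci]
        exact hpi
      · rw [h, hcj]
        exact hij

private theorem odd_triple {m : ℕ} (p : Fin (m + 1)) (K : Subgroup (Perm (Fin m))) (hK : El K) (S : Finset (Fin m))
    (hS : S.card = 2) (hS2 : ∃ x, (S : Set (Fin m)) = MulAction.orbit K x) :
    ∃ H : Subgroup (Perm (Fin (m + 1))), (Fam H ∧ ∃ k : ℕ, Nat.card H = 3 * 2 ^ k) ∧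
      (∀ h, (h ∈ H ∧ h p = p) ↔ h ∈ K.map (Perm.viaEmbeddingHom (Fin.succAboveEmb p))) ∧
      ∀ x, (∃ h ∈ H, h ^ 3 = 1 ∧ h x ≠ x) ↔ (x = p ∨ x ∈ S.map (Fin.succAboveEmb p)) := by
  obtain ⟨i, j, hij, rfl⟩ := Finset.card_eq_two.1 hS
  obtain ⟨x, hx⟩ := hS2
  have hinv : ∀ k ∈ K, ∀ y ∈ ({i, j} : Finset (Fin m)), k y ∈ ({i, j} : Finset (Fin m)) := by
    intro k hk y hy
    rw [← Finset.mem_coe, hx] at hy ⊢
    exact MulAction.mem_orbit_of_mem_orbit (⟨k, hk⟩ : K) hy
  have hcase : ∀ k ∈ K, (k i = i ∧ k j = j) ∨ (k i = j ∧ k j = i) := by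
    intro k hk
    have h1 := hinv k hk i (by simp)
    have h2 := hinv k hk j (by simp)
    rw [Finset.mem_insert, Finset.mem_singleton] at h1 h2
    rcases h1 with h1 | h1
    · rcases h2 with h2 | h2
      · exact absurd (k.injective (h1.trans h2.symm)) hij
      · exact Or.inl ⟨h1, h2⟩
    · rcases h2 with h2 | h2
      · exact Or.inr ⟨h1, h2⟩
      · exact absurd (k.injective (h1.trans h2.symm)) hij
  have hE : El (K.map (Perm.viaEmbeddingHom (Fin.succAboveEmb p))) := by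
    rintro _ ⟨a, ha, rfl⟩
    rw [← map_mul, hK a ha, map_one]
  have hval : ∀ (k : Perm (Fin m)) (y : Fin m),
      Perm.viaEmbeddingHom (Fin.succAboveEmb p) k (Fin.succAboveEmb p y) = Fin.succAboveEmb p (k y) := by
    intro k y
    rw [Perm.viaEmbeddingHom_apply, Perm.viaEmbedding_apply]
  have hvalp : ∀ (k : Perm (Fin m)), Perm.viaEmbeddingHom (Fin.succAboveEmb p) k p = p := by
    intro k
    rw [Perm.viaEmbeddingHom_apply]
    refine Perm.viaEmbedding_apply_of_notMem k _ _ ?_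
    rintro ⟨y, hy⟩
    exact Fin.succAbove_ne p y hy
  obtain ⟨H, h1, h2, h3, h4⟩ := odd_group (K.map (Perm.viaEmbeddingHom (Fin.succAboveEmb p))) hE p
    (Fin.succAboveEmb p i) (Fin.succAboveEmb p j) (Fin.succAbove_ne p i).symm (Fin.succAbove_ne p j).symm
    (fun h => hij ((Fin.succAboveEmb p).injective h)) (by
      rintro _ ⟨k, hk, rfl⟩
      exact hvalp k) (by
      rintro _ ⟨k, hk, rfl⟩
      rw [hval, hval]
      rcases hcase k hk with h | h
      · left
        rw [h.1, h.2]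
        exact ⟨rfl, rfl⟩
      · right
        rw [h.1, h.2]
        exact ⟨rfl, rfl⟩)
  refine ⟨H, ⟨h1, h2⟩, h3, fun x => ?_⟩
  rw [h4]
  simp only [Finset.mem_map, Finset.mem_insert, Finset.mem_singleton]
  constructor
  · rintro (h | h | h)
    · exact Or.inl h
    · exact Or.inr ⟨i, Or.inl rfl, h.symm⟩
    · exact Or.inr ⟨j, Or.inr rfl, h.symm⟩
  · rintro (h | ⟨y, rfl | rfl, h⟩)
    · exact Or.inl h
    · exact Or.inr (Or.inl h.symm)
    · exact Or.inr (Or.inr h.symm)

theorem odd_main (m A : ℕ) :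
    A * ((m + 1) * Nat.card {K : Subgroup (Perm (Fin m)) // El K ∧ A ≤ a2 K}) ≤
      3 * Nat.card {H : Subgroup (Perm (Fin (m + 1))) // Fam H ∧ ∃ k : ℕ, Nat.card H = 3 * 2 ^ k} := by
  classical
  let P := {K : Subgroup (Perm (Fin m)) // El K ∧ A ≤ a2 K}
  let X := Σ t : Fin (m + 1) × P, {S : Finset (Fin m) // S.card = 2 ∧ ∃ x, (S : Set (Fin m)) = MulAction.orbit t.2.1 x}
  let Y := {H : Subgroup (Perm (Fin (m + 1))) // Fam H ∧ ∃ k : ℕ, Nat.card H = 3 * 2 ^ k}
  have : Fintype P := Fintype.ofFinite P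
  have : Fintype Y := Fintype.ofFinite Y
  have : Finite X := inferInstance
  have : Fintype X := Fintype.ofFinite X
  have hX : A * ((m + 1) * Nat.card P) ≤ Nat.card X := by
    rw [Nat.card_sigma]
    have h1 : ∀ t ∈ (Finset.univ : Finset (Fin (m + 1) × P)), A ≤ Nat.card {S : Finset (Fin m) // S.card = 2 ∧
        ∃ x, (S : Set (Fin m)) = MulAction.orbit t.2.1 x} := fun t _ => t.2.2.2
    have h2 := Finset.card_nsmul_le_sum _ _ _ h1
    rw [Finset.card_univ, ← Nat.card_eq_fintype_card, Nat.card_prod, Nat.card_fin, smul_eq_mul, mul_comm] at h2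
    exact h2
  have hex : ∀ t : X, ∃ H : Y,
      (∀ h, (h ∈ H.1 ∧ h t.1.1 = t.1.1) ↔ h ∈ t.1.2.1.map (Perm.viaEmbeddingHom (Fin.succAboveEmb t.1.1))) ∧
      ∀ x, (∃ h ∈ H.1, h ^ 3 = 1 ∧ h x ≠ x) ↔ (x = t.1.1 ∨ x ∈ t.2.1.map (Fin.succAboveEmb t.1.1)) := by
    intro t
    obtain ⟨H, h1, h2, h3⟩ := odd_triple t.1.1 t.1.2.1 t.1.2.2.1 t.2.1 t.2.2.1 t.2.2.2
    exact ⟨⟨H, h1⟩, h2, h3⟩
  choose F hF1 hF2 using hex
  have hfib : ∀ b ∈ (Finset.univ : Finset Y), (Finset.univ.filter (fun a : X => F a = b)).card ≤ 3 := by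
    intro b _
    rcases (Finset.univ.filter (fun a : X => F a = b)).eq_empty_or_nonempty with h0 | ⟨t0, ht0⟩
    · rw [h0]
      simp
    · rw [Finset.mem_filter] at ht0
      refine (Finset.card_le_card_of_injOn (t := insert t0.1.1 (t0.2.1.map (Fin.succAboveEmb t0.1.1)))
        (fun a => a.1.1) ?_ ?_).trans ?_
      · intro a ha
        rw [Finset.mem_coe, Finset.mem_filter] at ha
        have h1 : ∃ h ∈ (F a).1, h ^ 3 = 1 ∧ h a.1.1 ≠ a.1.1 := (hF2 a a.1.1).2 (Or.inl rfl)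
        rw [ha.2, ← ht0.2] at h1
        have h2 := (hF2 t0 a.1.1).1 h1
        rw [Finset.mem_coe, Finset.mem_insert]
        exact h2
      · rintro ⟨⟨p, K⟩, S⟩ ha ⟨⟨p', K'⟩, S'⟩ ha' h
        rw [Finset.mem_coe, Finset.mem_filter] at ha ha'
        have hpp : p = p' := h
        subst hpp
        have hFF : F ⟨(p, K), S⟩ = F ⟨(p, K'), S'⟩ := ha.2.trans ha'.2.symm
        have hKK : K = K' := by
          apply Subtype.ext
          apply Subgroup.map_injective (Perm.viaEmbeddingHom_injective (Fin.succAboveEmb p))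
          ext h
          have h1 := hF1 ⟨(p, K), S⟩ h
          have h2 := hF1 ⟨(p, K'), S'⟩ h
          rw [hFF] at h1
          exact h1.symm.trans h2
        subst hKK
        have hSS : S = S' := by
          apply Subtype.ext
          apply Finset.map_injective (Fin.succAboveEmb p)
          ext x
          have h1 := hF2 ⟨(p, K), S⟩ x
          have h2 := hF2 ⟨(p, K), S'⟩ x
          rw [hFF] at h1
          have h3 := h1.symm.trans h2
          have hne : ∀ T : Finset (Fin m), x ∈ T.map (Fin.succAboveEmb p) → x ≠ p := by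
            intro T hT
            rw [Finset.mem_map] at hT
            obtain ⟨y, -, rfl⟩ := hT
            exact Fin.succAbove_ne p y
          constructor
          · intro h4
            exact (h3.1 (Or.inr h4)).resolve_left (hne _ h4)
          · intro h4
            exact (h3.2 (Or.inr h4)).resolve_left (hne _ h4)
        subst hSS
        rfl
      · refine (Finset.card_insert_le _ _).trans ?_
        rw [Finset.card_map, t0.2.2.1]
  have h1 := Finset.card_le_mul_card_image_of_maps_to (f := F) (s := Finset.univ) (t := Finset.univ)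
    (fun a _ => Finset.mem_univ _) 3 hfib
  rw [Finset.card_univ, Finset.card_univ, ← Nat.card_eq_fintype_card, ← Nat.card_eq_fintype_card] at h1
  exact hX.trans h1

end Pool.Agent.SqA
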