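import Pool.Agent.SqA.Block

/-!
`Fam H` gives a pair. `O` from the definition is normal in `H`: `h o h⁻¹ = (h o) (h o) o⁻¹ h⁻²`. Let `L` be a Sylow 2-subgroup of
`H` (in `Perm (Fin n)`: `(Sylow 2 H)` mapped by `H.subtype`): `l ∈ L` has `l ^ 2 ∈ O ∩ L = 1`, so `El L`. `H / O` has exponent two,
so `|H| = |O| 2 ^ k`, `|L| = 2 ^ k`, `O ⊔ L = H`. `O` is abelian of odd order, so all prime factors are at least 3.
`bad_even`: `H ↦ (O, L)` is injective (`H = O ⊔ L`), and `O = ⊥` if the support is empty. `bad_odd`: if the support of `O` has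
fewer than 5 points it is empty (`H = L`, `El H`) or one orbit with 3 points (`Pair.orbit_odd`), and then `|O| = 3`
(`hat_eq_on_orbit`: an element of `O` is determined by its value at one point), `|L|` a power of two.
-/

set_option autoImplicit false

namespace Pool.Agent.SqA

open Equiv Pool.Agent.AbS

private theorem nrm_fam {Ω : Type} {H O : Subgroup (Perm Ω)} (hO : O ≤ H) (hs : ∀ h ∈ H, h * h ∈ O) {h o : Perm Ω}
    (hh : h ∈ H) (ho : o ∈ O) : h * o * h⁻¹ ∈ O := by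
  have h1 : h * o * h⁻¹ = ((h * o) * (h * o)) * o⁻¹ * (h * h)⁻¹ := by group
  rw [h1]
  exact O.mul_mem (O.mul_mem (hs _ (H.mul_mem hh (hO ho))) (O.inv_mem ho)) (O.inv_mem (hs _ hh))

private theorem card_fam {Ω : Type} [Finite Ω] {H O : Subgroup (Perm Ω)} (hO : O ≤ H) (hs : ∀ h ∈ H, h * h ∈ O) :
    ∃ k : ℕ, Nat.card H = Nat.card O * 2 ^ k := by
  have : (O.subgroupOf H).Normal := ⟨by
    intro o ho g
    rw [Subgroup.mem_subgroupOf] at ho ⊢
    exact nrm_fam hO hs g.2 ho⟩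
  have : Fact (Nat.Prime 2) := ⟨Nat.prime_two⟩
  have h1 : IsPGroup 2 (H ⧸ O.subgroupOf H) := by
    intro q
    refine ⟨1, ?_⟩
    induction q using QuotientGroup.induction_on with
    | H g =>
      rw [pow_one, pow_two, ← QuotientGroup.mk_mul, QuotientGroup.eq_one_iff, Subgroup.mem_subgroupOf]
      exact hs _ g.2
  obtain ⟨k, hk⟩ := IsPGroup.iff_card.1 h1
  refine ⟨k, ?_⟩
  rw [← hk, ← Nat.card_congr (Subgroup.subgroupOfEquivOfLe hO).toEquiv, mul_comm]
  exact Subgroup.card_eq_card_quotient_mul_card_subgroup _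

private theorem pow_card_mem {Ω : Type} {K : Subgroup (Perm Ω)} {x : Perm Ω} (hx : x ∈ K) : x ^ Nat.card K = 1 := by
  have h1 : (⟨x, hx⟩ : K) ^ Nat.card K = 1 := pow_card_eq_one'
  exact congrArg (fun z : K => (z : Perm Ω)) h1

theorem fam_split {n : ℕ} {H : Subgroup (Perm (Fin n))} (h : Fam H) :
    ∃ O L : Subgroup (Perm (Fin n)), Pair O L ∧ O ⊔ L = H ∧ Nat.card H = Nat.card O * Nat.card L ∧
      ∃ k : ℕ, Nat.card L = 2 ^ k := by
  obtain ⟨O, hO, hab, hodd, hs⟩ := h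
  obtain ⟨k, hk⟩ := card_fam hO hs
  have : Fact (Nat.Prime 2) := ⟨Nat.prime_two⟩
  obtain ⟨K, hK⟩ := Sylow.exists_subgroup_card_pow_prime (G := H) 2 (n := k) ⟨Nat.card O, by rw [hk, mul_comm]⟩
  have hLc : Nat.card (K.map H.subtype) = 2 ^ k := by
    rw [← hK]
    exact Subgroup.card_map_of_injective H.subtype_injective
  have hLH : K.map H.subtype ≤ H := by
    rintro _ ⟨g, -, rfl⟩
    exact g.2
  have hcop : Nat.Coprime (Nat.card O) (2 ^ k) := (Nat.coprime_two_right.2 hodd).pow_right k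
  refine ⟨O, K.map H.subtype, ⟨⟨hab, ?_⟩, ?_, ?_⟩, ?_, by rw [hk, hLc], k, hLc⟩
  · intro p hp hd
    rcases hp.eq_two_or_odd' with h2 | h2
    · rw [h2] at hd
      exact absurd (even_iff_two_dvd.2 hd) (Nat.not_even_iff_odd.2 hodd)
    · obtain ⟨m, hm⟩ := h2
      have := hp.two_le
      omega
  · intro l hl
    have h1 : l * l ∈ O := hs l (hLH hl)
    have h2 : l * l ∈ K.map H.subtype := Subgroup.mul_mem _ hl hl
    have h3 := orderOf_dvd_of_pow_eq_one (pow_card_mem h1)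
    have h4 := orderOf_dvd_of_pow_eq_one (pow_card_mem h2)
    rw [hLc] at h4
    exact orderOf_eq_one_iff.1 (Nat.eq_one_of_dvd_coprimes hcop h3 h4)
  · intro l hl o ho
    exact nrm_fam hO hs (hLH hl) ho
  · refine Subgroup.eq_of_le_of_card_ge (sup_le hO hLH) ?_
    have h1 : Nat.card O ∣ Nat.card (O ⊔ K.map H.subtype : Subgroup (Perm (Fin n))) :=
      Subgroup.card_dvd_of_le le_sup_left
    have h2 : Nat.card (K.map H.subtype) ∣ Nat.card (O ⊔ K.map H.subtype : Subgroup (Perm (Fin n))) :=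
      Subgroup.card_dvd_of_le le_sup_right
    rw [hLc] at h2
    rw [hk]
    exact Nat.le_of_dvd Nat.card_pos (hcop.mul_dvd_of_dvd_of_dvd h1 h2)

theorem El.fam {n : ℕ} {L : Subgroup (Perm (Fin n))} (h : El L) : Fam L ∧ ∃ k : ℕ, Nat.card L = 2 ^ k := by
  have h1 : Fam L := by
    refine ⟨⊥, bot_le, ?_, ?_, ?_⟩
    · intro a ha b hb
      rw [Subgroup.mem_bot] at ha hb
      rw [ha, hb]
    · rw [Subgroup.card_bot]
      exact odd_one
    · intro l hl
      rw [Subgroup.mem_bot]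
      exact h l hl
  refine ⟨h1, ?_⟩
  obtain ⟨k, hk⟩ := card_fam (H := L) (O := ⊥) bot_le (by
    intro l hl
    rw [Subgroup.mem_bot]
    exact h l hl)
  rw [Subgroup.card_bot, one_mul] at hk
  exact ⟨k, hk⟩

private theorem supp_empty {n : ℕ} {O : Subgroup (Perm (Fin n))} (h : (supp O).card = 0) : O = ⊥ := by
  rw [Subgroup.eq_bot_iff_forall]
  intro o ho
  ext x
  by_contra hne
  have hx : x ∈ supp O := mem_supp.2 ⟨o, ho, fun h2 => hne (by rw [h2]; rfl)⟩
  rw [Finset.card_eq_zero] at h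
  rw [h] at hx
  exact absurd hx (Finset.notMem_empty x)

private theorem supp_pos {n : ℕ} {H O L : Subgroup (Perm (Fin n))} (hp : Pair O L) (hH : O ⊔ L = H) (hE : ¬ El H) :
    1 ≤ (supp O).card := by
  by_contra hc
  apply hE
  have h1 : O = ⊥ := supp_empty (by omega)
  rw [← hH, h1, bot_sup_eq]
  exact hp.2.1

theorem bad_even (n : ℕ) :
    Nat.card {H : Subgroup (Perm (Fin n)) // Fam H ∧ ¬ El H} ≤
      Nat.card {p : Subgroup (Perm (Fin n)) × Subgroup (Perm (Fin n)) // Pair p.1 p.2 ∧ 1 ≤ (supp p.1).card} := by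
  classical
  have h1 : ∀ H : {H : Subgroup (Perm (Fin n)) // Fam H ∧ ¬ El H},
      ∃ p : Subgroup (Perm (Fin n)) × Subgroup (Perm (Fin n)),
        (Pair p.1 p.2 ∧ 1 ≤ (supp p.1).card) ∧ p.1 ⊔ p.2 = H.1 := by
    intro H
    obtain ⟨O, L, hp, hH, -, -⟩ := fam_split H.2.1
    exact ⟨(O, L), ⟨hp, supp_pos hp hH H.2.2⟩, hH⟩
  choose f hf hf2 using h1
  refine Nat.card_le_card_of_injective (fun H => ⟨f H, hf H⟩) ?_
  intro H H' hHH
  apply Subtype.ext
  have h2 : f H = f H' := congrArg Subtype.val hHH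
  rw [← hf2 H, ← hf2 H', h2]

private theorem card_three {n : ℕ} {O L : Subgroup (Perm (Fin n))} (h : Pair O L) (h1 : 1 ≤ (supp O).card)
    (h5 : (supp O).card < 5) : Nat.card O = 3 := by
  classical
  obtain ⟨x, hx⟩ := Finset.card_pos.1 h1
  have hfix : ∀ {y : Fin n}, y ∉ supp O → ∀ o ∈ O, o y = y := by
    intro y hy o ho
    by_contra hne
    exact hy (mem_supp.2 ⟨o, ho, hne⟩)
  -- the orbits lie in the support
  have hsub : ∀ {y : Fin n}, y ∈ supp O → ∀ z ∈ MulAction.orbit O y, z ∈ supp O := by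
    rintro y hy z ⟨⟨o, ho⟩, rfl⟩
    by_contra hz
    have h2 : o⁻¹ (o y) = o y := hfix hz o⁻¹ (O.inv_mem ho)
    have h3 : y = o y := by
      rw [← h2]
      simp
    apply hz
    change o y ∈ supp O
    rw [← h3]
    exact hy
  have horb : ∀ {y : Fin n}, y ∈ supp O → ∃ S : Finset (Fin n), S ⊆ supp O ∧ S.card = Nat.card (MulAction.orbit O y) ∧
      ∀ z, z ∈ S ↔ z ∈ MulAction.orbit O y := by
    intro y hy
    refine ⟨(MulAction.orbit O y).toFinite.toFinset, ?_, ?_, ?_⟩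
    · intro z hz
      exact hsub hy z ((Set.Finite.mem_toFinset _).1 hz)
    · exact (Set.ncard_eq_toFinset_card _ _).symm
    · intro z
      exact Set.Finite.mem_toFinset _
  obtain ⟨S, hS1, hS2, hS3⟩ := horb hx
  obtain ⟨hodd, h3⟩ := h.orbit_odd hx
  have hle : S.card ≤ 4 := (Finset.card_le_card hS1).trans (by omega)
  have hS : Nat.card (MulAction.orbit O x) = 3 := by
    obtain ⟨m, hm⟩ := hodd
    omega
  have hall : supp O ⊆ S := by
    intro y hy
    by_contra hyS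
    obtain ⟨T, hT1, hT2, hT3⟩ := horb hy
    obtain ⟨-, h3'⟩ := h.orbit_odd hy
    have hdis : Disjoint S T := by
      rw [Finset.disjoint_left]
      intro z hzS hzT
      apply hyS
      rw [hS3] at hzS ⊢
      rw [hT3] at hzT
      have e1 := MulAction.orbit_eq_iff.2 hzS
      have e2 := MulAction.orbit_eq_iff.2 hzT
      rw [← e1, e2]
      exact MulAction.mem_orbit_self y
    have h6 : (S ∪ T).card ≤ (supp O).card := Finset.card_le_card (Finset.union_subset hS1 hT1)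
    rw [Finset.card_union_of_disjoint hdis] at h6
    omega
  have hbij : Function.Bijective (fun o : O => (⟨o • x, MulAction.mem_orbit x o⟩ : MulAction.orbit O x)) := by
    constructor
    · intro o o' hoo
      have h7 : (o : Perm (Fin n)) x = (o' : Perm (Fin n)) x := congrArg Subtype.val hoo
      apply Subtype.ext
      ext y
      by_cases hy : y ∈ supp O
      · rw [hat_eq_on_orbit h.1.1 (le_hat O o.2) (le_hat O o'.2) h7 y ((hS3 y).1 (hall hy))]
      · rw [hfix hy _ o.2, hfix hy _ o'.2]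
    · rintro ⟨_, o, rfl⟩
      exact ⟨o, rfl⟩
  rw [Nat.card_eq_of_bijective _ hbij, hS]

private def join {n : ℕ} : {L : Subgroup (Perm (Fin n)) // El L} ⊕
    {p : Subgroup (Perm (Fin n)) × Subgroup (Perm (Fin n)) // Pair p.1 p.2 ∧ 5 ≤ (supp p.1).card} →
    Subgroup (Perm (Fin n))
  | Sum.inl L => L.1
  | Sum.inr p => p.1.1 ⊔ p.1.2

theorem bad_odd (n : ℕ) :
    Nat.card {H : Subgroup (Perm (Fin n)) // Fam H ∧ ¬ ∃ k : ℕ, Nat.card H = 3 * 2 ^ k} ≤ nEl n +
      Nat.card {p : Subgroup (Perm (Fin n)) × Subgroup (Perm (Fin n)) // Pair p.1 p.2 ∧ 5 ≤ (supp p.1).card} := by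
  classical
  have h1 : ∀ H : {H : Subgroup (Perm (Fin n)) // Fam H ∧ ¬ ∃ k : ℕ, Nat.card H = 3 * 2 ^ k},
      ∃ p : {L : Subgroup (Perm (Fin n)) // El L} ⊕
        {p : Subgroup (Perm (Fin n)) × Subgroup (Perm (Fin n)) // Pair p.1 p.2 ∧ 5 ≤ (supp p.1).card},
        join p = H.1 := by
    intro H
    by_cases hE : El H.1
    · exact ⟨Sum.inl ⟨H.1, hE⟩, rfl⟩
    · obtain ⟨O, L, hp, hH, hc, k, hk⟩ := fam_split H.2.1
      have h5 : 5 ≤ (supp O).card := by
        by_contra hcon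
        apply H.2.2
        refine ⟨k, ?_⟩
        rw [hc, hk, card_three hp (supp_pos hp hH hE) (by omega)]
      exact ⟨Sum.inr ⟨(O, L), hp, h5⟩, hH⟩
  choose f hf using h1
  rw [nEl, ← Nat.card_sum]
  refine Nat.card_le_card_of_injective f ?_
  intro H H' hHH
  apply Subtype.ext
  rw [← hf H, ← hf H', hHH]

end Pool.Agent.SqA
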