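import Pool.Agent.SqA.Pairs
import Pool.Agent.SqA.Split
import Pool.Agent.SqA.OddM
import Pool.Agent.SqA.LimA
import Pool.Agent.AbS.Main

/-!
The theorem: the densities for the subgroups of `S_n` whose squares generate an abelian group of odd order.
-/

set_option autoImplicit false

namespace Pool.Agent.SqA

open Filter Topology Equiv Pool.Agent.AbS

private theorem tendsto_even_odd {f : ℕ → ℝ} {l : ℝ} (h0 : Tendsto (fun n => f (2 * n)) atTop (𝓝 l))
    (h1 : Tendsto (fun n => f (2 * n + 1)) atTop (𝓝 l)) : Tendsto f atTop (𝓝 l) := by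
  rw [Metric.tendsto_atTop] at h0 h1 ⊢
  intro ε hε
  obtain ⟨N0, hN0⟩ := h0 ε hε
  obtain ⟨N1, hN1⟩ := h1 ε hε
  refine ⟨2 * N0 + 2 * N1 + 1, fun n hn => ?_⟩
  obtain ⟨k, hk⟩ := Nat.even_or_odd' n
  rcases hk with hk | hk
  · rw [hk]
    exact hN0 k (by omega)
  · rw [hk]
    exact hN1 k (by omega)

/-- The proportion of a property in the family, along a sequence of degrees. -/
private theorem dens_zero (t : ℕ → ℕ) (m : ℕ) (M B : ℕ → ℝ) (hM0 : ∀ᶠ n in atTop, 0 < M n)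
    (hM : ∀ᶠ n in atTop, M n ≤ (nFam (t n) : ℝ))
    (hB : ∀ᶠ n in atTop, (Nat.card {H : Subgroup (Perm (Fin (t n))) // Fam H ∧ m ∣ Nat.card H} : ℝ) ≤ B n)
    (h : Tendsto (fun n => B n / M n) atTop (𝓝 0)) : Tendsto (fun n => dens (t n) m) atTop (𝓝 0) := by
  refine squeeze_zero' (Eventually.of_forall fun n => by unfold dens; positivity) ?_ h
  filter_upwards [hM0, hM, hB] with n h1 h2 h3
  have h4 : (0 : ℝ) < (nFam (t n) : ℝ) := h1.trans_le h2
  have h5 : (0 : ℝ) ≤ B n := (by positivity : (0 : ℝ) ≤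
    (Nat.card {H : Subgroup (Perm (Fin (t n))) // Fam H ∧ m ∣ Nat.card H} : ℝ)).trans h3
  calc dens (t n) m = (Nat.card {H : Subgroup (Perm (Fin (t n))) // Fam H ∧ m ∣ Nat.card H} : ℝ) /
        (nFam (t n) : ℝ) := rfl
    _ ≤ B n / (nFam (t n) : ℝ) := div_le_div_of_nonneg_right h3 h4.le
    _ ≤ B n / M n := div_le_div_of_nonneg_left h5 h1 h2

private theorem dens_one (t : ℕ → ℕ) (m : ℕ) (M B : ℕ → ℝ) (hM0 : ∀ᶠ n in atTop, 0 < M n)
    (hM : ∀ᶠ n in atTop, M n ≤ (nFam (t n) : ℝ))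
    (hB : ∀ᶠ n in atTop, (Nat.card {H : Subgroup (Perm (Fin (t n))) // Fam H ∧ ¬ m ∣ Nat.card H} : ℝ) ≤ B n)
    (h : Tendsto (fun n => B n / M n) atTop (𝓝 0)) : Tendsto (fun n => dens (t n) m) atTop (𝓝 1) := by
  have h0 : Tendsto (fun n => 1 - dens (t n) m) atTop (𝓝 0) := by
    refine squeeze_zero' ?_ ?_ h
    · filter_upwards [hM0, hM] with n h1 h2
      have h4 : (0 : ℝ) < (nFam (t n) : ℝ) := h1.trans_le h2
      change 0 ≤ 1 - (Nat.card {H : Subgroup (Perm (Fin (t n))) // Fam H ∧ m ∣ Nat.card H} : ℝ) /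
        (nFam (t n) : ℝ)
      rw [sub_nonneg, div_le_one h4]
      unfold nFam
      exact_mod_cast Nat.card_le_card_of_injective
        (fun H : {H : Subgroup (Perm (Fin (t n))) // Fam H ∧ m ∣ Nat.card H} =>
          (⟨H.1, H.2.1⟩ : {H : Subgroup (Perm (Fin (t n))) // Fam H}))
        (fun H K h => Subtype.ext (congrArg (fun x => x.1) h))
    · filter_upwards [hM0, hM, hB] with n h1 h2 h3
      have h4 : (0 : ℝ) < (nFam (t n) : ℝ) := h1.trans_le h2
      have h5 : (0 : ℝ) ≤ B n := (by positivity : (0 : ℝ) ≤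
        (Nat.card {H : Subgroup (Perm (Fin (t n))) // Fam H ∧ ¬ m ∣ Nat.card H} : ℝ)).trans h3
      have h6 : nFam (t n) ≤ Nat.card {H : Subgroup (Perm (Fin (t n))) // Fam H ∧ m ∣ Nat.card H} +
          Nat.card {H : Subgroup (Perm (Fin (t n))) // Fam H ∧ ¬ m ∣ Nat.card H} := by
        classical
        rw [← Nat.card_sum]
        unfold nFam
        refine Nat.card_le_card_of_injective (fun H : {H : Subgroup (Perm (Fin (t n))) // Fam H} =>
          if h : m ∣ Nat.card H.1 then Sum.inl ⟨H.1, H.2, h⟩ else Sum.inr ⟨H.1, H.2, h⟩) ?_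
        have hF : ∀ H : {H : Subgroup (Perm (Fin (t n))) // Fam H},
            Sum.elim (fun x : {H : Subgroup (Perm (Fin (t n))) // Fam H ∧ m ∣ Nat.card H} => x.1)
              (fun x : {H : Subgroup (Perm (Fin (t n))) // Fam H ∧ ¬ m ∣ Nat.card H} => x.1)
              (if h : m ∣ Nat.card H.1 then Sum.inl ⟨H.1, H.2, h⟩ else Sum.inr ⟨H.1, H.2, h⟩) = H.1 := by
          intro H
          by_cases h : m ∣ Nat.card H.1
          · simp only [dif_pos h, Sum.elim_inl]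
          · simp only [dif_neg h, Sum.elim_inr]
        intro H K hHK
        apply Subtype.ext
        rw [← hF H, ← hF K]
        exact congrArg _ hHK
      have h7 : (nFam (t n) : ℝ) ≤
          (Nat.card {H : Subgroup (Perm (Fin (t n))) // Fam H ∧ m ∣ Nat.card H} : ℝ) +
          (Nat.card {H : Subgroup (Perm (Fin (t n))) // Fam H ∧ ¬ m ∣ Nat.card H} : ℝ) := by
        exact_mod_cast h6
      have h8 : 1 - dens (t n) m = ((nFam (t n) : ℝ) -
          (Nat.card {H : Subgroup (Perm (Fin (t n))) // Fam H ∧ m ∣ Nat.card H} : ℝ)) / (nFam (t n) : ℝ) := by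
        change 1 - (Nat.card {H : Subgroup (Perm (Fin (t n))) // Fam H ∧ m ∣ Nat.card H} : ℝ) /
          (nFam (t n) : ℝ) = _
        field_simp
      rw [h8]
      calc ((nFam (t n) : ℝ) -
          (Nat.card {H : Subgroup (Perm (Fin (t n))) // Fam H ∧ m ∣ Nat.card H} : ℝ)) / (nFam (t n) : ℝ)
          ≤ B n / (nFam (t n) : ℝ) := by
            apply div_le_div_of_nonneg_right _ h4.le
            linarith
        _ ≤ B n / M n := div_le_div_of_nonneg_left h5 h1 h2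
  have := (tendsto_const_nhds (x := (1 : ℝ))).sub h0
  simpa using this

private theorem nEl_pos (n : ℕ) : (0 : ℝ) < (nEl n : ℝ) := by
  exact_mod_cast (Nat.lt_of_lt_of_le Nat.zero_lt_one (one_le_nEl n))

private theorem nEl_le_nFam (n : ℕ) : (nEl n : ℝ) ≤ (nFam n : ℝ) := by
  unfold nEl nFam
  exact_mod_cast Nat.card_le_card_of_injective
    (fun L : {L : Subgroup (Perm (Fin n)) // El L} =>
      (⟨L.1, (El.fam L.2).1⟩ : {H : Subgroup (Perm (Fin n)) // Fam H}))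
    (fun H K h => Subtype.ext (congrArg (fun x => x.1) h))

private theorem even_bad : Tendsto (fun n : ℕ =>
    (Nat.card {H : Subgroup (Perm (Fin (2 * n))) // Fam H ∧ ¬ El H} : ℝ) / (nEl (2 * n) : ℝ)) atTop (𝓝 0) := by
  refine squeeze_zero (fun n => by positivity) (fun n => ?_) pairs_even
  have := bad_even (2 * n)
  have h : (Nat.card {H : Subgroup (Perm (Fin (2 * n))) // Fam H ∧ ¬ El H} : ℝ) ≤
      (Nat.card {p : Subgroup (Perm (Fin (2 * n))) × Subgroup (Perm (Fin (2 * n))) //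
        Pair p.1 p.2 ∧ 1 ≤ (supp p.1).card} : ℝ) := by exact_mod_cast this
  exact div_le_div_of_nonneg_right h (nEl_pos _).le

/-- The number of groups of order `3 * 2 ^ k`. -/
private noncomputable def S3 (n : ℕ) : ℝ :=
  (Nat.card {H : Subgroup (Perm (Fin (2 * n + 1))) // Fam H ∧ ∃ k : ℕ, Nat.card H = 3 * 2 ^ k} : ℝ)

private theorem S3_ge (A : ℕ) : ∀ᶠ n : ℕ in atTop,
    (A : ℝ) * ((2 * n + 1 : ℕ) : ℝ) * (nEl (2 * n) : ℝ) ≤ 6 * S3 n := by
  have h1 := (a2_large A).comp (tendsto_id.const_mul_atTop' (show 0 < 2 by norm_num))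
  have h2 := h1.eventually_lt_const (show (0 : ℝ) < 1 / 2 by norm_num)
  filter_upwards [h2] with n hn
  simp only [Function.comp, id] at hn
  rw [div_lt_iff₀ (nEl_pos _)] at hn
  have h3 := odd_main (2 * n) A
  have h4 : nEl (2 * n) ≤ Nat.card {K : Subgroup (Perm (Fin (2 * n))) // El K ∧ a2 K < A} +
      Nat.card {K : Subgroup (Perm (Fin (2 * n))) // El K ∧ A ≤ a2 K} := by
    classical
    rw [← Nat.card_sum]
    unfold nEl
    refine Nat.card_le_card_of_injective (fun K : {K : Subgroup (Perm (Fin (2 * n))) // El K} =>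
      if h : a2 K.1 < A then Sum.inl ⟨K.1, K.2, h⟩ else Sum.inr ⟨K.1, K.2, not_lt.1 h⟩) ?_
    have hF : ∀ K : {K : Subgroup (Perm (Fin (2 * n))) // El K},
        Sum.elim (fun x : {K : Subgroup (Perm (Fin (2 * n))) // El K ∧ a2 K < A} => x.1)
          (fun x : {K : Subgroup (Perm (Fin (2 * n))) // El K ∧ A ≤ a2 K} => x.1)
          (if h : a2 K.1 < A then Sum.inl ⟨K.1, K.2, h⟩ else Sum.inr ⟨K.1, K.2, not_lt.1 h⟩) = K.1 := by
      intro K
      by_cases h : a2 K.1 < A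
      · simp only [dif_pos h, Sum.elim_inl]
      · simp only [dif_neg h, Sum.elim_inr]
    intro H K hHK
    apply Subtype.ext
    rw [← hF H, ← hF K]
    exact congrArg _ hHK
  have h5 : (nEl (2 * n) : ℝ) ≤ (Nat.card {K : Subgroup (Perm (Fin (2 * n))) // El K ∧ a2 K < A} : ℝ) +
      (Nat.card {K : Subgroup (Perm (Fin (2 * n))) // El K ∧ A ≤ a2 K} : ℝ) := by exact_mod_cast h4
  have h6 : (nEl (2 * n) : ℝ) ≤ 2 * (Nat.card {K : Subgroup (Perm (Fin (2 * n))) // El K ∧ A ≤ a2 K} : ℝ) := by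
    linarith
  have h7 : (A : ℝ) * (((2 * n + 1 : ℕ) : ℝ) *
      (Nat.card {K : Subgroup (Perm (Fin (2 * n))) // El K ∧ A ≤ a2 K} : ℝ)) ≤ 3 * S3 n := by
    unfold S3
    exact_mod_cast h3
  have hA : (0 : ℝ) ≤ (A : ℝ) * ((2 * n + 1 : ℕ) : ℝ) := by positivity
  have h8 := mul_le_mul_of_nonneg_left h6 hA
  linarith

private theorem S3_pos : ∀ᶠ n : ℕ in atTop, 0 < S3 n := by
  filter_upwards [S3_ge 1] with n hn
  have : (0 : ℝ) < ((1 : ℕ) : ℝ) * ((2 * n + 1 : ℕ) : ℝ) * (nEl (2 * n) : ℝ) := by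
    have := nEl_pos (2 * n)
    positivity
  linarith

private theorem S3_le (n : ℕ) : S3 n ≤ (nFam (2 * n + 1) : ℝ) := by
  unfold S3 nFam
  exact_mod_cast Nat.card_le_card_of_injective
    (fun H : {H : Subgroup (Perm (Fin (2 * n + 1))) // Fam H ∧ ∃ k : ℕ, Nat.card H = 3 * 2 ^ k} =>
      (⟨H.1, H.2.1⟩ : {H : Subgroup (Perm (Fin (2 * n + 1))) // Fam H}))
    (fun H K h => Subtype.ext (congrArg (fun x => x.1) h))

private theorem odd_bad : Tendsto (fun n : ℕ =>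
    (Nat.card {H : Subgroup (Perm (Fin (2 * n + 1))) // Fam H ∧ ¬ ∃ k : ℕ, Nat.card H = 3 * 2 ^ k} : ℝ) / S3 n)
    atTop (𝓝 0) := by
  rw [Metric.tendsto_atTop]
  intro ε hε
  obtain ⟨A, hA⟩ := exists_nat_gt (12 / ε)
  have hA0 : (0 : ℝ) < A := lt_trans (by positivity) hA
  have h1 := pairs_odd.eventually_lt_const (show (0 : ℝ) < 1 by norm_num)
  have h2 := S3_ge A
  have h3 : ∀ᶠ n : ℕ in atTop, dist ((Nat.card {H : Subgroup (Perm (Fin (2 * n + 1))) //
      Fam H ∧ ¬ ∃ k : ℕ, Nat.card H = 3 * 2 ^ k} : ℝ) / S3 n) 0 < ε := by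
    filter_upwards [h1, h2, S3_pos] with n h1 h2 hpos
    have hE := nEl_pos (2 * n)
    rw [div_lt_iff₀ hE, one_mul] at h1
    have h4 := bad_odd (2 * n + 1)
    have h5 : (Nat.card {H : Subgroup (Perm (Fin (2 * n + 1))) // Fam H ∧ ¬ ∃ k : ℕ, Nat.card H = 3 * 2 ^ k} : ℝ) ≤
        (nEl (2 * n + 1) : ℝ) + (Nat.card {p : Subgroup (Perm (Fin (2 * n + 1))) ×
          Subgroup (Perm (Fin (2 * n + 1))) // Pair p.1 p.2 ∧ 5 ≤ (supp p.1).card} : ℝ) := by
      exact_mod_cast h4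
    have h6 : (nEl (2 * n + 1) : ℝ) ≤ ((2 * n + 1 : ℕ) : ℝ) * (nEl (2 * n) : ℝ) := by
      exact_mod_cast nEl_odd n
    have h7 : (1 : ℝ) ≤ ((2 * n + 1 : ℕ) : ℝ) := by
      exact_mod_cast Nat.succ_le_succ (Nat.zero_le _)
    set x := ((2 * n + 1 : ℕ) : ℝ) * (nEl (2 * n) : ℝ) with hx
    have h8 : (nEl (2 * n) : ℝ) ≤ x := by
      rw [hx]
      nlinarith
    have hx0 : 0 < x := by linarith
    have h9 : (Nat.card {H : Subgroup (Perm (Fin (2 * n + 1))) //
        Fam H ∧ ¬ ∃ k : ℕ, Nat.card H = 3 * 2 ^ k} : ℝ) ≤ 2 * x := by linarith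
    have h10 : (A : ℝ) * x ≤ 6 * S3 n := by
      rw [hx, ← mul_assoc]
      exact h2
    rw [Real.dist_eq, sub_zero, abs_of_nonneg (by positivity), div_lt_iff₀ hpos]
    have h11 : 12 < A * ε := by rwa [div_lt_iff₀ hε] at hA
    have h12 : 12 * x < A * ε * x := mul_lt_mul_of_pos_right h11 hx0
    have h13 : A * ε * x ≤ 6 * (ε * S3 n) := by
      calc A * ε * x = ε * (A * x) := by ring
        _ ≤ ε * (6 * S3 n) := by gcongr
        _ = _ := by ring
    linarith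
  exact (eventually_atTop.1 h3)

private theorem small_even (Q : ℕ) :
    Tendsto (fun n : ℕ => ((2 * n).factorial : ℝ) ^ Q / (nEl (2 * n) : ℝ)) atTop (𝓝 0) := by
  obtain ⟨C, hC, hl⟩ := lowerE
  have := small_tendsto (fun n => (nEl n : ℝ)) (Real.log 2 / 16) C (by
    have := Real.log_pos (show (1 : ℝ) < 2 by norm_num)
    positivity) hl Q
  exact this.comp (tendsto_id.const_mul_atTop' (show 0 < 2 by norm_num))

private theorem small_odd (Q : ℕ) :
    Tendsto (fun n : ℕ => ((2 * n + 1).factorial : ℝ) ^ Q / S3 n) atTop (𝓝 0) := by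
  have h1 := (small_even (2 * Q)).const_mul 6
  rw [mul_zero] at h1
  refine squeeze_zero' ?_ ?_ h1
  · filter_upwards [S3_pos] with n hn
    positivity
  · filter_upwards [S3_pos, S3_ge 1, eventually_ge_atTop 2] with n hpos hge hn
    have hE := nEl_pos (2 * n)
    have h2 : (2 * n + 1).factorial ≤ (2 * n).factorial ^ 2 := by
      rw [Nat.factorial_succ, sq]
      exact Nat.mul_le_mul_right _ (Nat.lt_factorial_self (by omega))
    have h3 : ((2 * n + 1).factorial : ℝ) ^ Q ≤ ((2 * n).factorial : ℝ) ^ (2 * Q) := by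
      rw [pow_mul]
      have : ((2 * n + 1).factorial : ℝ) ≤ ((2 * n).factorial : ℝ) ^ 2 := by exact_mod_cast h2
      gcongr
    have h4 : (nEl (2 * n) : ℝ) ≤ 6 * S3 n := by
      have h5 : (1 : ℝ) ≤ ((2 * n + 1 : ℕ) : ℝ) := by
        exact_mod_cast Nat.succ_le_succ (Nat.zero_le _)
      have h6 : (nEl (2 * n) : ℝ) ≤ ((1 : ℕ) : ℝ) * ((2 * n + 1 : ℕ) : ℝ) * (nEl (2 * n) : ℝ) := by
        rw [Nat.cast_one, one_mul]
        exact le_mul_of_one_le_left hE.le h5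
      exact h6.trans hge
    rw [div_le_iff₀ hpos]
    calc ((2 * n + 1).factorial : ℝ) ^ Q ≤ ((2 * n).factorial : ℝ) ^ (2 * Q) := h3
      _ = ((2 * n).factorial : ℝ) ^ (2 * Q) / (nEl (2 * n) : ℝ) * (nEl (2 * n) : ℝ) := by
          rw [div_mul_cancel₀ _ hE.ne']
      _ ≤ ((2 * n).factorial : ℝ) ^ (2 * Q) / (nEl (2 * n) : ℝ) * (6 * S3 n) := by gcongr
      _ = _ := by ring

private theorem dvd_three {m k : ℕ} (h : m ∣ 3 * 2 ^ k) : (∃ j, m = 2 ^ j) ∨ ∃ j, m = 3 * 2 ^ j := by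
  by_cases h3 : 3 ∣ m
  · obtain ⟨c, rfl⟩ := h3
    have h4 : c ∣ 2 ^ k := Nat.dvd_of_mul_dvd_mul_left (by norm_num) h
    obtain ⟨j, -, hj⟩ := (Nat.dvd_prime_pow Nat.prime_two).1 h4
    exact Or.inr ⟨j, by rw [hj]⟩
  · have h4 : Nat.Coprime m 3 := ((Nat.Prime.coprime_iff_not_dvd Nat.prime_three).2 h3).symm
    obtain ⟨j, -, hj⟩ := (Nat.dvd_prime_pow Nat.prime_two).1 (h4.dvd_of_dvd_mul_left h)
    exact Or.inl ⟨j, hj⟩

/-- Counting with two exceptional families. -/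
private theorem card_split {n : ℕ} (P A B : Subgroup (Perm (Fin n)) → Prop) (h : ∀ H, P H → A H ∨ B H) :
    Nat.card {H : Subgroup (Perm (Fin n)) // P H} ≤
      Nat.card {H : Subgroup (Perm (Fin n)) // A H} + Nat.card {H : Subgroup (Perm (Fin n)) // B H} := by
  classical
  rw [← Nat.card_sum]
  refine Nat.card_le_card_of_injective (fun H : {H : Subgroup (Perm (Fin n)) // P H} =>
    if h' : A H.1 then Sum.inl ⟨H.1, h'⟩ else Sum.inr ⟨H.1, (h H.1 H.2).resolve_left h'⟩) ?_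
  have hF : ∀ H : {H : Subgroup (Perm (Fin n)) // P H},
      Sum.elim (fun x : {H : Subgroup (Perm (Fin n)) // A H} => x.1)
        (fun x : {H : Subgroup (Perm (Fin n)) // B H} => x.1)
        (if h' : A H.1 then Sum.inl ⟨H.1, h'⟩ else Sum.inr ⟨H.1, (h H.1 H.2).resolve_left h'⟩) = H.1 := by
    intro H
    by_cases h' : A H.1
    · simp only [dif_pos h', Sum.elim_inl]
    · simp only [dif_neg h', Sum.elim_inr]
  intro H K hHK
  apply Subtype.ext
  rw [← hF H, ← hF K]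
  exact congrArg _ hHK

private theorem even_one (a : ℕ) : Tendsto (fun n => dens (2 * n) (2 ^ a)) atTop (𝓝 1) := by
  refine dens_one (fun n => 2 * n) (2 ^ a) (fun n => (nEl (2 * n) : ℝ))
    (fun n => (Nat.card {H : Subgroup (Perm (Fin (2 * n))) // Fam H ∧ ¬ El H} : ℝ) +
      ((2 * n).factorial : ℝ) ^ (2 ^ a)) (Eventually.of_forall fun n => nEl_pos _)
    (Eventually.of_forall fun n => nEl_le_nFam _) (Eventually.of_forall fun n => ?_) ?_
  · have h1 := card_split (n := 2 * n) (fun H => Fam H ∧ ¬ 2 ^ a ∣ Nat.card H) (fun H => Fam H ∧ ¬ El H)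
      (fun H => Nat.card H ≤ 2 ^ a) (by
        rintro H ⟨h1, h2⟩
        by_cases hE : El H
        · right
          obtain ⟨-, k, hk⟩ := hE.fam
          rw [hk] at h2 ⊢
          have : ¬ a ≤ k := fun h => h2 (pow_dvd_pow 2 h)
          exact Nat.pow_le_pow_right (by norm_num) (by omega)
        · exact Or.inl ⟨h1, hE⟩)
    have h2 := card_small_le (2 * n) (2 ^ a)
    have h3 := h1.trans (Nat.add_le_add_left h2 _)
    exact_mod_cast h3
  · have := even_bad.add (small_even (2 ^ a))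
    rw [add_zero] at this
    refine this.congr fun n => ?_
    rw [add_div]

private theorem odd_one (m : ℕ) (a : ℕ) (hm : m = 2 ^ a ∨ m = 3 * 2 ^ a) :
    Tendsto (fun n => dens (2 * n + 1) m) atTop (𝓝 1) := by
  refine dens_one (fun n => 2 * n + 1) m S3
    (fun n => (Nat.card {H : Subgroup (Perm (Fin (2 * n + 1))) // Fam H ∧ ¬ ∃ k : ℕ, Nat.card H = 3 * 2 ^ k} : ℝ) +
      ((2 * n + 1).factorial : ℝ) ^ (3 * 2 ^ a)) S3_pos
    (Eventually.of_forall fun n => S3_le _) (Eventually.of_forall fun n => ?_) ?_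
  · have h1 := card_split (n := 2 * n + 1) (fun H => Fam H ∧ ¬ m ∣ Nat.card H)
      (fun H => Fam H ∧ ¬ ∃ k : ℕ, Nat.card H = 3 * 2 ^ k) (fun H => Nat.card H ≤ 3 * 2 ^ a) (by
        rintro H ⟨h1, h2⟩
        by_cases hE : ∃ k : ℕ, Nat.card H = 3 * 2 ^ k
        · right
          obtain ⟨k, hk⟩ := hE
          rw [hk] at h2 ⊢
          have : ¬ a ≤ k := by
            intro h
            apply h2
            rcases hm with rfl | rfl
            · exact (pow_dvd_pow 2 h).mul_left 3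
            · exact mul_dvd_mul_left 3 (pow_dvd_pow 2 h)
          exact Nat.mul_le_mul_left 3 (Nat.pow_le_pow_right (by norm_num) (by omega))
        · exact Or.inl ⟨h1, hE⟩)
    have h2 := card_small_le (2 * n + 1) (3 * 2 ^ a)
    have h3 := h1.trans (Nat.add_le_add_left h2 _)
    exact_mod_cast h3
  · have := odd_bad.add (small_odd (3 * 2 ^ a))
    rw [add_zero] at this
    refine this.congr fun n => ?_
    rw [add_div]

private theorem even_zero (m : ℕ) (hm : ∀ a : ℕ, m ≠ 2 ^ a) :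
    Tendsto (fun n => dens (2 * n) m) atTop (𝓝 0) := by
  refine dens_zero (fun n => 2 * n) m (fun n => (nEl (2 * n) : ℝ))
    (fun n => (Nat.card {H : Subgroup (Perm (Fin (2 * n))) // Fam H ∧ ¬ El H} : ℝ))
    (Eventually.of_forall fun n => nEl_pos _)
    (Eventually.of_forall fun n => nEl_le_nFam _) (Eventually.of_forall fun n => ?_) even_bad
  have hx : ∀ H : Subgroup (Perm (Fin (2 * n))), Fam H ∧ m ∣ Nat.card H → Fam H ∧ ¬ El H := by
    rintro H ⟨h1, h2⟩
    refine ⟨h1, fun hE => ?_⟩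
    obtain ⟨-, k, hk⟩ := hE.fam
    rw [hk] at h2
    obtain ⟨j, -, hj⟩ := (Nat.dvd_prime_pow Nat.prime_two).1 h2
    exact hm j hj
  exact_mod_cast Nat.card_le_card_of_injective
    (fun H : {H : Subgroup (Perm (Fin (2 * n))) // Fam H ∧ m ∣ Nat.card H} =>
      (⟨H.1, hx H.1 H.2⟩ : {H : Subgroup (Perm (Fin (2 * n))) // Fam H ∧ ¬ El H}))
    (fun H K h => Subtype.ext (congrArg (fun x => x.1) h))

private theorem odd_zero (m : ℕ) (hm : ∀ a : ℕ, m ≠ 2 ^ a ∧ m ≠ 3 * 2 ^ a) :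
    Tendsto (fun n => dens (2 * n + 1) m) atTop (𝓝 0) := by
  refine dens_zero (fun n => 2 * n + 1) m S3
    (fun n => (Nat.card {H : Subgroup (Perm (Fin (2 * n + 1))) // Fam H ∧ ¬ ∃ k : ℕ, Nat.card H = 3 * 2 ^ k} : ℝ))
    S3_pos (Eventually.of_forall fun n => S3_le _) (Eventually.of_forall fun n => ?_) odd_bad
  have hx : ∀ H : Subgroup (Perm (Fin (2 * n + 1))), Fam H ∧ m ∣ Nat.card H →
      Fam H ∧ ¬ ∃ k : ℕ, Nat.card H = 3 * 2 ^ k := by
    rintro H ⟨h1, h2⟩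
    refine ⟨h1, ?_⟩
    rintro ⟨k, hk⟩
    rw [hk] at h2
    rcases dvd_three h2 with ⟨j, hj⟩ | ⟨j, hj⟩
    · exact (hm j).1 hj
    · exact (hm j).2 hj
  exact_mod_cast Nat.card_le_card_of_injective
    (fun H : {H : Subgroup (Perm (Fin (2 * n + 1))) // Fam H ∧ m ∣ Nat.card H} =>
      (⟨H.1, hx H.1 H.2⟩ :
        {H : Subgroup (Perm (Fin (2 * n + 1))) // Fam H ∧ ¬ ∃ k : ℕ, Nat.card H = 3 * 2 ^ k}))
    (fun H K h => Subtype.ext (congrArg (fun x => x.1) h))

theorem main :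
    (∀ a : ℕ, Tendsto (fun n => dens n (2 ^ a)) atTop (𝓝 1)) ∧
    (∀ a : ℕ, Tendsto (fun n => dens (2 * n) (3 * 2 ^ a)) atTop (𝓝 0) ∧
      Tendsto (fun n => dens (2 * n + 1) (3 * 2 ^ a)) atTop (𝓝 1)) ∧
    ∀ m : ℕ, (∀ a : ℕ, m ≠ 2 ^ a ∧ m ≠ 3 * 2 ^ a) → Tendsto (fun n => dens n m) atTop (𝓝 0) := by
  refine ⟨fun a => tendsto_even_odd (even_one a) (odd_one _ a (Or.inl rfl)), fun a => ⟨even_zero _ ?_,
    odd_one _ a (Or.inr rfl)⟩, fun m hm => tendsto_even_odd (even_zero m fun a => (hm a).1) (odd_zero m hm)⟩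
  intro b h
  have h3 : 3 ∣ 2 ^ b := ⟨2 ^ a, h.symm⟩
  have := Nat.prime_three.dvd_of_dvd_pow h3
  omega

end Pool.Agent.SqA
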