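import Pool.Agent.SqA.Count
import Pool.Agent.SqA.AnaRel
import Pool.Agent.SqA.AnaAbs
import Pool.Agent.SqA.ElGrow

/-!
The pairs are few: `rel_count` for `d ≤ ε n`, `abs_count` for `d = ⌊ε n⌋ + 1`, with `rel_ana`, `abs_ana`; `G = nGe 3` (`upperG` with
`q = 2`), `V = W` (`W_le`), `E = nEl` (`lowerE`, `upperE`, `growthE`, `nEl_mono`, `nEl_odd`), `log_fact`. In the odd case
`nEl (2 n) ≥ nEl (2 n + 1) / (2 n + 1)`, hence the factor `n` in `abs_ana`.
-/

set_option autoImplicit false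

namespace Pool.Agent.SqA

open Equiv Filter Topology Pool.Agent.AbS

theorem W_le (n : ℕ) (hn : 1 ≤ n) : (W n : ℝ) ≤ Real.exp (5 * (1 + Real.log n) ^ 2) := by
  have hn1 : (1 : ℝ) ≤ n := by exact_mod_cast hn
  have hL : 0 ≤ Real.log n := Real.log_nonneg hn1
  have h2 := Real.log_two_gt_d9
  have h2' := Real.log_two_lt_d9
  have hlog : (Nat.log 2 n : ℝ) * Real.log 2 ≤ Real.log n := by
    have h3 : (2 : ℝ) ^ (Nat.log 2 n) ≤ n := by exact_mod_cast Nat.pow_log_le_self 2 (by omega)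
    have h4 := Real.log_le_log (by positivity) h3
    rwa [Real.log_pow] at h4
  have hk : (Nat.log 2 n : ℝ) ≤ 1.45 * Real.log n := by
    have h0 : (0 : ℝ) ≤ Nat.log 2 n := Nat.cast_nonneg _
    nlinarith
  have hn2 : Real.log ((n : ℝ) + 1) ≤ Real.log n + Real.log 2 := by
    rw [← Real.log_mul (by linarith) (by norm_num)]
    exact Real.log_le_log (by linarith) (by linarith)
  have hn0 : 0 ≤ Real.log ((n : ℝ) + 1) := Real.log_nonneg (by linarith)
  have hW : (W n : ℝ) = Real.exp (2 * Real.log 2 + (2 * (Nat.log 2 n : ℝ) + 3) * Real.log ((n : ℝ) + 1)) := by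
    rw [Real.exp_add]
    have e1 : Real.exp (2 * Real.log 2) = 4 := by
      rw [two_mul, Real.exp_add, Real.exp_log (by norm_num)]
      norm_num
    have e2 : Real.exp ((2 * (Nat.log 2 n : ℝ) + 3) * Real.log ((n : ℝ) + 1)) =
        ((n : ℝ) + 1) ^ (2 * Nat.log 2 n + 3) := by
      have e3 : (2 * (Nat.log 2 n : ℝ) + 3) = ((2 * Nat.log 2 n + 3 : ℕ) : ℝ) := by push_cast; ring
      rw [e3, Real.exp_nat_mul, Real.exp_log (by linarith)]
    rw [e1, e2]
    unfold W ell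
    push_cast
    rfl
  rw [hW]
  apply Real.exp_le_exp.2
  have h5 : (2 * (Nat.log 2 n : ℝ) + 3) * Real.log ((n : ℝ) + 1) ≤
      (2 * (1.45 * Real.log n) + 3) * (Real.log n + 0.6932) := by
    refine mul_le_mul (by linarith) (by linarith) hn0 (by positivity)
  nlinarith

private theorem split_card {α : Type} [Finite α] (P : α → Prop) (s : α → ℕ) (a K : ℕ) :
    Nat.card {p : α // P p ∧ a ≤ s p} ≤
      ∑ d ∈ Finset.Icc a K, Nat.card {p : α // P p ∧ s p = d} + Nat.card {p : α // P p ∧ K + 1 ≤ s p} := by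
  classical
  have : Fintype α := Fintype.ofFinite α
  simp only [Nat.card_eq_fintype_card, Fintype.card_subtype]
  rw [← Finset.card_biUnion]
  · rw [← Finset.card_union_of_disjoint]
    · refine Finset.card_le_card ?_
      intro p hp
      simp only [Finset.mem_filter, Finset.mem_univ, true_and] at hp
      rw [Finset.mem_union]
      rcases Nat.lt_or_ge K (s p) with h | h
      · right
        simp only [Finset.mem_filter, Finset.mem_univ, true_and]
        exact ⟨hp.1, h⟩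
      · left
        rw [Finset.mem_biUnion]
        refine ⟨s p, Finset.mem_Icc.2 ⟨hp.2, h⟩, ?_⟩
        simp only [Finset.mem_filter, Finset.mem_univ, true_and]
        exact ⟨hp.1, trivial⟩
    · rw [Finset.disjoint_left]
      intro p hp hp'
      rw [Finset.mem_biUnion] at hp
      obtain ⟨d, hd, hpd⟩ := hp
      simp only [Finset.mem_filter, Finset.mem_univ, true_and] at hpd hp'
      rw [Finset.mem_Icc] at hd
      omega
  · intro d _ d' _ hdd
    rw [Function.onFun, Finset.disjoint_left]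
    intro p hp hp'
    simp only [Finset.mem_filter, Finset.mem_univ, true_and] at hp hp'
    exact hdd (hp.2.symm.trans hp'.2)

/-- The numbers of the two kinds of pairs. -/
private theorem pairs_le (n a K : ℕ) :
    (Nat.card {p : Subgroup (Perm (Fin n)) × Subgroup (Perm (Fin n)) // Pair p.1 p.2 ∧ a ≤ (supp p.1).card} : ℝ) ≤
      (∑ d ∈ Finset.Icc a K, (2 * (n : ℝ) * (W n : ℝ)) ^ d * (nGe 3 d : ℝ) *
        ∑ z ∈ Finset.Icc ((d + 2) / 3) d, (nEl (n - z) : ℝ)) +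
      (n.factorial : ℝ) ^ (Nat.log 2 n + 1) * (2 * (W n : ℝ)) ^ n * 3 ^ (2 * n) *
        ∑ z ∈ Finset.Icc ((K + 1 + 2) / 3) n, (nEl (n - z + 2) : ℝ) *
          Real.exp (Real.log 3 * z * (2 * n - z) / 32) := by
  have h1 := split_card (fun p : Subgroup (Perm (Fin n)) × Subgroup (Perm (Fin n)) => Pair p.1 p.2)
    (fun p => (supp p.1).card) a K
  have h2 : (Nat.card {p : Subgroup (Perm (Fin n)) × Subgroup (Perm (Fin n)) //
      Pair p.1 p.2 ∧ a ≤ (supp p.1).card} : ℝ) ≤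
      (∑ d ∈ Finset.Icc a K, (Nat.card {p : Subgroup (Perm (Fin n)) × Subgroup (Perm (Fin n)) //
        Pair p.1 p.2 ∧ (supp p.1).card = d} : ℝ)) +
      (Nat.card {p : Subgroup (Perm (Fin n)) × Subgroup (Perm (Fin n)) //
        Pair p.1 p.2 ∧ K + 1 ≤ (supp p.1).card} : ℝ) := by
    exact_mod_cast h1
  refine h2.trans (add_le_add (Finset.sum_le_sum fun d _ => ?_) (abs_count n (K + 1)))
  have h3 := rel_count n d
  have h4 : (Nat.card {p : Subgroup (Perm (Fin n)) × Subgroup (Perm (Fin n)) //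
      Pair p.1 p.2 ∧ (supp p.1).card = d} : ℝ) ≤
      (((2 * n * W n) ^ d * nGe 3 d * ∑ z ∈ Finset.Icc ((d + 2) / 3) d, nEl (n - z) : ℕ) : ℝ) := by
    exact_mod_cast h3
  refine h4.trans (le_of_eq ?_)
  push_cast
  rfl

/-- All the hypotheses of the real analysis. -/
private theorem data : ∃ c C : ℝ, 0 < c ∧ 0 ≤ C ∧
    (∀ᶠ n : ℕ in atTop, Real.exp (c * n) * (nEl n : ℝ) ≤ (nEl (n + 2) : ℝ)) ∧
    (∀ d : ℕ, 1 ≤ d → (nGe 3 d : ℝ) ≤ Real.exp (Real.log 3 / 36 * d ^ 2 + C * d * (1 + Real.log d) ^ 2)) ∧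
    (∀ n : ℕ, 1 ≤ n → (W n : ℝ) ≤ Real.exp (C * (1 + Real.log n) ^ 2)) ∧
    (∀ n : ℕ, 1 ≤ n → (nEl n : ℝ) ≤ Real.exp (Real.log 2 / 16 * n ^ 2 + C * n * (1 + Real.log n) ^ 2)) ∧
    (∀ n : ℕ, Real.exp (Real.log 2 / 16 * n ^ 2 - C * (n + 1)) ≤ (nEl n : ℝ)) := by
  obtain ⟨c, hc, hgrow⟩ := growthE
  obtain ⟨C1, hC1, h1⟩ := upperG 2 Nat.prime_two
  obtain ⟨C2, hC2, h2⟩ := upperE
  obtain ⟨C3, hC3, h3⟩ := lowerE
  refine ⟨c, C1 + C2 + C3 + 5, hc, by positivity, hgrow, ?_, ?_, ?_, ?_⟩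
  · intro d hd
    refine (h1 d hd).trans (Real.exp_le_exp.2 ?_)
    have e1 : 0 ≤ (d : ℝ) * (1 + Real.log d) ^ 2 := by positivity
    push_cast
    norm_num
    nlinarith
  · intro n hn
    refine (W_le n hn).trans (Real.exp_le_exp.2 ?_)
    have e1 : 0 ≤ (1 + Real.log (n : ℝ)) ^ 2 := by positivity
    nlinarith
  · intro n hn
    refine (h2 n hn).trans (Real.exp_le_exp.2 ?_)
    have e1 : 0 ≤ (n : ℝ) * (1 + Real.log n) ^ 2 := by positivity
    nlinarith
  · intro n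
    refine le_trans (Real.exp_le_exp.2 ?_) (h3 n)
    have e1 : 0 ≤ (n : ℝ) + 1 := by positivity
    nlinarith

private theorem one_le_W (n : ℕ) : 1 ≤ (W n : ℝ) := by
  have h : 1 ≤ W n := by
    unfold W
    exact Nat.one_le_iff_ne_zero.2 (by positivity)
  exact_mod_cast h

private theorem both :
    Tendsto (fun n : ℕ => (Nat.card {p : Subgroup (Perm (Fin (2 * n))) × Subgroup (Perm (Fin (2 * n))) //
      Pair p.1 p.2 ∧ 1 ≤ (supp p.1).card} : ℝ) / (nEl (2 * n) : ℝ)) atTop (𝓝 0) ∧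
    Tendsto (fun n : ℕ => (Nat.card {p : Subgroup (Perm (Fin (2 * n + 1))) × Subgroup (Perm (Fin (2 * n + 1))) //
      Pair p.1 p.2 ∧ 5 ≤ (supp p.1).card} : ℝ) / (nEl (2 * n) : ℝ)) atTop (𝓝 0) := by
  obtain ⟨c, C, hc, hC, hgrow, hG, hV, hEu, hEl⟩ := data
  have hE1 : ∀ n, (1 : ℝ) ≤ (nEl n : ℝ) := fun n => by exact_mod_cast one_le_nEl n
  have hmono : Monotone (fun n : ℕ => (nEl n : ℝ)) := fun a b hab => Nat.cast_le.2 (nEl_mono hab)
  have hodd : ∀ n : ℕ, (nEl (2 * n + 1) : ℝ) ≤ (2 * n + 1) * (nEl (2 * n) : ℝ) := fun n => by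
    have := nEl_odd n
    exact_mod_cast this
  obtain ⟨ε, hε, r1, r2⟩ := rel_ana (fun n => (nEl n : ℝ)) (fun d => (nGe 3 d : ℝ)) (fun n => (W n : ℝ)) c C hc hC
    hE1 hmono hodd hgrow (fun d => Nat.cast_nonneg _) hG one_le_W hV
  have ab := abs_ana (fun n => (nEl n : ℝ)) (fun n => (W n : ℝ)) C hC (fun n => Nat.cast_nonneg _) hEu hEl one_le_W
    hV log_fact ε hε
  have hS0 : ∀ n K : ℕ, 0 ≤ (n.factorial : ℝ) ^ (Nat.log 2 n + 1) * (2 * (W n : ℝ)) ^ n * 3 ^ (2 * n) *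
        ∑ z ∈ Finset.Icc ((K + 1 + 2) / 3) n, (nEl (n - z + 2) : ℝ) *
          Real.exp (Real.log 3 * z * (2 * n - z) / 32) := by
    intro n K
    have : 0 ≤ ∑ z ∈ Finset.Icc ((K + 1 + 2) / 3) n, (nEl (n - z + 2) : ℝ) *
          Real.exp (Real.log 3 * z * (2 * n - z) / 32) :=
      Finset.sum_nonneg fun z _ => mul_nonneg (Nat.cast_nonneg _) (Real.exp_pos _).le
    positivity
  have t2 : Tendsto (fun n : ℕ => 2 * n) atTop atTop := tendsto_atTop_mono (fun n => (show n ≤ 2 * n by omega)) tendsto_id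
  have t3 : Tendsto (fun n : ℕ => 2 * n + 1) atTop atTop := tendsto_atTop_mono (fun n => (show n ≤ 2 * n + 1 by omega)) tendsto_id
  have key : ∀ S N a b : ℝ, 0 ≤ S → 0 < b → b ≤ N * a → S ≤ N * S / b * a := by
    intro S N a b hS hb hab
    rw [div_mul_eq_mul_div, le_div_iff₀ hb]
    calc S * b ≤ S * (N * a) := mul_le_mul_of_nonneg_left hab hS
      _ = N * S * a := by ring
  refine ⟨?_, ?_⟩
  · have hs := r1.add (ab.comp t2)
    rw [add_zero] at hs
    refine squeeze_zero' (Eventually.of_forall fun n => by positivity) ?_ hs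
    filter_upwards [eventually_ge_atTop 1] with n hn
    have hE0 : (0 : ℝ) < (nEl (2 * n) : ℝ) := zero_lt_one.trans_le (hE1 _)
    have h1 := pairs_le (2 * n) 1 ⌊ε * ((2 * n : ℕ) : ℝ)⌋₊
    rw [div_le_iff₀ hE0]
    simp only [Function.comp_apply]
    rw [add_mul, div_mul_cancel₀ _ hE0.ne', div_mul_cancel₀ _ hE0.ne']
    refine h1.trans (add_le_add le_rfl ?_)
    refine le_mul_of_one_le_left (hS0 _ _) ?_
    have : 1 ≤ 2 * n := by omega
    exact_mod_cast this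
  · have hs := r2.add (ab.comp t3)
    rw [add_zero] at hs
    refine squeeze_zero' (Eventually.of_forall fun n => by positivity) ?_ hs
    filter_upwards [eventually_ge_atTop 1] with n hn
    have hE0 : (0 : ℝ) < (nEl (2 * n) : ℝ) := zero_lt_one.trans_le (hE1 _)
    have hE3 : (0 : ℝ) < (nEl (2 * n + 1) : ℝ) := zero_lt_one.trans_le (hE1 _)
    have h1 := pairs_le (2 * n + 1) 5 ⌊ε * ((2 * n + 1 : ℕ) : ℝ)⌋₊
    rw [div_le_iff₀ hE0]
    simp only [Function.comp_apply]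
    rw [add_mul, div_mul_cancel₀ _ hE0.ne']
    refine h1.trans (add_le_add le_rfl ?_)
    refine key _ _ _ _ (hS0 _ _) hE3 ?_
    have := hodd n
    push_cast
    exact this

theorem pairs_even : Tendsto (fun n : ℕ =>
    (Nat.card {p : Subgroup (Perm (Fin (2 * n))) × Subgroup (Perm (Fin (2 * n))) //
      Pair p.1 p.2 ∧ 1 ≤ (supp p.1).card} : ℝ) / (nEl (2 * n) : ℝ)) atTop (𝓝 0) := both.1

theorem pairs_odd : Tendsto (fun n : ℕ =>
    (Nat.card {p : Subgroup (Perm (Fin (2 * n + 1))) × Subgroup (Perm (Fin (2 * n + 1))) //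
      Pair p.1 p.2 ∧ 5 ≤ (supp p.1).card} : ℝ) / (nEl (2 * n) : ℝ)) atTop (𝓝 0) := both.2

end Pool.Agent.SqA
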