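import Pool.Agent.SqA.GlobB

/-!
The structure theorem.
-/

set_option autoImplicit false

namespace Pool.Agent.SqA

open Equiv Pool.Agent.AbS

theorem str {n : ℕ} {O L : Subgroup (Perm (Fin n))} (h : Pair O L) (χ : L →* ℤˣ) :
    ∃ Z : Finset (Fin n), Z ⊆ supp O ∧ (supp O).card ≤ 3 * Z.card ∧ Good (ell n) Z L χ ∧
      (Nat.card (hat O)) ^ 4 ≤ 3 ^ (2 * n - Z.card) ∧ (Nat.card (eig (hat O) L χ)) ^ 2 ≤ 3 ^ Z.card := by
  obtain ⟨I, Y, hI⟩ := exists_reps h χ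
  exact ⟨ZZ O L I Y, fun z hz => (mem_ZZ.1 hz).1, globB_supp h χ hI, globA_good h χ hI, globB_hat h χ hI,
    globB_eig h χ hI⟩

end Pool.Agent.SqA
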